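import Mathlib

/-!
Morphisms from `G_m` to affine varieties over fields, and their specializations.
-/

set_option autoImplicit false

namespace Pool.Agent.TH143.HE

open MvPolynomial

variable {n : ℕ} {R : Type} [CommRing R]

/-- the homogenization -/
noncomputable def hmg (G : MvPolynomial (Fin n) R) : MvPolynomial (Fin (n + 1)) R :=
  ∑ e ∈ Finset.range (G.totalDegree + 1),
    X 0 ^ (G.totalDegree - e) * rename Fin.succ (homogeneousComponent e G)

theorem hmg_homog (G : MvPolynomial (Fin n) R) : (hmg G).IsHomogeneous G.totalDegree := by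
  unfold hmg
  refine IsHomogeneous.sum _ _ _ fun e he => ?_
  have h1 := (isHomogeneous_X_pow (R := R) (0 : Fin (n + 1)) (G.totalDegree - e)).mul
    ((homogeneousComponent_isHomogeneous e G).rename_isHomogeneous (f := Fin.succ))
  have h2 := Finset.mem_range.1 he
  have h3 : G.totalDegree - e + e = G.totalDegree := by omega
  rw [h3] at h1
  exact h1

theorem eval₂_smul_homog {σ : Type} [Fintype σ] {A : Type} [CommRing A] (φ : R →+* A) (c : A)
    (v : σ → A) {G : MvPolynomial σ R} {d : ℕ} (hG : G.IsHomogeneous d) :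
    eval₂ φ (fun i => c * v i) G = c ^ d * eval₂ φ v G := by
  rw [eval₂_eq', eval₂_eq', Finset.mul_sum]
  refine Finset.sum_congr rfl fun α hα => ?_
  have h5 := hG (mem_support_iff.1 hα)
  rw [Finsupp.weight_apply, Finsupp.sum_fintype _ _ (fun _ => by simp)] at h5
  simp only [Pi.one_apply, smul_eq_mul, mul_one] at h5
  simp only [mul_pow, Finset.prod_mul_distrib]
  rw [Finset.prod_pow_eq_pow_sum, h5]
  ring

/-- the polynomial obtained from `G` by inserting `p j / X ^ l` and clearing denominators -/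
noncomputable def cur {A : Type} [CommRing A] (φ : R →+* A) (l : ℕ) (p : Fin n → Polynomial A)
    (G : MvPolynomial (Fin n) R) : Polynomial A :=
  eval₂ (Polynomial.C.comp φ) (Fin.cons (Polynomial.X ^ l) p) (hmg G)

theorem cur_map {A A' : Type} [CommRing A] [CommRing A'] (φ : R →+* A) (g : A →+* A') (l : ℕ)
    (p : Fin n → Polynomial A) (G : MvPolynomial (Fin n) R) :
    (cur φ l p G).map g = cur (g.comp φ) l (fun j => (p j).map g) G := by
  unfold cur
  rw [← Polynomial.coe_mapRingHom, eval₂_comp_left]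
  congr 1
  · ext r
    simp
  · funext j
    refine Fin.cases ?_ (fun i => ?_) j
    · simp
    · simp

theorem eval₂_hmg {A : Type} [Field A] (φ : R →+* A) (v : Fin (n + 1) → A) (hv : v 0 ≠ 0)
    (G : MvPolynomial (Fin n) R) :
    eval₂ φ v (hmg G) = v 0 ^ G.totalDegree * eval₂ φ (fun i => v (Fin.succ i) / v 0) G := by
  have h1 : ∀ e ∈ Finset.range (G.totalDegree + 1),
      eval₂ φ v (X 0 ^ (G.totalDegree - e) * rename Fin.succ (homogeneousComponent e G)) =
        v 0 ^ G.totalDegree * eval₂ φ (fun i => v (Fin.succ i) / v 0)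
          (homogeneousComponent e G) := by
    intro e he
    have h2 := Finset.mem_range.1 he
    rw [eval₂_mul, eval₂_pow, eval₂_X, eval₂_rename]
    have h3 : (v ∘ Fin.succ : Fin n → A) = fun i => v 0 * (v (Fin.succ i) / v 0) := by
      funext i
      rw [mul_div_cancel₀ _ hv]
      rfl
    rw [h3]
    have h4 : eval₂ φ (fun i => v 0 * (v (Fin.succ i) / v 0)) (homogeneousComponent e G) =
        v 0 ^ e * eval₂ φ (fun i => v (Fin.succ i) / v 0) (homogeneousComponent e G) := by
      rw [eval₂_eq', eval₂_eq', Finset.mul_sum]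
      refine Finset.sum_congr rfl fun α hα => ?_
      have h5 := (homogeneousComponent_isHomogeneous e G) (mem_support_iff.1 hα)
      rw [Finsupp.weight_apply, Finsupp.sum_fintype _ _ (fun _ => by simp)] at h5
      simp only [Pi.one_apply, smul_eq_mul, mul_one] at h5
      simp only [mul_pow, Finset.prod_mul_distrib]
      rw [Finset.prod_pow_eq_pow_sum, h5]
      ring
    rw [h4, ← mul_assoc, ← pow_add]
    congr 2
    omega
  unfold hmg
  rw [eval₂_sum, Finset.sum_congr rfl h1, ← Finset.mul_sum, ← eval₂_sum,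
    sum_homogeneousComponent]

theorem cur_eval {A : Type} [Field A] (φ : R →+* A) (l : ℕ) (p : Fin n → Polynomial A)
    (G : MvPolynomial (Fin n) R) {u : A} (hu : u ≠ 0) :
    (cur φ l p G).eval u = (u ^ l) ^ G.totalDegree *
      eval₂ φ (fun j => (p j).eval u / u ^ l) G := by
  have h1 : (cur φ l p G).eval u =
      eval₂ φ (Fin.cons (u ^ l) fun j => (p j).eval u : Fin (n + 1) → A) (hmg G) := by
    unfold cur
    rw [← Polynomial.coe_evalRingHom, eval₂_comp_left]
    congr 1
    · ext r
      simp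
    · funext j
      refine Fin.cases ?_ (fun i => ?_) j
      · simp
      · simp
  rw [h1, eval₂_hmg φ _ (by simpa using pow_ne_zero l hu)]
  rfl

theorem cur_zero_iff {A : Type} [Field A] [Infinite A] (φ : R →+* A) (l : ℕ)
    (p : Fin n → Polynomial A) (G : MvPolynomial (Fin n) R) :
    cur φ l p G = 0 ↔ ∀ u, u ≠ 0 → eval₂ φ (fun j => (p j).eval u / u ^ l) G = 0 := by
  constructor
  · intro h u hu
    have h1 := cur_eval φ l p G hu
    rw [h, Polynomial.eval_zero] at h1
    exact (mul_eq_zero.1 h1.symm).resolve_left (pow_ne_zero _ (pow_ne_zero _ hu))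
  · intro h
    apply Polynomial.eq_zero_of_infinite_isRoot
    refine Set.Infinite.mono (s := {u : A | u ≠ 0}) ?_ (Set.finite_singleton (0 : A)).infinite_compl
    intro u hu
    change Polynomial.eval u _ = 0
    rw [cur_eval φ l p G hu, h u hu, mul_zero]

/-- A morphism from `G_m` to the variety of `I`, nonconstant, whose image is not contained in the
variety of `I'`. -/
structure Cur {A : Type} [Field A] (φ : R →+* A) (I I' : Ideal (MvPolynomial (Fin n) R)) (l : ℕ)
    (p : Fin n → Polynomial A) : Prop where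
  zero : ∀ G ∈ I, cur φ l p G = 0
  ne : ∃ G ∈ I', cur φ l p G ≠ 0
  nc : ∃ j i, i ≠ l ∧ (p j).coeff i ≠ 0

theorem coeffs_inv {A : Type} [Field A] {q : Polynomial A} (hq : q ≠ 0) : q.leadingCoeff ≠ 0 :=
  Polynomial.leadingCoeff_ne_zero.2 hq

/-- **Specialization.** -/
theorem Cur.spec {k E : Type} [Field k] [Field E] [Algebra k E] (φ : R →+* k)
    {I I' : Ideal (MvPolynomial (Fin n) R)} {l : ℕ} {p : Fin n → Polynomial E}
    (h : Cur ((algebraMap k E).comp φ) I I' l p) :
    ∃ (L : Type) (_ : Field L) (_ : Algebra k L) (_ : FiniteDimensional k L)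
      (p' : Fin n → Polynomial L), Cur ((algebraMap k L).comp φ) I I' l p' := by
  classical
  obtain ⟨h1, ⟨G', hG', hne⟩, j, i, hi, hc⟩ := h
  let s : Finset E := (Finset.univ.biUnion fun j => (p j).coeffs) ∪
    {((p j).coeff i)⁻¹, (cur ((algebraMap k E).comp φ) l p G').leadingCoeff⁻¹}
  let A := Algebra.adjoin k (s : Set E)
  have hs : ∀ x ∈ s, x ∈ A := fun x hx => Algebra.subset_adjoin hx
  have hA : Algebra.FiniteType k A :=
    ⟨(Subalgebra.fg_top A).2 ⟨s, rfl⟩⟩
  obtain ⟨m, hm⟩ := Ideal.exists_maximal A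
  let _ : Field (A ⧸ m) := Ideal.Quotient.field m
  have hft : Algebra.FiniteType k (A ⧸ m) :=
    Algebra.FiniteType.of_surjective (Ideal.Quotient.mkₐ k m) Ideal.Quotient.mk_surjective
  have hfin : Module.Finite k (A ⧸ m) := finite_of_finite_type_of_isJacobsonRing k (A ⧸ m)
  let θ : A →ₐ[k] A ⧸ m := Ideal.Quotient.mkₐ k m
  -- lifts
  have hlift : ∀ j, ∃ q : Polynomial A, q.map (algebraMap A E) = p j := by
    intro j
    have h2 : p j ∈ Polynomial.lifts (algebraMap A E) := by
      rw [Polynomial.lifts_iff_coeff_lifts]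
      intro t
      by_cases ht : (p j).coeff t = 0
      · exact ⟨0, by rw [ht, map_zero]⟩
      · refine ⟨⟨(p j).coeff t, hs _ ?_⟩, rfl⟩
        exact Finset.mem_union_left _ (Finset.mem_biUnion.2
          ⟨j, Finset.mem_univ _, Polynomial.coeff_mem_coeffs ht⟩)
    exact (Polynomial.mem_lifts _).1 h2
  choose P hP using hlift
  have hinj : Function.Injective (algebraMap A E) := Subtype.val_injective
  have hcur : ∀ G, (cur ((algebraMap k A).comp φ) l P G).map (algebraMap A E) =
      cur ((algebraMap k E).comp φ) l p G := by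
    intro G
    rw [cur_map]
    congr 1
    funext j
    exact hP j
  have hcur' : ∀ G, (cur ((algebraMap k A).comp φ) l P G).map (θ : A →+* A ⧸ m) =
      cur ((algebraMap k (A ⧸ m)).comp φ) l (fun j => (P j).map (θ : A →+* A ⧸ m)) G := by
    intro G
    rw [cur_map]
    congr 1
  have hunit : ∀ x : A, ((x : E))⁻¹ ∈ s → (x : E) ≠ 0 → θ x ≠ 0 := by
    intro x hx hx0 h0
    have h2 : x * ⟨_, hs _ hx⟩ = 1 := Subtype.ext (mul_inv_cancel₀ hx0)
    have h3 := congrArg θ h2
    rw [map_mul, h0, zero_mul, map_one] at h3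
    exact zero_ne_one h3
  refine ⟨A ⧸ m, inferInstance, inferInstance, hfin, fun j => (P j).map (θ : A →+* A ⧸ m),
    ⟨fun G hG => ?_, ⟨G', hG', ?_⟩, j, i, hi, ?_⟩⟩
  · have h2 : cur ((algebraMap k A).comp φ) l P G = 0 := by
      apply Polynomial.map_injective _ hinj
      rw [hcur, h1 G hG, Polynomial.map_zero]
    rw [← hcur', h2, Polynomial.map_zero]
  · rw [← hcur']
    intro h0
    set q := cur ((algebraMap k A).comp φ) l P G' with hq
    have h2 : (q.leadingCoeff : E) = (cur ((algebraMap k E).comp φ) l p G').leadingCoeff := by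
      rw [← hcur, Polynomial.leadingCoeff_map_of_injective hinj]
      rfl
    refine hunit q.leadingCoeff ?_ ?_ ?_
    · rw [h2]
      simp [s]
    · rw [h2]
      exact coeffs_inv hne
    · have h3 := congrArg (fun f => Polynomial.coeff f q.natDegree) h0
      simp only [Polynomial.coeff_map, Polynomial.coeff_zero] at h3
      exact h3
  · rw [Polynomial.coeff_map]
    have h2 : (((P j).coeff i : A) : E) = (p j).coeff i := by
      rw [← hP j, Polynomial.coeff_map]
      rfl
    refine hunit _ ?_ ?_
    · rw [h2]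
      simp [s]
    · rw [h2]
      exact hc

/-- base change to a larger field -/
theorem Cur.map {A A' : Type} [Field A] [Field A'] {φ : R →+* A}
    {I I' : Ideal (MvPolynomial (Fin n) R)} {l : ℕ} {p : Fin n → Polynomial A}
    (h : Cur φ I I' l p) (g : A →+* A') : Cur (g.comp φ) I I' l (fun j => (p j).map g) := by
  obtain ⟨h1, ⟨G', hG', hne⟩, j, i, hi, hc⟩ := h
  refine ⟨fun G hG => ?_, ⟨G', hG', ?_⟩, j, i, hi, ?_⟩
  · rw [← cur_map, h1 G hG, Polynomial.map_zero]
  · rw [← cur_map]
    rwa [Ne, Polynomial.map_eq_zero_iff g.injective]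
  · rw [Polynomial.coeff_map]
    rwa [Ne, map_eq_zero]

end Pool.Agent.TH143.HE
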