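import Pool.Agent.TH143.HE.Pts
import Pool.Agent.TH143.HE.Spec
import Pool.Agent.TH143.GT.Fin

/-!
Entire curves given by linear differential equations in affine varieties.
-/

set_option autoImplicit false

namespace Pool.Agent.TH143.HE

open MvPolynomial Filter Pool.Agent.TH143

variable {n : ℕ} {R : Type} [CommRing R]

/-- All nonconstant morphisms from `G_m` to the variety of `I` have their image in the variety of
`I'`. -/
def GmCurvesIn (φ : R →+* ℂ) (I I' : Ideal (MvPolynomial (Fin n) R)) : Prop :=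
  ∀ (l : ℕ) (p : Fin n → Polynomial ℂ), (∀ u, u ≠ 0 → IsPt φ I (gm l p u)) →
    (∃ u, u ≠ 0 ∧ gm l p u ≠ gm l p 1) → ∀ u, u ≠ 0 → IsPt φ I' (gm l p u)

theorem GmCurvesIn.gmIn {φ : R →+* ℂ} {I I' : Ideal (MvPolynomial (Fin n) R)}
    (h : GmCurvesIn φ I I') : GmIn (extI φ I) (extI φ I') := by
  intro l p h1 h2 u hu
  exact (isPt_iff φ I' _).1 (h l p (fun u hu => (isPt_iff φ I _).2 (h1 u hu)) h2 u hu)

theorem gm_const_iff (l : ℕ) (p : Fin n → Polynomial ℂ) :
    (∀ u, u ≠ 0 → gm l p u = gm l p 1) ↔ ∀ j i, i ≠ l → (p j).coeff i = 0 := by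
  constructor
  · intro h j i hi
    have h1 : p j = Polynomial.C ((p j).eval 1) * Polynomial.X ^ l := by
      apply Polynomial.eq_of_infinite_eval_eq
      refine Set.Infinite.mono (s := {x : ℂ | x ≠ 0}) ?_
        (Set.finite_singleton (0 : ℂ)).infinite_compl
      intro u hu
      change Polynomial.eval u _ = Polynomial.eval u _
      have h9 := congrFun (h u hu) j
      unfold gm at h9
      rw [one_pow, div_one, div_eq_iff (pow_ne_zero _ hu)] at h9
      rw [h9, Polynomial.eval_mul, Polynomial.eval_C, Polynomial.eval_pow, Polynomial.eval_X]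
    rw [h1, Polynomial.coeff_C_mul_X_pow, if_neg hi]
  · intro h u hu
    funext j
    have h1 : p j = Polynomial.C ((p j).coeff l) * Polynomial.X ^ l := by
      ext i
      rw [Polynomial.coeff_C_mul_X_pow]
      by_cases hi : i = l
      · rw [if_pos hi, hi]
      · rw [if_neg hi, h j i hi]
    unfold gm
    rw [h1]
    simp only [Polynomial.eval_mul, Polynomial.eval_C, Polynomial.eval_pow, Polynomial.eval_X,
      one_pow, mul_one, div_one]
    rw [mul_div_cancel_right₀ _ (pow_ne_zero _ hu)]

theorem gmCurvesIn_iff {φ : R →+* ℂ} {I I' : Ideal (MvPolynomial (Fin n) R)} :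
    GmCurvesIn φ I I' ↔ ∀ (l : ℕ) (p : Fin n → Polynomial ℂ), ¬ Cur φ I I' l p := by
  constructor
  · rintro h l p ⟨h1, ⟨G', hG', hne⟩, j, i, hi, hc⟩
    apply hne
    rw [cur_zero_iff]
    intro u hu
    refine h l p (fun u hu G hG => (cur_zero_iff φ l p G).1 (h1 G hG) u hu) ?_ u hu G' hG'
    by_contra hcon
    push Not at hcon
    exact hc ((gm_const_iff l p).1 hcon j i hi)
  · intro h l p h1 h2 u hu G' hG'
    by_contra hne
    refine h l p ⟨fun G hG => (cur_zero_iff φ l p G).2 fun u hu => h1 u hu G hG,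
      ⟨G', hG', fun h0 => hne ((cur_zero_iff φ l p G').1 h0 u hu)⟩, ?_⟩
    by_contra hcon
    push Not at hcon
    obtain ⟨u1, hu1, hne1⟩ := h2
    exact hne1 ((gm_const_iff l p).2 hcon u1 hu1)

/-! ### exponential sums -/

theorem iteratedDeriv_expsum {ι : Type} (s : Finset ι) (c : ι → ℂ) (a : ι → ℂ) (k : ℕ) :
    iteratedDeriv k (fun z => ∑ i ∈ s, c i * Complex.exp (a i * z)) =
      fun z => ∑ i ∈ s, c i * a i ^ k * Complex.exp (a i * z) := by
  induction k with
  | zero =>
    rw [iteratedDeriv_zero]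
    funext z
    simp
  | succ k ih =>
    rw [iteratedDeriv_succ, ih]
    funext z
    have h1 : HasDerivAt (fun z => ∑ i ∈ s, c i * a i ^ k * Complex.exp (a i * z))
        (∑ i ∈ s, c i * a i ^ k * (Complex.exp (a i * z) * (a i * 1))) z := by
      apply HasDerivAt.fun_sum
      intro i _
      exact (((hasDerivAt_id' z).const_mul (a i)).cexp).const_mul _
    rw [h1.deriv]
    exact Finset.sum_congr rfl fun i _ => by ring

theorem polODE_expsum {ι : Type} (s : Finset ι) (c : ι → ℂ) (a : ι → ℂ) :
    PolODE (fun z => ∑ i ∈ s, c i * Complex.exp (a i * z)) := by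
  classical
  let A : Polynomial ℂ := ∏ i ∈ s, (Polynomial.X - Polynomial.C (a i))
  have hA : A.Monic := Polynomial.monic_prod_X_sub_C _ _
  refine ⟨A.natDegree, fun k => Polynomial.C (A.coeff k), ⟨A.natDegree, le_refl _, ?_⟩,
    fun z => ?_⟩
  · have h1 : A.coeff A.natDegree = 1 := hA
    change Polynomial.C (A.coeff A.natDegree) ≠ 0
    rw [h1, map_one]
    exact one_ne_zero
  · simp only [iteratedDeriv_expsum, Polynomial.eval_C, Finset.mul_sum]
    rw [Finset.sum_comm]
    refine Finset.sum_eq_zero fun i hi => ?_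
    have h1 : ∑ k ∈ Finset.range (A.natDegree + 1),
        A.coeff k * (c i * a i ^ k * Complex.exp (a i * z)) =
        c i * Complex.exp (a i * z) * A.eval (a i) := by
      rw [Polynomial.eval_eq_sum_range, Finset.mul_sum]
      exact Finset.sum_congr rfl fun k _ => by ring
    rw [h1]
    have h2 : A.eval (a i) = 0 := by
      simp only [A]
      rw [Polynomial.eval_prod]
      apply Finset.prod_eq_zero hi
      rw [Polynomial.eval_sub, Polynomial.eval_X, Polynomial.eval_C, sub_self]
    rw [h2, mul_zero]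

/-- a morphism from `G_m` composed with the exponential function -/
theorem gm_exp (l : ℕ) (p : Fin n → Polynomial ℂ) (j : Fin n) :
    (fun z => gm l p (Complex.exp z) j) = fun z => ∑ i ∈ Finset.range ((p j).natDegree + 1),
      (p j).coeff i * Complex.exp (((i : ℂ) - l) * z) := by
  funext z
  unfold gm
  rw [Polynomial.eval_eq_sum_range, Finset.sum_div]
  refine Finset.sum_congr rfl fun i _ => ?_
  rw [mul_div_assoc, ← Complex.exp_nat_mul, ← Complex.exp_nat_mul, ← Complex.exp_sub]
  congr 2
  ring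

/-- All nonconstant entire curves in the variety of `I` whose coordinates satisfy linear
differential equations with polynomial coefficients have their image in the variety of `I'`. -/
def EntireCurvesIn (φ : R →+* ℂ) (I I' : Ideal (MvPolynomial (Fin n) R)) : Prop :=
  ∀ f : ℂ → Fin n → ℂ, (∀ j, Differentiable ℂ (fun z => f z j)) →
    (∀ j, PolODE (fun z => f z j)) → (∀ z, IsPt φ I (f z)) → (∃ z z', f z ≠ f z') →
    ∀ z, IsPt φ I' (f z)

theorem gm_of_entire {φ : R →+* ℂ} {I I' : Ideal (MvPolynomial (Fin n) R)}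
    (h : EntireCurvesIn φ I I') : GmCurvesIn φ I I' := by
  rintro l p h1 ⟨u1, hu1, hne⟩ u hu
  have h2 := h (fun z => gm l p (Complex.exp z)) (fun j => ?_) (fun j => ?_)
    (fun z => h1 _ (Complex.exp_ne_zero z)) ⟨Complex.log u1, 0, ?_⟩ (Complex.log u)
  · rwa [Complex.exp_log hu] at h2
  · rw [gm_exp]
    intro z
    have : HasDerivAt (fun z => ∑ i ∈ Finset.range ((p j).natDegree + 1),
        (p j).coeff i * Complex.exp (((i : ℂ) - l) * z))
        (∑ i ∈ Finset.range ((p j).natDegree + 1), (p j).coeff i *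
          (Complex.exp (((i : ℂ) - l) * z) * (((i : ℂ) - l) * 1))) z := by
      apply HasDerivAt.fun_sum
      intro i _
      exact (((hasDerivAt_id' z).const_mul _).cexp).const_mul _
    exact this.differentiableAt
  · rw [gm_exp]
    exact polODE_expsum _ _ _
  · rw [Complex.exp_log hu1, Complex.exp_zero]
    exact hne


open Set FF Pool.Agent.W602.GT Pool.Agent.W603.BP Pool.Agent.W603.BPR Pool.Agent.W603.GR
  Pool.Agent.W603.PV Pool.Agent.TH143.GT in
/-- **Entire curves.** -/
theorem entire_of_gm {φ : R →+* ℂ} {I I' : Ideal (MvPolynomial (Fin n) R)}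
    (h : GmCurvesIn φ I I') : EntireCurvesIn φ I I' := by
  classical
  intro f hf hode hI hnc z1
  by_contra hz1
  unfold IsPt at hz1
  push Not at hz1
  obtain ⟨G', hG', hne'⟩ := hz1
  let F : ℂ → Fin (n + 1) → ℂ := fun z => Fin.cons 1 (f z)
  have hF : ∀ j, Differentiable ℂ (fun z => F z j) := by
    intro j
    refine Fin.cases ?_ (fun i => ?_) j
    · exact differentiable_const 1
    · exact hf i
  have hFode : ∀ j, PolODE (fun z => F z j) := by
    intro j
    refine Fin.cases ?_ (fun i => ?_) j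
    · refine ⟨1, fun k => if k = 1 then 1 else 0, ⟨1, le_refl _, by simp⟩, fun z => ?_⟩
      have h1 : (fun z => F z 0) = fun _ => (1 : ℂ) := rfl
      rw [h1, Finset.sum_range_succ, Finset.sum_range_one, iteratedDeriv_one, deriv_const]
      simp
    · exact hode i
  have hlin := linSys_of_polODE F hF hFode
  have hFne : ∀ z, F z ≠ 0 := by
    intro z h0
    have := congrFun h0 0
    exact one_ne_zero this
  have hFa : ∀ j, AnalyticOnNhd ℂ (fun w => F w j) univ := fun j z _ => (hF j).analyticAt z
  obtain ⟨K, i1, i2, w, y, h1, h2, h3, h4, h5⟩ := exists_closure F isPreconnected_univ hFa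
    (j0 := 0) ⟨0, mem_univ _, (one_ne_zero : (1 : ℂ) ≠ 0)⟩
  have hy : GenPt F univ K w y := ⟨h1, h2, h3, h4⟩
  have hev : ∀ (G : MvPolynomial (Fin n) R) (z : ℂ),
      eval (F z) (MvPolynomial.map φ (hmg G)) = eval₂ φ (f z) G := by
    intro G z
    rw [eval_map, eval₂_hmg φ (F z) (one_ne_zero : F z 0 ≠ 0)]
    have h6 : F z 0 = 1 := rfl
    rw [h6, one_pow, one_mul]
    congr 1
    funext i
    rw [div_one]
    rfl
  obtain ⟨z, z', hzz⟩ := hnc
  obtain ⟨j, hj⟩ := Function.ne_iff.1 hzz
  obtain ⟨r, hr⟩ := fam_of_entire (Q := X 0) hy hF hFne hlin (isHomogeneous_X _ _)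
    (fun z => by rw [eval_X]; exact one_ne_zero) ⟨z, z', Fin.succ j, 0, by
      change f z j * 1 ≠ 1 * f z' j
      rwa [mul_one, one_mul]⟩
  unfold AllFlat at hr
  push Not at hr
  obtain ⟨M, _, _, m, W, l, hm, hFam, hr⟩ := hr
  unfold Flat at hr
  push Not at hr
  obtain ⟨d, g1, g0, hg1, hg0, hn, -, hne⟩ := hr
  obtain ⟨c, hc, hcW⟩ := hFam.bd
  rw [aeval_X] at hcW
  set ψ : R →+* M := (algebraMap ℂ M).comp φ with hψ
  let p : Fin n → Polynomial M := fun j => Polynomial.C c⁻¹ * W (Fin.succ j)
  have hcc : Polynomial.C c⁻¹ * Polynomial.C c = 1 := by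
    rw [← Polynomial.C_mul, inv_mul_cancel₀ hc, Polynomial.C_1]
  have hcons : (Fin.cons (Polynomial.X ^ l) p : Fin (n + 1) → Polynomial M) =
      fun i => Polynomial.C c⁻¹ * W i := by
    funext i
    refine Fin.cases ?_ (fun i => ?_) i
    · rw [Fin.cons_zero, hcW, ← mul_assoc, hcc, one_mul]
    · rw [Fin.cons_succ]
  have hcur : ∀ G : MvPolynomial (Fin n) R, cur ψ l p G =
      Polynomial.C c⁻¹ ^ G.totalDegree * aeval W (MvPolynomial.map φ (hmg G)) := by
    intro G
    unfold cur
    rw [hcons, eval₂_smul_homog _ _ _ (hmg_homog G), aeval_def, eval₂_map]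
    rfl
  have hform : ∀ G : MvPolynomial (Fin n) R, IsForm (MvPolynomial.map φ (hmg G)) := fun G =>
    ⟨_, (hmg_homog G).map φ⟩
  have hCur : Cur ψ I I' l p := by
    refine ⟨fun G hG => ?_, ⟨G', hG', ?_⟩, ?_⟩
    · have h6 : (aeval W (MvPolynomial.map φ (hmg G)) : Polynomial M) = 0 := by
        rw [← hFam.rel _ (hform G), h4 _ (hform G)]
        intro z _
        rw [hev]
        exact hI z G hG
      rw [hcur, h6, mul_zero]
    · rw [hcur]
      refine mul_ne_zero (pow_ne_zero _ (by rw [Ne, Polynomial.C_eq_zero]; exact inv_ne_zero hc)) ?_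
      rw [Ne, ← hFam.rel _ (hform G'), h4 _ (hform G')]
      intro h6
      apply hne'
      rw [← hev]
      exact h6 z1 (mem_univ _)
    · by_contra hcon
      push Not at hcon
      have h6 : ∀ i, ∃ a : M, W i = Polynomial.X ^ l * Polynomial.C a := by
        intro i
        refine Fin.cases ?_ (fun i => ?_) i
        · exact ⟨c, by rw [hcW, mul_comm]⟩
        · refine ⟨(W (Fin.succ i)).coeff l, ?_⟩
          ext t
          rw [Polynomial.coeff_mul_C, Polynomial.coeff_X_pow]
          by_cases ht : t = l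
          · rw [if_pos ht, ht, one_mul]
          · have h7 := hcon i t ht
            simp only [p] at h7
            rw [Polynomial.coeff_C_mul] at h7
            rw [if_neg ht, zero_mul]
            exact (mul_eq_zero.1 h7).resolve_left (inv_ne_zero hc)
      choose a ha using h6
      have h7 : ∀ g : MvPolynomial (Fin (n + 1)) ℂ, g.IsHomogeneous d →
          (aeval W g : Polynomial M) = (Polynomial.X ^ l) ^ d * Polynomial.C (aeval a g) := by
        intro g hg
        have h8 : W = fun i => Polynomial.X ^ l * Polynomial.C (a i) := funext ha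
        rw [aeval_def, h8, eval₂_smul_homog _ _ _ hg]
        congr 1
        have h9 := MvPolynomial.comp_aeval_apply (f := a)
          (IsScalarTower.toAlgHom ℂ M (Polynomial M)) g
        exact h9.symm
      apply hne
      rw [h7 g1 hg1, h7 g0 hg0, Polynomial.derivative_mul, Polynomial.derivative_mul,
        Polynomial.derivative_C, Polynomial.derivative_C]
      ring
  obtain ⟨L, _, _, _, p', hp'⟩ := Cur.spec φ hCur
  let e : L →ₐ[ℂ] ℂ := IsAlgClosed.lift
  have h8 := hp'.map (e : L →+* ℂ)
  have h9 : (e : L →+* ℂ).comp ((algebraMap ℂ L).comp φ) = φ := by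
    ext r
    exact e.commutes (φ r)
  rw [h9] at h8
  exact gmCurvesIn_iff.1 h l _ h8

end Pool.Agent.TH143.HE
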