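import Pool.Agent.TH143.HE.Proj
import Pool.Agent.TH143.HE.Cur

/-!
Entire curves given by linear differential equations in projective varieties.
-/

set_option autoImplicit false

namespace Pool.Agent.TH143.HE

open MvPolynomial Filter Pool.Agent.TH143

variable {N : ℕ} {R : Type} [CommRing R]

/-- nonconstant holomorphic curves in the projective space -/
def NonConstC (f : ℂ → Fin (N + 1) → ℂ) : Prop := ∃ z w j k, f z j * f w k ≠ f z k * f w j

/-- All nonconstant entire curves in the variety of `I`, with homogeneous coordinates satisfying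
linear differential equations with polynomial coefficients, have their image in the variety of
`I'`. -/
def PEntireCurvesIn (φ : R →+* ℂ) (I I' : Ideal (MvPolynomial (Fin (N + 1)) R)) : Prop :=
  ∀ f : ℂ → Fin (N + 1) → ℂ, (∀ j, Differentiable ℂ (fun z => f z j)) → (∀ z, f z ≠ 0) →
    (∀ j, PolODE (fun z => f z j)) → (∀ z, IsPtP φ I (f z)) → NonConstC f →
    ∀ z, IsPtP φ I' (f z)

theorem polODE_poly (p : Polynomial ℂ) : PolODE (fun z => p.eval z) := by
  classical
  refine ⟨p.natDegree + 1, fun k => if k = p.natDegree + 1 then 1 else 0,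
    ⟨p.natDegree + 1, le_refl _, by simp⟩, fun z => ?_⟩
  rw [Finset.sum_eq_single (p.natDegree + 1)]
  · have h1 : iteratedDeriv (p.natDegree + 1) (fun z => p.eval z) z = 0 := by
      have h2 : ∀ k, iteratedDeriv k (fun z => p.eval z) =
          fun z => (Polynomial.derivative^[k] p).eval z := by
        intro k
        induction k with
        | zero => rw [iteratedDeriv_zero]; rfl
        | succ k ih =>
          rw [iteratedDeriv_succ, ih]
          funext z
          rw [Polynomial.deriv, Function.iterate_succ_apply']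
      rw [h2, Polynomial.iterate_derivative_eq_zero (Nat.lt_succ_self _)]
      simp
    rw [h1, mul_zero]
  · intro b _ hb
    simp only [if_neg hb]
    rw [Polynomial.eval_zero, zero_mul]
  · intro h
    exact absurd (Finset.self_mem_range_succ _) h

theorem rat_of_pentire {φ : R →+* ℂ} {I I' : Ideal (MvPolynomial (Fin (N + 1)) R)}
    (h : PEntireCurvesIn φ I I') : RatCurvesIn φ I I' := by
  classical
  intro p hp hnc u0 G' hG' hGh
  -- remove the common zeros
  obtain ⟨j0, k0, u1, v1, hne⟩ := hnc
  obtain ⟨q, hq, hqg⟩ := Finset.extract_gcd (s := (Finset.univ : Finset (Fin (N + 1)))) p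
    ⟨0, Finset.mem_univ _⟩
  set g := Finset.univ.gcd p with hg
  have hpq : ∀ j, p j = g * q j := fun j => hq j (Finset.mem_univ j)
  have hg0 : g ≠ 0 := by
    intro h0
    apply hne
    rw [hpq j0, hpq k0, h0]
    simp
  have hne' : (q j0).eval u1 * (q k0).eval v1 ≠ (q k0).eval u1 * (q j0).eval v1 := by
    intro h0
    apply hne
    rw [hpq j0, hpq k0]
    simp only [Polynomial.eval_mul]
    linear_combination (g.eval u1 * g.eval v1) * h0
  have hz : ∀ z, (fun j => (q j).eval z) ≠ 0 := by
    intro z h0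
    have h1 : (Polynomial.X - Polynomial.C z) ∣ Finset.univ.gcd q := by
      refine Finset.dvd_gcd fun j _ => ?_
      rw [Polynomial.dvd_iff_isRoot]
      exact congrFun h0 j
    rw [hqg] at h1
    exact Polynomial.not_isUnit_X_sub_C z (isUnit_of_dvd_one h1)
  -- values
  have hval : ∀ G : MvPolynomial (Fin (N + 1)) R, (∃ d, G.IsHomogeneous d) →
      (eval₂ (Polynomial.C.comp φ) p G = 0 ↔ eval₂ (Polynomial.C.comp φ) q G = 0) := by
    rintro G ⟨d, hd⟩
    have h1 : p = fun j => g * q j := funext hpq
    rw [h1, eval₂_smul_homog _ g q hd]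
    constructor
    · intro h2
      exact (mul_eq_zero.1 h2).resolve_left (pow_ne_zero _ hg0)
    · intro h2
      rw [h2, mul_zero]
  have hzero : ∀ (r : Fin (N + 1) → Polynomial ℂ) (G : MvPolynomial (Fin (N + 1)) R),
      (eval₂ (Polynomial.C.comp φ) r G = 0 ↔ ∀ u, eval₂ φ (fun j => (r j).eval u) G = 0) := by
    intro r G
    constructor
    · intro h1 u
      rw [← eval₂_eval, h1, Polynomial.eval_zero]
    · intro h1
      apply Polynomial.funext
      intro u
      rw [eval₂_eval, h1, Polynomial.eval_zero]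
  have h1 := h (fun z j => (q j).eval z) (fun j => (q j).differentiable) hz
    (fun j => polODE_poly (q j)) (fun z G hG hGf => ?_) ⟨u1, v1, j0, k0, hne'⟩
  · rw [← eval₂_eval, (hval G' hGh).2, Polynomial.eval_zero]
    exact (hzero q G').2 fun u => h1 u G' hG' hGh
  · refine (hzero q G).1 ((hval G hGf).1 ((hzero p G).2 fun u => hp u G hG hGf)) z

open Set FF Pool.Agent.W602.GT Pool.Agent.W603.BP Pool.Agent.W603.BPR Pool.Agent.W603.GR
  Pool.Agent.W603.PV Pool.Agent.TH143.GT in
/-- **Entire curves.** -/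
theorem pentire_of_rat {φ : R →+* ℂ} {I I' : Ideal (MvPolynomial (Fin (N + 1)) R)}
    (h : RatCurvesIn φ I I') : PEntireCurvesIn φ I I' := by
  classical
  intro F hF hFne hFode hI hnc z1
  by_contra hz1
  unfold IsPtP at hz1
  push Not at hz1
  obtain ⟨G', hG', hGh', hne'⟩ := hz1
  have hlin := linSys_of_polODE F hF hFode
  have hFa : ∀ j, AnalyticOnNhd ℂ (fun w => F w j) univ := fun j z _ => (hF j).analyticAt z
  obtain ⟨j0, hj0⟩ := Function.ne_iff.1 (hFne 0)
  obtain ⟨K, i1, i2, w, y, h1, h2, h3, h4, h5⟩ := exists_closure F isPreconnected_univ hFa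
    (j0 := j0) ⟨0, mem_univ _, hj0⟩
  have hy : GenPt F univ K w y := ⟨h1, h2, h3, h4⟩
  obtain ⟨r, hr⟩ := fam_of_entire (Q := 1) hy hF hFne hlin (isHomogeneous_one _ _)
    (fun z => by rw [map_one]; exact one_ne_zero) hnc
  unfold AllFlat at hr
  push Not at hr
  obtain ⟨M, _, _, m, W, l, hm, hFam, hr⟩ := hr
  unfold Flat at hr
  push Not at hr
  obtain ⟨d, g1, g0, hg1, hg0, hn, -, hne⟩ := hr
  have hcur : ∀ G : MvPolynomial (Fin (N + 1)) R,
      eval₂ (Polynomial.C.comp ((algebraMap ℂ M).comp φ)) W G =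
        (aeval W (MvPolynomial.map φ G) : Polynomial M) := by
    intro G
    rw [aeval_def, eval₂_map]
    rfl
  have hform : ∀ G : MvPolynomial (Fin (N + 1)) R, (∃ d, G.IsHomogeneous d) →
      IsForm (MvPolynomial.map φ G) := fun G ⟨d, hd⟩ => ⟨d, hd.map φ⟩
  have hCur : RCur ((algebraMap ℂ M).comp φ) I I' W := by
    refine ⟨fun G hG hGf => ?_, ⟨G', hG', hGh', ?_⟩, ?_⟩
    · rw [hcur, ← hFam.rel _ (hform G hGf), h4 _ (hform G hGf)]
      intro z _
      rw [eval_map]
      exact hI z G hG hGf
    · rw [hcur, Ne, ← hFam.rel _ (hform G' hGh'), h4 _ (hform G' hGh')]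
      intro h6
      apply hne'
      have h7 := h6 z1 (mem_univ _)
      rwa [eval_map] at h7
    · by_contra hcon
      push Not at hcon
      -- all coordinates are multiples of one of them
      obtain ⟨k0, hk0⟩ : ∃ k, W k ≠ 0 := by
        by_contra hcon'
        push Not at hcon'
        obtain ⟨i0, hi0⟩ := Function.ne_iff.1 hy.ne
        exact (hFam.ne i0).1 hi0 (hcon' i0)
      obtain ⟨i0, hi0⟩ : ∃ i, (W k0).coeff i ≠ 0 := by
        by_contra hcon'
        push Not at hcon'
        exact hk0 (Polynomial.ext fun i => by rw [hcon' i, Polynomial.coeff_zero])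
      have h6 : W = fun j => W k0 * Polynomial.C ((W j).coeff i0 / (W k0).coeff i0) := by
        funext j
        ext i
        rw [Polynomial.coeff_mul_C, mul_div_assoc', eq_div_iff hi0]
        have := hcon j k0 i i0
        rw [this]
      have h7 : ∀ g : MvPolynomial (Fin (N + 1)) ℂ, g.IsHomogeneous d →
          (aeval W g : Polynomial M) = (W k0) ^ d *
            Polynomial.C (aeval (fun j => (W j).coeff i0 / (W k0).coeff i0) g) := by
        intro g hg
        rw [aeval_def]
        conv_lhs => rw [h6]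
        rw [eval₂_smul_homog _ _ _ hg]
        congr 1
        have h9 := MvPolynomial.comp_aeval_apply (f := fun j => (W j).coeff i0 / (W k0).coeff i0)
          (IsScalarTower.toAlgHom ℂ M (Polynomial M)) g
        exact h9.symm
      apply hne
      rw [h7 g1 hg1, h7 g0 hg0, Polynomial.derivative_mul, Polynomial.derivative_mul,
        Polynomial.derivative_C, Polynomial.derivative_C]
      ring
  obtain ⟨L, _, _, _, p', hp'⟩ := RCur.spec φ hCur
  let e : L →ₐ[ℂ] ℂ := IsAlgClosed.lift
  have h8 := hp'.map (e : L →+* ℂ)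
  have h9 : (e : L →+* ℂ).comp ((algebraMap ℂ L).comp φ) = φ := by
    ext r
    exact e.commutes (φ r)
  rw [h9] at h8
  exact ratCurvesIn_iff.1 h _ h8

/-- polynomial sequences are P-recursive -/
theorem PRec_poly {L : Type} [Field L] [CharZero L] (p : Polynomial L) (s : ℕ) :
    PRec fun m : ℕ => p.eval ((m + s : ℕ) : L) := by
  classical
  by_cases hp : p = 0
  · refine ⟨0, fun _ => 1, ⟨0, le_refl _, one_ne_zero⟩, fun m => ?_⟩
    rw [hp]
    simp
  · let q := p.comp (Polynomial.X + Polynomial.C (s : L))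
    have hq : ∀ m : ℕ, q.eval (m : L) = p.eval ((m + s : ℕ) : L) := by
      intro m
      simp [q]
    have hq0 : q ≠ 0 := by
      intro h0
      apply hp
      have h1 := Polynomial.comp_eq_zero_iff.1 h0
      rcases h1 with h1 | ⟨_, h1⟩
      · exact h1
      · exfalso
        have h2 := congrArg Polynomial.natDegree h1
        rw [Polynomial.natDegree_X_add_C, Polynomial.natDegree_C] at h2
        exact one_ne_zero h2
    refine ⟨1, fun k => if k = 0 then -q.comp (Polynomial.X + 1) else q, ⟨1, le_refl _, ?_⟩,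
      fun m => ?_⟩
    · simpa using hq0
    · rw [Finset.sum_range_succ, Finset.sum_range_one]
      simp only [if_pos, if_neg one_ne_zero]
      rw [hq, Polynomial.eval_neg, Polynomial.eval_comp, Polynomial.eval_add, Polynomial.eval_X,
        Polynomial.eval_one, Nat.add_zero]
      have h1 : ((m : L) + 1) = ((m + 1 : ℕ) : L) := by push_cast; ring
      rw [h1, hq]
      ring

/-- **The sequence** of points on a rational curve. -/
theorem exists_seq_rat {L : Type} [Field L] [CharZero L] (φ : R →+* L)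
    {I I' : Ideal (MvPolynomial (Fin (N + 1)) R)} {p : Fin (N + 1) → Polynomial L}
    (h : RCur φ I I' p) :
    ∃ x : ℕ → Fin (N + 1) → L, (∀ m, x m ≠ 0) ∧ (∀ m, IsPtP φ I (x m)) ∧
      (∀ m, ¬ IsPtP φ I' (x m)) ∧ (∀ j, PRec fun m => x m j) ∧
      ∀ v : Fin (N + 1) → L, v ≠ 0 → {m | ∀ i j, x m i * v j = x m j * v i}.Finite := by
  classical
  obtain ⟨h1, ⟨G', hG', hGh, hne⟩, hnc⟩ := h
  have hinj : ∀ s : ℕ, Function.Injective fun m : ℕ => ((m + s : ℕ) : L) := by
    intro s a b hab
    have := Nat.cast_injective hab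
    omega
  have hfin : ∀ (q : Polynomial L), q ≠ 0 → ∀ s : ℕ,
      {m : ℕ | q.eval ((m + s : ℕ) : L) = 0}.Finite := by
    intro q hq s
    have h2 : {z : L | q.IsRoot z}.Finite := Polynomial.finite_setOfPred_isRoot hq
    exact h2.preimage (hinj s).injOn
  have hnc' := (nc_iff p).1 hnc
  obtain ⟨j0, k0, u0, v0, huv⟩ := hnc'
  have hj0 : p j0 ≠ 0 ∨ p k0 ≠ 0 := by
    by_contra hcon
    push Not at hcon
    apply huv
    rw [hcon.1, hcon.2]
  obtain ⟨k1, hk1⟩ : ∃ k, p k ≠ 0 := by
    rcases hj0 with h2 | h2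
    · exact ⟨_, h2⟩
    · exact ⟨_, h2⟩
  obtain ⟨s, hs⟩ : ∃ s : ℕ, ∀ m, s ≤ m → (p k1).eval (m : L) ≠ 0 ∧
      (eval₂ (Polynomial.C.comp φ) p G').eval (m : L) ≠ 0 := by
    have h2 := (hfin _ hk1 0).compl_mem_cofinite
    have h3 := (hfin _ hne 0).compl_mem_cofinite
    rw [Nat.cofinite_eq_atTop] at h2 h3
    exact eventually_atTop.1 (Filter.Eventually.and h2 h3)
  refine ⟨fun m j => (p j).eval ((m + s : ℕ) : L), fun m h0 => ?_, fun m G hG hGf => ?_,
    fun m hcon => ?_, fun j => PRec_poly (p j) s, fun v hv => ?_⟩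
  · exact (hs (m + s) (by omega)).1 (congrFun h0 k1)
  · rw [← eval₂_eval, h1 G hG hGf, Polynomial.eval_zero]
  · apply (hs (m + s) (by omega)).2
    rw [eval₂_eval]
    exact hcon G' hG' hGh
  · -- a nonzero minor
    obtain ⟨i, j, hij⟩ : ∃ i j, p i * Polynomial.C (v j) - p j * Polynomial.C (v i) ≠ 0 := by
      by_contra hcon
      push Not at hcon
      obtain ⟨k, hk⟩ := Function.ne_iff.1 hv
      have hk' : v k ≠ 0 := hk
      apply huv
      have h2 : ∀ i u, (p i).eval u = (p k).eval u * (v i / v k) := by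
        intro i u
        have h3 := congrArg (Polynomial.eval u) (hcon i k)
        simp only [Polynomial.eval_sub, Polynomial.eval_mul, Polynomial.eval_C,
          Polynomial.eval_zero] at h3
        rw [mul_div_assoc', eq_div_iff hk']
        linear_combination h3
      rw [h2 j0 u0, h2 k0 v0, h2 k0 u0, h2 j0 v0]
      ring
    refine (hfin _ hij s).subset fun m hm => ?_
    have h3 := hm i j
    change Polynomial.eval _ _ = 0
    rw [Polynomial.eval_sub, Polynomial.eval_mul, Polynomial.eval_mul, Polynomial.eval_C,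
      Polynomial.eval_C, sub_eq_zero]
    exact h3

end Pool.Agent.TH143.HE
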