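import Mathlib

/-!
Values of polynomials over number fields at the integers of an arithmetic progression.
-/

set_option autoImplicit false

namespace Pool.Agent.TH143.HE

open Filter IsDedekindDomain NumberField

variable {F : Type} [Field F] [NumberField F]

theorem norm_val (P : Polynomial (𝓞 F)) (m : ℕ) :
    ((|(Algebra.norm ℚ ((P.eval (m : 𝓞 F) : 𝓞 F) : F) : ℚ)| : ℚ) : ℝ) =
      ∏ σ : F →ₐ[ℚ] ℂ, ‖(P.map ((σ : F →+* ℂ).comp (algebraMap (𝓞 F) F))).eval (m : ℂ)‖ := by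
  have h1 := Algebra.norm_eq_prod_embeddings ℚ ℂ ((P.eval (m : 𝓞 F) : 𝓞 F) : F)
  have h2 := congrArg norm h1
  rw [norm_prod] at h2
  have h3 : ‖algebraMap ℚ ℂ (Algebra.norm ℚ ((P.eval (m : 𝓞 F) : 𝓞 F) : F))‖ =
      ((|(Algebra.norm ℚ ((P.eval (m : 𝓞 F) : 𝓞 F) : F) : ℚ)| : ℚ) : ℝ) := by
    rw [eq_ratCast, Complex.norm_ratCast, Rat.cast_abs]
  rw [h3] at h2
  rw [h2]
  refine Finset.prod_congr rfl fun σ _ => ?_
  congr 1
  have h4 := Polynomial.hom_eval₂ P (RingHom.id _) ((σ : F →+* ℂ).comp (algebraMap (𝓞 F) F))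
    (m : 𝓞 F)
  rw [Polynomial.eval_map]
  rw [map_natCast, RingHom.comp_id] at h4
  rw [← h4]
  rfl

/-- prime divisors of the values outside of a finite set of primes -/
theorem exists_prime_dvd (P : Polynomial (𝓞 F)) (hP : 0 < P.natDegree)
    (T : Set (HeightOneSpectrum (𝓞 F))) (hT : T.Finite) (a k : ℕ) (hk : 0 < k) (m1 : ℕ) :
    ∃ m, m1 ≤ m ∧ m % k = a % k ∧ ∃ v : HeightOneSpectrum (𝓞 F), v ∉ T ∧
      P.eval (m : 𝓞 F) ∈ v.asIdeal := by
  classical
  by_contra hcon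
  push Not at hcon
  -- a base point
  obtain ⟨j, hj, hPj⟩ : ∃ j, m1 ≤ j ∧ P.eval ((a + k * j : ℕ) : 𝓞 F) ≠ 0 := by
    by_contra hcon'
    push Not at hcon'
    have hP0 : P ≠ 0 := by
      intro h
      rw [h, Polynomial.natDegree_zero] at hP
      exact lt_irrefl _ hP
    apply hP0
    apply Polynomial.eq_zero_of_infinite_isRoot
    refine Set.Infinite.mono (s := (fun j : ℕ => ((a + k * j : ℕ) : 𝓞 F)) '' Set.Ici m1) ?_ ?_
    · rintro _ ⟨j, hj, rfl⟩
      exact hcon' j hj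
    · refine (Set.Ici_infinite m1).image ?_
      intro x _ y _ hxy
      have h1 : (a + k * x : ℕ) = a + k * y := Nat.cast_injective hxy
      exact Nat.eq_of_mul_eq_mul_left hk (by omega)
  set m0 := a + k * j with hm0
  set c := P.eval (m0 : 𝓞 F) with hc
  -- an integer in all the primes of `T`
  let I : Ideal (𝓞 F) := ∏ v ∈ hT.toFinset, v.asIdeal
  have hI : I ≠ ⊥ := Finset.prod_ne_zero_iff.2 fun v _ => v.ne_bot
  set M := Ideal.absNorm I with hM
  have hM0 : M ≠ 0 := by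
    rw [hM, Ne, Ideal.absNorm_eq_zero_iff]
    exact hI
  have hMT : ∀ v ∈ T, (M : 𝓞 F) ∈ v.asIdeal := by
    intro v hv
    have h1 : I ≤ v.asIdeal := Ideal.prod_le_inf.trans
      (Finset.inf_le (f := fun v : HeightOneSpectrum (𝓞 F) => v.asIdeal) (hT.mem_toFinset.2 hv))
    exact h1 (Ideal.absNorm_mem I)
  set M' := Ideal.absNorm (Ideal.span {c}) with hM'
  have hM'0 : M' ≠ 0 := by
    rw [hM', Ne, Ideal.absNorm_eq_zero_iff, Ideal.span_singleton_eq_bot]
    exact hPj
  obtain ⟨c', hc'⟩ : c ∣ (M' : 𝓞 F) := Ideal.mem_span_singleton.1 (Ideal.absNorm_mem _)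
  set A := M * M' * k with hA
  have hA0 : 0 < A := by positivity
  -- the quotients are units
  have key : ∀ t : ℕ, ∃ u : 𝓞 F, IsUnit u ∧ P.eval ((m0 + A * t : ℕ) : 𝓞 F) = c * u := by
    intro t
    obtain ⟨w, hw⟩ := Polynomial.sub_dvd_eval_sub ((m0 + A * t : ℕ) : 𝓞 F) (m0 : 𝓞 F) P
    have h1 : P.eval ((m0 + A * t : ℕ) : 𝓞 F) = c * (1 + M * (c' * k * t * w)) := by
      have h2 : ((m0 + A * t : ℕ) : 𝓞 F) - m0 = c * (M * (c' * k * t)) := by
        rw [hA]
        push_cast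
        rw [hc']
        ring
      rw [h2] at hw
      linear_combination hw
    refine ⟨_, ?_, h1⟩
    by_contra hu
    obtain ⟨J, hJ, huJ⟩ := exists_max_ideal_of_mem_nonunits hu
    by_cases hJ0 : J = ⊥
    · rw [hJ0] at hJ
      exact RingOfIntegers.not_isField F (Ring.isField_iff_maximal_bot.2 hJ)
    · let v : HeightOneSpectrum (𝓞 F) := ⟨J, hJ.isPrime, hJ0⟩
      have hv : (1 + M * (c' * k * t * w) : 𝓞 F) ∈ v.asIdeal := huJ
      by_cases hvT : v ∈ T
      · have h3 : (1 : 𝓞 F) ∈ v.asIdeal := by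
          have h4 := v.asIdeal.mul_mem_right (c' * k * t * w) (hMT v hvT)
          have h5 := v.asIdeal.sub_mem hv h4
          rwa [add_sub_cancel_right] at h5
        exact v.isPrime.ne_top ((Ideal.eq_top_iff_one _).2 h3)
      · refine hcon (m0 + A * t) ?_ ?_ v hvT ?_
        · have : j ≤ k * j := Nat.le_mul_of_pos_left _ hk
          omega
        · rw [hm0, hA]
          have h4 : a + k * j + M * M' * k * t = a + k * (j + M * M' * t) := by ring
          rw [h4, Nat.add_mul_mod_self_left]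
        · rw [h1]
          exact v.asIdeal.mul_mem_left _ hv
  -- all values have the same norm
  have hnorm : ∀ t : ℕ, ∏ σ : F →ₐ[ℚ] ℂ, ‖(P.map ((σ : F →+* ℂ).comp
      (algebraMap (𝓞 F) F))).eval ((m0 + A * t : ℕ) : ℂ)‖ =
        ((|(Algebra.norm ℚ (c : F) : ℚ)| : ℚ) : ℝ) := by
    intro t
    obtain ⟨u, hu, hut⟩ := key t
    rw [← norm_val, hut]
    rw [NumberField.isUnit_iff_norm] at hu
    have h1 : (((c * u : 𝓞 F)) : F) = (c : F) * (u : F) := map_mul _ _ _
    rw [h1, map_mul, abs_mul]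
    have h2 : |(Algebra.norm ℚ (u : F) : ℚ)| = 1 := hu
    rw [h2, mul_one]
  -- the norms are unbounded
  have htend : ∀ σ : F →ₐ[ℚ] ℂ, Tendsto (fun t : ℕ => ‖(P.map ((σ : F →+* ℂ).comp
      (algebraMap (𝓞 F) F))).eval ((m0 + A * t : ℕ) : ℂ)‖) atTop atTop := by
    intro σ
    apply Polynomial.tendsto_norm_atTop
    · have hinj : Function.Injective ((σ : F →+* ℂ).comp (algebraMap (𝓞 F) F)) :=
        (σ : F →+* ℂ).injective.comp (IsFractionRing.injective (𝓞 F) F)
      rw [Polynomial.degree_map_eq_of_injective hinj]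
      exact Polynomial.natDegree_pos_iff_degree_pos.1 hP
    · have h1 : (fun t : ℕ => ‖((m0 + A * t : ℕ) : ℂ)‖) = fun t : ℕ => ((m0 + A * t : ℕ) : ℝ) := by
        funext t
        rw [Complex.norm_natCast]
      rw [h1]
      refine tendsto_natCast_atTop_atTop.comp ?_
      refine tendsto_atTop_mono (fun t => ?_) tendsto_id
      have : t ≤ A * t := Nat.le_mul_of_pos_left _ hA0
      simp only [id]
      omega
  obtain ⟨σ0⟩ : Nonempty (F →ₐ[ℚ] ℂ) := ⟨IsAlgClosed.lift⟩
  have h1 : ∀ᶠ t : ℕ in atTop, ∀ σ : F →ₐ[ℚ] ℂ, 1 ≤ ‖(P.map ((σ : F →+* ℂ).comp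
      (algebraMap (𝓞 F) F))).eval ((m0 + A * t : ℕ) : ℂ)‖ :=
    eventually_all.2 fun σ => (htend σ).eventually_ge_atTop 1
  obtain ⟨t, h2, h3⟩ := (h1.and ((htend σ0).eventually_gt_atTop
    ((|(Algebra.norm ℚ (c : F) : ℚ)| : ℚ) : ℝ))).exists
  have h4 := hnorm t
  rw [← Finset.mul_prod_erase _ _ (Finset.mem_univ σ0)] at h4
  have h5 : (1 : ℝ) ≤ ∏ σ ∈ Finset.univ.erase σ0, ‖(P.map ((σ : F →+* ℂ).comp
      (algebraMap (𝓞 F) F))).eval ((m0 + A * t : ℕ) : ℂ)‖ := by
    calc (1 : ℝ) = ∏ σ ∈ (Finset.univ.erase σ0 : Finset (F →ₐ[ℚ] ℂ)), 1 := by simp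
      _ ≤ _ := Finset.prod_le_prod (fun _ _ => zero_le_one) fun σ _ => h2 σ
  have h6 : ((|(Algebra.norm ℚ (c : F) : ℚ)| : ℚ) : ℝ) <
      ((|(Algebra.norm ℚ (c : F) : ℚ)| : ℚ) : ℝ) := by
    calc ((|(Algebra.norm ℚ (c : F) : ℚ)| : ℚ) : ℝ) <
        ‖(P.map ((σ0 : F →+* ℂ).comp (algebraMap (𝓞 F) F))).eval ((m0 + A * t : ℕ) : ℂ)‖ := h3
      _ ≤ ‖(P.map ((σ0 : F →+* ℂ).comp (algebraMap (𝓞 F) F))).eval ((m0 + A * t : ℕ) : ℂ)‖ *
          ∏ σ ∈ Finset.univ.erase σ0, ‖(P.map ((σ : F →+* ℂ).comp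
            (algebraMap (𝓞 F) F))).eval ((m0 + A * t : ℕ) : ℂ)‖ :=
          le_mul_of_one_le_right (norm_nonneg _) h5
      _ = _ := h4
  exact lt_irrefl _ h6


/-- **Rational functions with integral values are polynomials.** -/
theorem poly_of_int (e : F →+* ℂ) {S : Set (HeightOneSpectrum (𝓞 F))} (hS : S.Finite) {y : ℕ → F}
    (hy : ∀ᶠ m in atTop, y m ∈ S.integer F) {p q : Polynomial ℂ} (hp : p ≠ 0) {a k : ℕ}
    (hk : 0 < k)
    (h : ∀ᶠ m : ℕ in atTop, m % k = a % k → p.eval (m : ℂ) * e (y m) = q.eval (m : ℂ)) :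
    ∃ r : Polynomial ℂ, ∀ᶠ m : ℕ in atTop, m % k = a % k → e (y m) = r.eval (m : ℂ) := by
  classical
  let _ : Algebra F ℂ := e.toAlgebra
  have hsm : ∀ (c : F) (z : ℂ), c • z = e c * z := fun c z => Algebra.smul_def c z
  -- coefficients in `F`
  obtain ⟨i0, hi0⟩ : ∃ i, p.coeff i ≠ 0 := by
    by_contra hcon
    push Not at hcon
    exact hp (Polynomial.ext fun i => by rw [hcon i, Polynomial.coeff_zero])
  obtain ⟨lam, hlam⟩ : ∃ lam : Module.Dual F ℂ, lam (p.coeff i0) ≠ 0 := by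
    by_contra hcon
    push Not at hcon
    exact hi0 ((Module.forall_dual_apply_eq_zero_iff F _).1 hcon)
  let tr : Polynomial ℂ → Polynomial F := fun f =>
    ∑ i ∈ Finset.range (f.natDegree + 1), Polynomial.C (lam (f.coeff i)) * Polynomial.X ^ i
  have htr : ∀ (f : Polynomial ℂ) (m : ℕ), (tr f).eval (m : F) = lam (f.eval (m : ℂ)) := by
    intro f m
    simp only [tr]
    rw [Polynomial.eval_finsetSum, Polynomial.eval_eq_sum_range, map_sum]
    refine Finset.sum_congr rfl fun i _ => ?_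
    rw [Polynomial.eval_mul, Polynomial.eval_C, Polynomial.eval_pow, Polynomial.eval_X]
    have h1 : f.coeff i * (m : ℂ) ^ i = ((m : F) ^ i) • f.coeff i := by
      rw [hsm, map_pow, map_natCast, mul_comm]
    rw [h1, map_smul, smul_eq_mul, mul_comm]
  have hp' : tr p ≠ 0 := by
    intro h0
    apply hlam
    have h1 : (tr p).coeff i0 = lam (p.coeff i0) := by
      simp only [tr, Polynomial.finsetSum_coeff, Polynomial.coeff_C_mul_X_pow]
      rw [Finset.sum_eq_single i0]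
      · rw [if_pos rfl]
      · intro k _ hk
        rw [if_neg (Ne.symm hk)]
      · intro h2
        rw [if_pos rfl]
        have h3 : p.coeff i0 = 0 := Polynomial.coeff_eq_zero_of_natDegree_lt (by
          rw [Finset.mem_range] at h2
          omega)
        exact absurd h3 hi0
    rw [← h1, h0, Polynomial.coeff_zero]
  have hpq : ∀ᶠ m : ℕ in atTop, m % k = a % k →
      (tr p).eval (m : F) * y m = (tr q).eval (m : F) := by
    filter_upwards [h] with m hm hmk
    rw [htr, htr, ← hm hmk]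
    have h1 : p.eval (m : ℂ) * e (y m) = (y m) • p.eval (m : ℂ) := by rw [hsm, mul_comm]
    rw [h1, map_smul, smul_eq_mul, mul_comm]
  -- lowest terms
  obtain ⟨p1, hp1⟩ := gcd_dvd_left (tr p) (tr q)
  obtain ⟨q1, hq1⟩ := gcd_dvd_right (tr p) (tr q)
  set g := gcd (tr p) (tr q) with hg
  have hg0 : g ≠ 0 := by
    intro h0
    rw [h0, zero_mul] at hp1
    exact hp' hp1
  obtain ⟨u, v, huv⟩ : ∃ u v, p1 * u + q1 * v = 1 := by
    obtain ⟨u, v, h1⟩ := exists_gcd_eq_mul_add_mul (tr p) (tr q)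
    refine ⟨u, v, ?_⟩
    apply mul_left_cancel₀ hg0
    rw [← hg, hp1, hq1] at h1
    linear_combination -h1
  have hp10 : p1 ≠ 0 := by
    intro h0
    rw [h0, mul_zero] at hp1
    exact hp' hp1
  have hgm : ∀ᶠ m : ℕ in atTop, g.eval (m : F) ≠ 0 := by
    have h1 : {z : F | g.eval z = 0}.Finite := by
      refine (g.rootSet_finite F).subset fun z hz => ?_
      rw [Polynomial.mem_rootSet]
      refine ⟨hg0, ?_⟩
      rw [Polynomial.aeval_def, Polynomial.eval₂_eq_eval_map, Algebra.algebraMap_self,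
        Polynomial.map_id]
      exact hz
    have h2 := h1.preimage (Nat.cast_injective.injOn (s := (fun m : ℕ => (m : F)) ⁻¹'
      {z : F | g.eval z = 0}))
    have h3 := h2.compl_mem_cofinite
    rw [Nat.cofinite_eq_atTop] at h3
    exact h3
  have hpq1 : ∀ᶠ m : ℕ in atTop, m % k = a % k → p1.eval (m : F) * y m = q1.eval (m : F) := by
    filter_upwards [hpq, hgm] with m hm h1 hmk
    have h2 := hm hmk
    rw [hp1, hq1, Polynomial.eval_mul, Polynomial.eval_mul, mul_assoc] at h2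
    exact mul_left_cancel₀ h1 h2
  rcases Nat.eq_zero_or_pos p1.natDegree with hdeg | hdeg
  · -- constant denominator
    obtain ⟨c, hc⟩ := Polynomial.natDegree_eq_zero.1 hdeg
    have hc0 : c ≠ 0 := by
      intro h0
      rw [h0, map_zero] at hc
      exact hp10 hc.symm
    refine ⟨(Polynomial.C c⁻¹ * q1).map e, ?_⟩
    filter_upwards [hpq1] with m hm hmk
    have h1 := hm hmk
    rw [← hc, Polynomial.eval_C] at h1
    have h2 : y m = (Polynomial.C c⁻¹ * q1).eval (m : F) := by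
      rw [Polynomial.eval_mul, Polynomial.eval_C, ← h1, inv_mul_cancel_left₀ hc0]
    rw [h2, Polynomial.eval_map]
    have h3 := Polynomial.hom_eval₂ (Polynomial.C c⁻¹ * q1) (RingHom.id _) e (m : F)
    rw [map_natCast, RingHom.comp_id] at h3
    exact h3
  · exfalso
    -- integral coefficients
    let cs : Finset F := (p1.coeffs ∪ q1.coeffs) ∪ (u.coeffs ∪ v.coeffs)
    obtain ⟨b, hb⟩ := IsLocalization.exist_integer_multiples_of_finset
      (nonZeroDivisors (𝓞 F)) cs
    have hb0 : (b : 𝓞 F) ≠ 0 := nonZeroDivisors.ne_zero b.2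
    have hlift : ∀ f : Polynomial F, f.coeffs ⊆ cs → ∃ f' : Polynomial (𝓞 F),
        f'.map (algebraMap (𝓞 F) F) = Polynomial.C (algebraMap (𝓞 F) F b) * f := by
      intro f hf
      have h1 : Polynomial.C (algebraMap (𝓞 F) F b) * f ∈
          Polynomial.lifts (algebraMap (𝓞 F) F) := by
        rw [Polynomial.lifts_iff_coeff_lifts]
        intro n
        rw [Polynomial.coeff_C_mul]
        by_cases hn : f.coeff n = 0
        · exact ⟨0, by rw [hn, mul_zero, map_zero]⟩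
        · obtain ⟨z, hz⟩ := hb _ (hf (Polynomial.coeff_mem_coeffs hn))
          exact ⟨z, by rw [hz, Algebra.smul_def]⟩
      obtain ⟨f', hf'⟩ := (Polynomial.mem_lifts _).1 h1
      exact ⟨f', hf'⟩
    obtain ⟨P, hP⟩ := hlift p1 (fun x hx => by simp [cs, hx])
    obtain ⟨Q, hQ⟩ := hlift q1 (fun x hx => by simp [cs, hx])
    obtain ⟨U, hU⟩ := hlift u (fun x hx => by simp [cs, hx])
    obtain ⟨V, hV⟩ := hlift v (fun x hx => by simp [cs, hx])
    set β : F := algebraMap (𝓞 F) F b with hβ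
    have hβ0 : β ≠ 0 := by
      rw [hβ, Ne, map_eq_zero_iff _ (IsFractionRing.injective (𝓞 F) F)]
      exact hb0
    have hev : ∀ (f : Polynomial F) (f' : Polynomial (𝓞 F)),
        f'.map (algebraMap (𝓞 F) F) = Polynomial.C β * f → ∀ m : ℕ,
        algebraMap (𝓞 F) F (f'.eval (m : 𝓞 F)) = β * f.eval (m : F) := by
      intro f f' hf m
      have h1 := congrArg (Polynomial.eval (m : F)) hf
      rw [Polynomial.eval_map, Polynomial.eval_mul, Polynomial.eval_C] at h1
      rw [← h1]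
      have h3 := Polynomial.hom_eval₂ f' (RingHom.id _) (algebraMap (𝓞 F) F) (m : 𝓞 F)
      rw [map_natCast, RingHom.comp_id] at h3
      exact h3
    have hPdeg : 0 < P.natDegree := by
      have h1 := congrArg Polynomial.natDegree hP
      rw [Polynomial.natDegree_map_eq_of_injective (IsFractionRing.injective (𝓞 F) F),
        Polynomial.natDegree_C_mul hβ0] at h1
      omega
    have hTfin : (S ∪ {v : HeightOneSpectrum (𝓞 F) | (b : 𝓞 F) ∈ v.asIdeal}).Finite := by
      apply hS.union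
      have h1 : (Ideal.span {(b : 𝓞 F)}) ≠ 0 := by
        rw [Ne, Ideal.zero_eq_bot, Ideal.span_singleton_eq_bot]
        exact hb0
      refine (Ideal.finite_factors h1).subset fun w hw => ?_
      rw [Set.mem_ofPred_eq, Ideal.dvd_span_singleton]
      exact hw
    obtain ⟨m0, hm0⟩ := eventually_atTop.1 (hpq1.and hy)
    obtain ⟨m, hm, hmk, w, hw, hwP⟩ := exists_prime_dvd P hPdeg _ hTfin a k hk m0
    obtain ⟨h1, h2⟩ := hm0 m hm
    have h3 := h1 hmk
    have hwS : w ∉ S := fun h => hw (Or.inl h)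
    have hwb : (b : 𝓞 F) ∉ w.asIdeal := fun h => hw (Or.inr h)
    have h4 : β * β = algebraMap (𝓞 F) F (P.eval (m : 𝓞 F)) *
        (algebraMap (𝓞 F) F (U.eval (m : 𝓞 F)) + algebraMap (𝓞 F) F (V.eval (m : 𝓞 F)) * y m) := by
      rw [hev p1 P hP, hev u U hU, hev v V hV]
      have h5 := congrArg (Polynomial.eval (m : F)) huv
      rw [Polynomial.eval_add, Polynomial.eval_mul, Polynomial.eval_mul, Polynomial.eval_one] at h5
      rw [← h3] at h5
      linear_combination (-β ^ 2) * h5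
    have h5 : w.valuation F β = 1 := by
      rw [hβ]
      exact (HeightOneSpectrum.valuation_eq_one_iff_notMem (K := F) w).2 hwb
    have h6 : w.valuation F (algebraMap (𝓞 F) F (P.eval (m : 𝓞 F))) < 1 :=
      (HeightOneSpectrum.valuation_lt_one_iff_mem (K := F) w _).2 hwP
    have h7 : w.valuation F (algebraMap (𝓞 F) F (U.eval (m : 𝓞 F)) +
        algebraMap (𝓞 F) F (V.eval (m : 𝓞 F)) * y m) ≤ 1 := by
      refine (Valuation.map_add _ _ _).trans (max_le (w.valuation_le_one _) ?_)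
      rw [map_mul]
      exact mul_le_one' (w.valuation_le_one _) (h2 w hwS)
    have h8 := congrArg (w.valuation F) h4
    rw [map_mul, map_mul, h5, one_mul] at h8
    have h9 : w.valuation F (algebraMap (𝓞 F) F (P.eval (m : 𝓞 F))) *
        w.valuation F (algebraMap (𝓞 F) F (U.eval (m : 𝓞 F)) +
          algebraMap (𝓞 F) F (V.eval (m : 𝓞 F)) * y m) < 1 :=
      mul_lt_one_of_lt_of_le h6 h7
    rw [← h8] at h9
    exact lt_irrefl _ h9

end Pool.Agent.TH143.HE
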