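import Pool.Agent.TH143.HE.Germ
import Pool.Agent.TH143.HE.Num

/-!
P-recursive sequences of `S`-integral points.
-/

set_option autoImplicit false

namespace Pool.Agent.TH143.HE

open MvPolynomial Filter Pool.Agent.TH143.DE IsDedekindDomain NumberField

/-- The point `x` with coordinates in `A` is a zero of all polynomials of the ideal `I`. -/
def IsPt {n : ℕ} {R A : Type} [CommRing R] [CommRing A] (φ : R →+* A)
    (I : Ideal (MvPolynomial (Fin n) R)) (x : Fin n → A) : Prop :=
  ∀ G ∈ I, eval₂ φ x G = 0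

/-- The sequence satisfies a nontrivial linear recurrence whose coefficients are polynomials in the
index. -/
def PRec {F : Type} [Field F] (f : ℕ → F) : Prop :=
  ∃ (r : ℕ) (a : ℕ → Polynomial F), (∃ k ≤ r, a k ≠ 0) ∧
    ∀ m : ℕ, ∑ k ∈ Finset.range (r + 1), (a k).eval (m : F) * f (m + k) = 0

theorem PRec.map {F E : Type} [Field F] [Field E] (e : F →+* E) {f : ℕ → F} (h : PRec f) :
    PRec fun m => e (f m) := by
  obtain ⟨r, a, ⟨k, hk, hk0⟩, h⟩ := h
  refine ⟨r, fun k => (a k).map e, ⟨k, hk, ?_⟩, fun m => ?_⟩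
  · rwa [Ne, Polynomial.map_eq_zero]
  · have h1 := congrArg e (h m)
    rw [map_sum, map_zero] at h1
    rw [← h1]
    refine Finset.sum_congr rfl fun k _ => ?_
    rw [map_mul, Polynomial.eval_map]
    congr 1
    have h3 := Polynomial.hom_eval₂ (a k) (RingHom.id _) e (m : F)
    rw [map_natCast, RingHom.comp_id] at h3
    exact h3.symm

theorem PRec.linRec {f : ℕ → ℂ} (h : PRec f) : LinRec RB f :=
  RecAlong.linRec Nat.cast_injective h

theorem LinRec.shift {B : Subalgebra ℂ (ℕ → ℂ)} (hB : CoefField B) {f : ℕ → ℂ} (h : LinRec B f)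
    (s : ℕ) : LinRec B fun m => f (m + s) := by
  obtain ⟨r, a, ha, ⟨k, hk, hk0⟩, h⟩ := h
  refine ⟨r, fun k m => a k (m + s), fun k => hB.toCoefRing.shift' (ha k) s,
    ⟨k, hk, fun h0 => hk0 ?_⟩, ?_⟩
  · obtain ⟨m0, hm0⟩ := eventually_atTop.1 h0
    refine eventually_atTop.2 ⟨m0 + s, fun m hm => ?_⟩
    have := hm0 (m - s) (by omega)
    simp only at this
    rwa [Nat.sub_add_cancel (by omega)] at this
  · filter_upwards [eventually_shift h s] with m hm
    rw [← hm]
    refine Finset.sum_congr rfl fun k _ => ?_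
    congr 2
    ring

/-- the ideal of the complex variety -/
noncomputable def extI {n : ℕ} {R : Type} [CommRing R] (φ : R →+* ℂ)
    (I : Ideal (MvPolynomial (Fin n) R)) : Ideal (MvPolynomial (Fin n) ℂ) :=
  I.map (MvPolynomial.map φ)

theorem isPt_iff {n : ℕ} {R : Type} [CommRing R] (φ : R →+* ℂ)
    (I : Ideal (MvPolynomial (Fin n) R)) (x : Fin n → ℂ) :
    IsPt φ I x ↔ ∀ G ∈ extI φ I, eval x G = 0 := by
  constructor
  · intro h
    have h1 : extI φ I ≤ RingHom.ker (eval x) := by
      unfold extI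
      rw [Ideal.map_le_iff_le_comap]
      intro G hG
      rw [Ideal.mem_comap, RingHom.mem_ker, eval_map]
      exact h G hG
    exact fun G hG => h1 hG
  · intro h G hG
    have h1 := h _ (Ideal.mem_map_of_mem (MvPolynomial.map φ) hG)
    rwa [eval_map] at h1

theorem isPt_map {n : ℕ} {R A A' : Type} [CommRing R] [CommRing A] [CommRing A'] (φ : R →+* A)
    (e : A →+* A') (he : Function.Injective e) (I : Ideal (MvPolynomial (Fin n) R))
    (x : Fin n → A) : IsPt (e.comp φ) I (fun j => e (x j)) ↔ IsPt φ I x := by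
  unfold IsPt
  have h1 : ∀ G : MvPolynomial (Fin n) R, eval₂ (e.comp φ) (fun j => e (x j)) G =
      e (eval₂ φ x G) := by
    intro G
    exact (eval₂_comp_left e φ x G).symm
  simp only [h1, map_eq_zero_iff e he]

theorem eval_aeval {n : ℕ} (ρ : Fin n → Polynomial ℂ) (G : MvPolynomial (Fin n) ℂ) (u : ℂ) :
    (aeval ρ G : Polynomial ℂ).eval u = eval (fun j => (ρ j).eval u) G := by
  have h1 := MvPolynomial.comp_aeval_apply (f := ρ)
    (Polynomial.aeval u : Polynomial ℂ →ₐ[ℂ] ℂ) G
  rw [MvPolynomial.aeval_eq_eval] at h1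
  simp only [Polynomial.coe_aeval_eq_eval] at h1
  exact h1

/-- **The sequences are eventually periodic.** -/
theorem periodic {F : Type} [Field F] [NumberField F] (e : F →+* ℂ)
    {S : Set (HeightOneSpectrum (𝓞 F))} (hS : S.Finite) {n : ℕ}
    {J J' : Ideal (MvPolynomial (Fin n) ℂ)} (hG : GmIn J J') {x : ℕ → Fin n → F}
    (hxS : ∀ m j, x m j ∈ S.integer F) (hx : ∀ j, PRec fun m => x m j)
    (hJ : ∀ m, ∀ G ∈ J, eval (fun j => e (x m j)) G = 0)
    (hJ' : ∀ m, ∃ G ∈ J', eval (fun j => e (x m j)) G ≠ 0) :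
    ∃ k m0 : ℕ, 0 < k ∧ ∀ m, m0 ≤ m → x (m + k) = x m := by
  classical
  have hlin : ∀ j, LinRec RB fun m => e (x m j) := fun j => ((hx j).map e).linRec
  obtain ⟨s, hs⟩ := alg_coord (x := fun m j => e (x m j)) hlin
    (fun G hG => Eventually.of_forall fun m => hJ m G hG) (Eventually.of_forall hJ') hG
  have hpoly : ∀ j, ∃ (k : ℕ) (r : ℕ → Polynomial ℂ), 0 < k ∧
      ∀ᶠ m : ℕ in atTop, e (x (m + s) j) = (r (m % k)).eval (m : ℂ) := by
    intro j
    obtain ⟨P, hP, hP0⟩ := hs j
    obtain ⟨p, k, q, hp, hk, hpq⟩ := quasi_rational (LinRec.shift RB_field (hlin j) s) hP hP0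
    have h1 : ∀ a, ∃ r : Polynomial ℂ, ∀ᶠ m : ℕ in atTop, m % k = a % k →
        e (x (m + s) j) = r.eval (m : ℂ) := by
      intro a
      refine poly_of_int e hS (y := fun m => x (m + s) j)
        (Eventually.of_forall fun m => hxS (m + s) j) hp (q := q (a % k)) hk ?_
      filter_upwards [hpq] with m hm hmk
      rw [hm, hmk]
    choose r hr using h1
    refine ⟨k, r, hk, ?_⟩
    have h2 : ∀ᶠ m : ℕ in atTop, ∀ a ∈ Finset.range k, m % k = a % k →
        e (x (m + s) j) = (r a).eval (m : ℂ) := by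
      rw [Finset.eventually_all]
      intro a _
      exact hr a
    filter_upwards [h2] with m hm
    exact hm (m % k) (Finset.mem_range.2 (Nat.mod_lt _ hk)) (Nat.mod_mod _ _).symm
  choose k r hk hr using hpoly
  set K := ∏ j, k j with hK
  have hKpos : 0 < K := Finset.prod_pos fun j _ => hk j
  let ρ : ℕ → Fin n → Polynomial ℂ := fun a j => r j (a % k j)
  have hρ : ∀ᶠ m : ℕ in atTop, ∀ j, e (x (m + s) j) = (ρ (m % K) j).eval (m : ℂ) := by
    refine eventually_all.2 fun j => ?_
    filter_upwards [hr j] with m hm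
    rw [hm]
    simp only [ρ]
    rw [Nat.mod_mod_of_dvd _ (Finset.dvd_prod_of_mem k (Finset.mem_univ j))]
  obtain ⟨m1, hm1⟩ := eventually_atTop.1 hρ
  have hgm : ∀ (a : ℕ) (u : ℂ), gm 0 (ρ a) u = fun j => (ρ a j).eval u := by
    intro a u
    funext j
    unfold gm
    rw [pow_zero, div_one]
  -- the curves are constant
  have hconst : ∀ a, a < K → ∀ u, u ≠ 0 → gm 0 (ρ a) u = gm 0 (ρ a) 1 := by
    intro a ha
    by_contra hcon
    push Not at hcon
    have hidx : ∀ t : ℕ, m1 ≤ a + K * (m1 + t) ∧ (a + K * (m1 + t)) % K = a := by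
      intro t
      refine ⟨?_, by rw [Nat.add_mul_mod_self_left, Nat.mod_eq_of_lt ha]⟩
      have : m1 + t ≤ K * (m1 + t) := Nat.le_mul_of_pos_left _ hKpos
      omega
    have hval : ∀ t : ℕ, gm 0 (ρ a) ((a + K * (m1 + t) : ℕ) : ℂ) =
        fun j => e (x (a + K * (m1 + t) + s) j) := by
      intro t
      rw [hgm]
      funext j
      rw [hm1 _ (hidx t).1 j, (hidx t).2]
    have hcurve : ∀ u, u ≠ 0 → ∀ G ∈ J, eval (gm 0 (ρ a) u) G = 0 := by
      intro u _ G hGJ
      have h1 : (aeval (ρ a) G : Polynomial ℂ) = 0 := by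
        apply Polynomial.eq_zero_of_infinite_isRoot
        refine Set.Infinite.mono (s := (fun t : ℕ => ((a + K * (m1 + t) : ℕ) : ℂ)) '' Set.univ)
          ?_ ?_
        · rintro _ ⟨t, -, rfl⟩
          change Polynomial.eval ((a + K * (m1 + t) : ℕ) : ℂ) (aeval (ρ a) G) = 0
          have h2 := hJ (a + K * (m1 + t) + s) G hGJ
          rw [← hval t, hgm] at h2
          rw [← h2, eval_aeval]
        · refine Set.infinite_univ.image ?_
          intro t _ t' _ htt
          have h2 : a + K * (m1 + t) = a + K * (m1 + t') := Nat.cast_injective htt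
          have h3 : K * (m1 + t) = K * (m1 + t') := by omega
          have h4 := Nat.eq_of_mul_eq_mul_left hKpos h3
          omega
      have h2 := congrArg (Polynomial.eval u) h1
      rw [Polynomial.eval_zero, eval_aeval] at h2
      rw [hgm, ← h2]
    have hm2 : ((a + K * (m1 + 1) : ℕ) : ℂ) ≠ 0 := by
      have : 0 < K * (m1 + 1) := by positivity
      exact_mod_cast (by omega : a + K * (m1 + 1) ≠ 0)
    obtain ⟨G, hGJ', hne⟩ := hJ' (a + K * (m1 + 1) + s)
    apply hne
    rw [← hval 1]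
    exact hG 0 (ρ a) hcurve hcon _ hm2 G hGJ'
  refine ⟨K, m1 + 1 + s, hKpos, fun m hm => ?_⟩
  have hval : ∀ m', m1 + 1 ≤ m' → (fun j => e (x (m' + s) j)) = gm 0 (ρ (m' % K)) 1 := by
    intro m' hm'
    have h1 : ((m' : ℕ) : ℂ) ≠ 0 := by
      exact_mod_cast (by omega : m' ≠ 0)
    rw [← hconst _ (Nat.mod_lt _ hKpos) _ h1, hgm]
    funext j
    exact hm1 m' (by omega) j
  have h1 := hval (m - s) (by omega)
  have h2 := hval (m - s + K) (by omega)
  rw [Nat.add_mod_right, ← h1] at h2
  have h3 : m - s + K + s = m + K := by omega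
  have h4 : m - s + s = m := by omega
  rw [h3, h4] at h2
  funext j
  exact e.injective (congrFun h2 j)

end Pool.Agent.TH143.HE
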