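import Pool.Agent.TH143.HE.Spec

/-!
Rational curves in projective varieties over fields, and their specializations.
-/

set_option autoImplicit false

namespace Pool.Agent.TH143.HE

open MvPolynomial

variable {N : ℕ} {R : Type} [CommRing R]

/-- A map from the projective line to the projective variety given by the forms in `I`, nonconstant,
whose image is not contained in the variety given by the forms in `I'`. -/
structure RCur {A : Type} [Field A] (φ : R →+* A) (I I' : Ideal (MvPolynomial (Fin (N + 1)) R))
    (p : Fin (N + 1) → Polynomial A) : Prop where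
  zero : ∀ G ∈ I, (∃ d, G.IsHomogeneous d) → eval₂ (Polynomial.C.comp φ) p G = 0
  ne : ∃ G ∈ I', (∃ d, G.IsHomogeneous d) ∧ eval₂ (Polynomial.C.comp φ) p G ≠ 0
  nc : ∃ j k i i', (p j).coeff i * (p k).coeff i' ≠ (p k).coeff i * (p j).coeff i'

theorem eval₂_map' {A A' : Type} [CommRing A] [CommRing A'] (φ : R →+* A) (g : A →+* A')
    (p : Fin (N + 1) → Polynomial A) (G : MvPolynomial (Fin (N + 1)) R) :
    (eval₂ (Polynomial.C.comp φ) p G).map g =
      eval₂ (Polynomial.C.comp (g.comp φ)) (fun j => (p j).map g) G := by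
  rw [← Polynomial.coe_mapRingHom, eval₂_comp_left]
  congr 1
  · ext r
    simp

theorem eval₂_eval {A : Type} [CommRing A] (φ : R →+* A) (p : Fin (N + 1) → Polynomial A)
    (G : MvPolynomial (Fin (N + 1)) R) (u : A) :
    (eval₂ (Polynomial.C.comp φ) p G).eval u = eval₂ φ (fun j => (p j).eval u) G := by
  rw [← Polynomial.coe_evalRingHom, eval₂_comp_left]
  congr 1
  ext r
  simp

/-- **Specialization.** -/
theorem RCur.spec {k E : Type} [Field k] [Field E] [Algebra k E] (φ : R →+* k)
    {I I' : Ideal (MvPolynomial (Fin (N + 1)) R)} {p : Fin (N + 1) → Polynomial E}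
    (h : RCur ((algebraMap k E).comp φ) I I' p) :
    ∃ (L : Type) (_ : Field L) (_ : Algebra k L) (_ : FiniteDimensional k L)
      (p' : Fin (N + 1) → Polynomial L), RCur ((algebraMap k L).comp φ) I I' p' := by
  classical
  obtain ⟨h1, ⟨G', hG', hGh, hne⟩, j, j', i, i', hc⟩ := h
  set cc : E := (p j).coeff i * (p j').coeff i' - (p j').coeff i * (p j).coeff i' with hcc
  have hcc0 : cc ≠ 0 := sub_ne_zero.2 hc
  let s : Finset E := (Finset.univ.biUnion fun j => (p j).coeffs) ∪
    {cc⁻¹, (eval₂ (Polynomial.C.comp ((algebraMap k E).comp φ)) p G').leadingCoeff⁻¹}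
  let A := Algebra.adjoin k (s : Set E)
  have hs : ∀ x ∈ s, x ∈ A := fun x hx => Algebra.subset_adjoin hx
  have hA : Algebra.FiniteType k A :=
    ⟨(Subalgebra.fg_top A).2 ⟨s, rfl⟩⟩
  obtain ⟨m, hm⟩ := Ideal.exists_maximal A
  let _ : Field (A ⧸ m) := Ideal.Quotient.field m
  have hft : Algebra.FiniteType k (A ⧸ m) :=
    Algebra.FiniteType.of_surjective (Ideal.Quotient.mkₐ k m) Ideal.Quotient.mk_surjective
  have hfin : Module.Finite k (A ⧸ m) := finite_of_finite_type_of_isJacobsonRing k (A ⧸ m)
  let θ : A →ₐ[k] A ⧸ m := Ideal.Quotient.mkₐ k m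
  -- lifts
  have hlift : ∀ j, ∃ q : Polynomial A, q.map (algebraMap A E) = p j := by
    intro j
    have h2 : p j ∈ Polynomial.lifts (algebraMap A E) := by
      rw [Polynomial.lifts_iff_coeff_lifts]
      intro t
      by_cases ht : (p j).coeff t = 0
      · exact ⟨0, by rw [ht, map_zero]⟩
      · refine ⟨⟨(p j).coeff t, hs _ ?_⟩, rfl⟩
        exact Finset.mem_union_left _ (Finset.mem_biUnion.2
          ⟨j, Finset.mem_univ _, Polynomial.coeff_mem_coeffs ht⟩)
    exact (Polynomial.mem_lifts _).1 h2
  choose P hP using hlift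
  have hinj : Function.Injective (algebraMap A E) := Subtype.val_injective
  have hcur : ∀ G, (eval₂ (Polynomial.C.comp ((algebraMap k A).comp φ)) P G).map
      (algebraMap A E) = eval₂ (Polynomial.C.comp ((algebraMap k E).comp φ)) p G := by
    intro G
    rw [eval₂_map']
    congr 1
    funext j
    exact hP j
  have hcur' : ∀ G, (eval₂ (Polynomial.C.comp ((algebraMap k A).comp φ)) P G).map
      (θ : A →+* A ⧸ m) = eval₂ (Polynomial.C.comp ((algebraMap k (A ⧸ m)).comp φ))
        (fun j => (P j).map (θ : A →+* A ⧸ m)) G := by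
    intro G
    rw [eval₂_map']
    congr 1
  have hunit : ∀ x : A, ((x : E))⁻¹ ∈ s → (x : E) ≠ 0 → θ x ≠ 0 := by
    intro x hx hx0 h0
    have h2 : x * ⟨_, hs _ hx⟩ = 1 := Subtype.ext (mul_inv_cancel₀ hx0)
    have h3 := congrArg θ h2
    rw [map_mul, h0, zero_mul, map_one] at h3
    exact zero_ne_one h3
  have hPc : ∀ j i, (((P j).coeff i : A) : E) = (p j).coeff i := by
    intro j i
    rw [← hP j, Polynomial.coeff_map]
    rfl
  refine ⟨A ⧸ m, inferInstance, inferInstance, hfin, fun j => (P j).map (θ : A →+* A ⧸ m),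
    ⟨fun G hG hGf => ?_, ⟨G', hG', hGh, ?_⟩, j, j', i, i', ?_⟩⟩
  · have h2 : eval₂ (Polynomial.C.comp ((algebraMap k A).comp φ)) P G = 0 := by
      apply Polynomial.map_injective _ hinj
      rw [hcur, h1 G hG hGf, Polynomial.map_zero]
    rw [← hcur', h2, Polynomial.map_zero]
  · rw [← hcur']
    intro h0
    set q := eval₂ (Polynomial.C.comp ((algebraMap k A).comp φ)) P G' with hq
    have h2 : (q.leadingCoeff : E) =
        (eval₂ (Polynomial.C.comp ((algebraMap k E).comp φ)) p G').leadingCoeff := by
      rw [← hcur, Polynomial.leadingCoeff_map_of_injective hinj]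
      rfl
    refine hunit q.leadingCoeff ?_ ?_ ?_
    · rw [h2]
      simp [s]
    · rw [h2]
      exact coeffs_inv hne
    · have h3 := congrArg (fun f => Polynomial.coeff f q.natDegree) h0
      simp only [Polynomial.coeff_map, Polynomial.coeff_zero] at h3
      exact h3
  · simp only [Polynomial.coeff_map]
    intro h0
    have h2 : (((P j).coeff i * (P j').coeff i' - (P j').coeff i * (P j).coeff i' : A) : E) =
        cc := by
      rw [hcc, ← hPc, ← hPc, ← hPc, ← hPc]
      rfl
    refine hunit ((P j).coeff i * (P j').coeff i' - (P j').coeff i * (P j).coeff i') ?_ ?_ ?_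
    · rw [h2]
      simp [s]
    · rw [h2]
      exact hcc0
    · rw [map_sub, map_mul, map_mul, sub_eq_zero]
      exact h0

/-- base change to a larger field -/
theorem RCur.map {A A' : Type} [Field A] [Field A'] {φ : R →+* A}
    {I I' : Ideal (MvPolynomial (Fin (N + 1)) R)} {p : Fin (N + 1) → Polynomial A}
    (h : RCur φ I I' p) (g : A →+* A') : RCur (g.comp φ) I I' (fun j => (p j).map g) := by
  obtain ⟨h1, ⟨G', hG', hGh, hne⟩, j, j', i, i', hc⟩ := h
  refine ⟨fun G hG hGf => ?_, ⟨G', hG', hGh, ?_⟩, j, j', i, i', ?_⟩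
  · rw [← eval₂_map', h1 G hG hGf, Polynomial.map_zero]
  · rw [← eval₂_map']
    rwa [Ne, Polynomial.map_eq_zero_iff g.injective]
  · simp only [Polynomial.coeff_map]
    intro h0
    rw [← map_mul, ← map_mul] at h0
    exact hc (g.injective h0)

/-- nonconstant maps -/
theorem nc_iff {A : Type} [Field A] [Infinite A] (p : Fin (N + 1) → Polynomial A) :
    (∃ j k i i', (p j).coeff i * (p k).coeff i' ≠ (p k).coeff i * (p j).coeff i') ↔
      ∃ j k u v, (p j).eval u * (p k).eval v ≠ (p k).eval u * (p j).eval v := by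
  constructor
  · rintro ⟨j, k, i, i', h⟩
    by_contra hcon
    push Not at hcon
    apply h
    -- first in the variable `u`
    have h1 : ∀ v, p j * Polynomial.C ((p k).eval v) = p k * Polynomial.C ((p j).eval v) := by
      intro v
      apply Polynomial.funext
      intro u
      rw [Polynomial.eval_mul, Polynomial.eval_C, Polynomial.eval_mul, Polynomial.eval_C]
      exact hcon j k u v
    have h2 : Polynomial.C ((p j).coeff i) * p k = Polynomial.C ((p k).coeff i) * p j := by
      apply Polynomial.funext
      intro v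
      rw [Polynomial.eval_mul, Polynomial.eval_C, Polynomial.eval_mul, Polynomial.eval_C]
      have h3 := congrArg (fun q => Polynomial.coeff q i) (h1 v)
      simp only [Polynomial.coeff_mul_C] at h3
      exact h3
    have h3 := congrArg (fun q => Polynomial.coeff q i') h2
    simp only [Polynomial.coeff_C_mul] at h3
    exact h3
  · rintro ⟨j, k, u, v, h⟩
    by_contra hcon
    push Not at hcon
    apply h
    have h1 : ∀ i, Polynomial.C ((p j).coeff i) * p k = Polynomial.C ((p k).coeff i) * p j := by
      intro i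
      ext i'
      rw [Polynomial.coeff_C_mul, Polynomial.coeff_C_mul]
      exact hcon j k i i'
    have h2 : p j * Polynomial.C ((p k).eval v) = p k * Polynomial.C ((p j).eval v) := by
      ext i
      rw [Polynomial.coeff_mul_C, Polynomial.coeff_mul_C]
      have h3 := congrArg (Polynomial.eval v) (h1 i)
      rw [Polynomial.eval_mul, Polynomial.eval_C, Polynomial.eval_mul, Polynomial.eval_C] at h3
      exact h3
    have h3 := congrArg (Polynomial.eval u) h2
    rw [Polynomial.eval_mul, Polynomial.eval_C, Polynomial.eval_mul, Polynomial.eval_C] at h3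
    exact h3

end Pool.Agent.TH143.HE
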