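import Pool.Agent.TH143.HE.Quot
import Pool.Agent.TH143.HE.Pts
import Pool.Agent.TH143.HE.RSpec

/-!
Projective varieties: rational curves through the points of a P-recursive sequence.
-/

set_option autoImplicit false

namespace Pool.Agent.TH143.HE

open MvPolynomial Filter Pool.Agent.TH143 Pool.Agent.TH143.DE

variable {N : ℕ} {B : Subalgebra ℂ (ℕ → ℂ)}

/-- nonconstant maps from the line to the projective space -/
def NonConst (p : Fin (N + 1) → Polynomial ℂ) : Prop :=
  ∃ j k u v, (p j).eval u * (p k).eval v ≠ (p k).eval u * (p j).eval v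

theorem wronsk_zero {p : Fin (N + 1) → Polynomial ℂ} (h : ¬ NonConst p)
    {ℓ : MvPolynomial (Fin (N + 1)) ℂ} (hℓ : ℓ.IsHomogeneous 1) (j : Fin (N + 1)) (v : ℂ) :
    (Polynomial.derivative (p j) * aeval p ℓ - p j * Polynomial.derivative (aeval p ℓ)).eval v =
      0 := by
  unfold NonConst at h
  push Not at h
  have h1 : ∀ u, (p j).eval u * (aeval p ℓ : Polynomial ℂ).eval v =
      (aeval p ℓ : Polynomial ℂ).eval u * (p j).eval v := by
    intro u
    rw [eval_aeval, eval_aeval]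
    have h2 := Pool.Agent.TH143.GT.eval_smul_homog hℓ ((p j).eval u) (fun k => (p k).eval v)
    have h3 := Pool.Agent.TH143.GT.eval_smul_homog hℓ ((p j).eval v) (fun k => (p k).eval u)
    rw [pow_one] at h2 h3
    rw [← h2, mul_comm _ ((p j).eval v), ← h3]
    congr 1
    congr 1
    funext k
    have h4 := h j k u v
    linear_combination h4
  have h2 : p j * Polynomial.C ((aeval p ℓ : Polynomial ℂ).eval v) =
      (aeval p ℓ : Polynomial ℂ) * Polynomial.C ((p j).eval v) := by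
    apply Polynomial.funext
    intro u
    rw [Polynomial.eval_mul, Polynomial.eval_C, Polynomial.eval_mul, Polynomial.eval_C]
    exact h1 u
  have h3 := congrArg (fun q => (Polynomial.derivative q).eval v) h2
  simp only [Polynomial.derivative_mul, Polynomial.derivative_C, mul_zero, add_zero,
    Polynomial.eval_mul, Polynomial.eval_C] at h3
  rw [Polynomial.eval_sub, Polynomial.eval_mul, Polynomial.eval_mul, h3]
  ring

/-- **The curves.** -/
theorem exists_rc (hB : CoefField B) {x : ℕ → Fin (N + 1) → ℂ}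
    (hx : ∀ j, LinRec B (fun m => x m j)) {ℓ : MvPolynomial (Fin (N + 1)) ℂ}
    (hℓ : ℓ.IsHomogeneous 1) (hℓx : ∀ᶠ m in atTop, eval (x m) ℓ ≠ 0)
    {s : Set (MvPolynomial (Fin (N + 1)) ℂ)} (hs : ∀ G ∈ s, ∃ d, G.IsHomogeneous d)
    (hsx : ∀ G ∈ s, ∀ᶠ m in atTop, eval (x m) G = 0) :
    ∃ t, ∀ (I : Ideal (ℕ → ℂ)) (hI : EZ ≤ I) (_ : I.IsPrime) (K : Type) [Field K]
      [Algebra ((ℕ → ℂ) ⧸ I) K] [IsFractionRing ((ℕ → ℂ) ⧸ I) K] [Algebra ℂ K]
      [IsScalarTower ℂ ((ℕ → ℂ) ⧸ I) K], ∀ j, Transcendental (cf hB hI K)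
      (algebraMap ((ℕ → ℂ) ⧸ I) K (mk' I fun m => x (m + t) j / eval (x (m + t)) ℓ)) →
      ∃ᶠ m in atTop, ∃ p : Fin (N + 1) → Polynomial ℂ,
        (∀ G ∈ s, (aeval p G : Polynomial ℂ) = 0) ∧ (fun j => (p j).eval 1) = x (m + t) ∧
        NonConst p := by
  classical
  obtain ⟨t, n, A, U, Φ, hU, hdet, hΦ⟩ := exists_sys hB (fun j m => x m j) hx
  refine ⟨t, ?_⟩
  intro I hI hIp K _ _ _ _ _ j hj
  have hdom : IsDomain ((ℕ → ℂ) ⧸ I) := Ideal.Quotient.isDomain I
  have hpt : ∀ᶠ m in atTop, pt U Φ m = x (m + t) := by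
    filter_upwards [hΦ] with m hm
    funext i
    exact (hm i).symm
  obtain ⟨D, hD⟩ := der_of_transcendental hj
  set a := algebraMap ((ℕ → ℂ) ⧸ I) K with ha
  have hcl : ∀ G : MvPolynomial (Fin (N + 1)) ℂ, a (cl I fun m => eval (pt U Φ m) G) =
      a (mk' I fun m => eval (x (m + t)) G) := by
    intro G
    congr 1
    change mk' I _ = _
    rw [← sub_eq_zero, ← map_sub]
    refine mk'_zero.2 (hI ?_)
    rw [mem_EZ]
    filter_upwards [hpt] with m hm
    rw [Pi.sub_apply, hm, sub_self]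
  have hℓt := eventually_shift hℓx t
  set z := a (mk' I fun m => x (m + t) j / eval (x (m + t)) ℓ) with hz
  set y := a (mk' I fun m => eval (x (m + t)) ℓ) with hy
  have hy0 : y ≠ 0 := by
    intro h0
    have h1 : (mk' I fun m => eval (x (m + t)) ℓ) = 0 :=
      (map_eq_zero_iff a (IsFractionRing.injective _ K)).1 h0
    have h2 := mk'_zero.1 h1
    have h9 : (1 : ℕ → ℂ) ∈ I := by
      have h10 : (fun m => (eval (x (m + t)) ℓ)⁻¹ * eval (x (m + t)) ℓ) ∈ I :=
        I.mul_mem_left (fun m => (eval (x (m + t)) ℓ)⁻¹) h2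
      have h11 : (1 : ℕ → ℂ) - (fun m => (eval (x (m + t)) ℓ)⁻¹ * eval (x (m + t)) ℓ) ∈ I := by
        apply hI
        rw [mem_EZ]
        filter_upwards [hℓt] with m hm
        rw [Pi.sub_apply, Pi.one_apply, inv_mul_cancel₀ hm, sub_self]
      have h12 := I.add_mem h11 h10
      rwa [sub_add_cancel] at h12
    exact hIp.ne_top ((Ideal.eq_top_iff_one I).2 h9)
  have hzy : a (mk' I fun m => eval (x (m + t)) (X j)) = z * y := by
    rw [hz, hy, ← map_mul, ← map_mul]
    congr 1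
    rw [← sub_eq_zero, ← map_sub]
    refine mk'_zero.2 (hI ?_)
    rw [mem_EZ]
    filter_upwards [hℓt] with m hm
    rw [Pi.sub_apply, Pi.mul_apply, eval_X, div_mul_cancel₀ _ hm, sub_self]
  obtain ⟨W, hR, h1, -, hN⟩ := emb hB A U hU hdet hI (K := K) D
    (fun a b => map_add D a b) (fun a b => D.leibniz a b)
    (fun b hb => D.map_algebraMap (⟨_, b, hb, rfl⟩ : cf hB hI K)) Φ ℓ (X j)
    hℓ (isHomogeneous_X _ _) (by
      rw [← ha, hcl, hcl, hzy, ← hy]
      have h2 : D (z * y) = z * D y + y * D z := D.leibniz z y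
      have h3 : D z = 1 := hD
      rw [h2, h3]
      have h4 : (z * D y + y * 1) * y - z * y * D y = y ^ 2 := by ring
      rw [h4]
      exact pow_ne_zero _ hy0) 1 (isHomogeneous_one _ _) (by
      filter_upwards with m
      rw [map_one]
      exact one_ne_zero) 1 (by
      filter_upwards with m
      rw [map_one, map_one]
      change (1 : ℂ) = (1 : ℕ → ℂ) m * 1
      rw [Pi.one_apply, one_mul])
  -- finitely many forms
  obtain ⟨T, hTs, hT⟩ : ∃ T : Finset (MvPolynomial (Fin (N + 1)) ℂ), (T : Set _) ⊆ s ∧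
      Ideal.span s = Ideal.span (T : Set (MvPolynomial (Fin (N + 1)) ℂ)) :=
    Submodule.fg_span_iff_fg_span_finset_subset s |>.1 (IsNoetherian.noetherian _)
  have hJT : ∀ᶠ m in atTop, ∀ G ∈ T, ∀ u, u ≠ 0 → evp m u (aeval W G) = 0 := by
    rw [Finset.eventually_all]
    intro G hG
    refine hR _ (hs G (hTs hG)) ?_
    filter_upwards [hpt, eventually_shift (hsx G (hTs hG)) t] with m h3 h4
    rw [h3]
    exact h4
  have hfreq : ∃ᶠ m in atTop, evp m 1 (Polynomial.derivative (aeval W (X j :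
      MvPolynomial (Fin (N + 1)) ℂ)) * aeval W ℓ - aeval W (X j : MvPolynomial (Fin (N + 1)) ℂ) *
          Polynomial.derivative (aeval W ℓ)) ≠ 0 := by
    intro hcon
    apply hN
    apply hI
    rw [mem_EZ]
    filter_upwards [hcon] with m hm
    by_contra h2
    exact hm h2
  refine (hfreq.and_eventually (hpt.and hJT)).mono ?_
  rintro m ⟨hm, h3, h5⟩
  let ev : ℕ → (Polynomial (ℕ → ℂ)) → Polynomial ℂ := fun m p =>
    p.map (Pi.evalAlgHom ℂ (fun _ : ℕ => ℂ) m : (ℕ → ℂ) →+* ℂ)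
  have hev : ∀ (p : Polynomial (ℕ → ℂ)) (u : ℂ), evp m u p = (ev m p).eval u :=
    fun p u => evp_eq m u p
  have heva : ∀ G : MvPolynomial (Fin (N + 1)) ℂ, ev m (aeval W G) =
      aeval (fun i => ev m (W i)) G := by
    intro G
    exact Pool.Agent.TH143.GT.map_aeval' (Pi.evalAlgHom ℂ (fun _ : ℕ => ℂ) m) W G
  refine ⟨fun i => ev m (W i), ?_, ?_, ?_⟩
  · have h9 : ∀ G ∈ (T : Set (MvPolynomial (Fin (N + 1)) ℂ)),
        (aeval (fun i => ev m (W i)) G : Polynomial ℂ) = 0 := by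
      intro G hG
      rw [← heva]
      apply Polynomial.eq_zero_of_infinite_isRoot
      refine Set.Infinite.mono (s := {x : ℂ | x ≠ 0}) ?_
        (Set.finite_singleton (0 : ℂ)).infinite_compl
      intro u hu
      change Polynomial.eval u _ = 0
      rw [← hev]
      exact h5 G hG u hu
    intro G hG
    have h10 : Ideal.span (T : Set (MvPolynomial (Fin (N + 1)) ℂ)) ≤
        RingHom.ker (aeval (fun i => ev m (W i)) :
          MvPolynomial (Fin (N + 1)) ℂ →ₐ[ℂ] Polynomial ℂ) :=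
      Ideal.span_le.2 fun G hG => h9 G hG
    rw [← hT] at h10
    exact h10 (Ideal.subset_span hG)
  · funext i
    rw [← hev, h1, h3]
  · by_contra hcon
    apply hm
    rw [hev]
    have h9 : ev m (Polynomial.derivative (aeval W (X j : MvPolynomial (Fin (N + 1)) ℂ)) *
        aeval W ℓ - aeval W (X j : MvPolynomial (Fin (N + 1)) ℂ) *
          Polynomial.derivative (aeval W ℓ)) =
        Polynomial.derivative (ev m (W j)) * aeval (fun i => ev m (W i)) ℓ -
          ev m (W j) * Polynomial.derivative (aeval (fun i => ev m (W i)) ℓ) := by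
      rw [← heva]
      simp only [ev, Polynomial.map_sub, Polynomial.map_mul, Polynomial.derivative_map, aeval_X]
    rw [h9]
    exact wronsk_zero hcon hℓ j 1


/-- The point with the homogeneous coordinates `x` is a zero of all forms of the ideal `I`. -/
def IsPtP {R A : Type} [CommRing R] [CommRing A] (φ : R →+* A)
    (I : Ideal (MvPolynomial (Fin (N + 1)) R)) (x : Fin (N + 1) → A) : Prop :=
  ∀ G ∈ I, (∃ d, G.IsHomogeneous d) → eval₂ φ x G = 0

/-- All nonconstant maps from the projective line to the variety of `I` have their image in the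
variety of `I'`. -/
def RatCurvesIn {R : Type} [CommRing R] (φ : R →+* ℂ)
    (I I' : Ideal (MvPolynomial (Fin (N + 1)) R)) : Prop :=
  ∀ p : Fin (N + 1) → Polynomial ℂ, (∀ u, IsPtP φ I (fun j => (p j).eval u)) → NonConst p →
    ∀ u, IsPtP φ I' (fun j => (p j).eval u)

theorem ratCurvesIn_iff {R : Type} [CommRing R] {φ : R →+* ℂ}
    {I I' : Ideal (MvPolynomial (Fin (N + 1)) R)} :
    RatCurvesIn φ I I' ↔ ∀ p : Fin (N + 1) → Polynomial ℂ, ¬ RCur φ I I' p := by
  constructor
  · rintro h p ⟨h1, ⟨G', hG', hGh, hne⟩, hnc⟩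
    apply hne
    apply Polynomial.funext
    intro u
    rw [eval₂_eval, Polynomial.eval_zero]
    exact h p (fun u G hG hGf => by rw [← eval₂_eval, h1 G hG hGf, Polynomial.eval_zero])
      ((nc_iff p).1 hnc) u G' hG' hGh
  · intro h p h1 hnc u G' hG' hGh
    by_contra hne
    refine h p ⟨fun G hG hGf => ?_, ⟨G', hG', hGh, fun h0 => hne ?_⟩, (nc_iff p).2 hnc⟩
    · apply Polynomial.funext
      intro u
      rw [eval₂_eval, Polynomial.eval_zero]
      exact h1 u G hG hGf
    · rw [← eval₂_eval, h0, Polynomial.eval_zero]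

/-- a linear form which does not vanish at countably many points -/
theorem exists_linear (x : ℕ → Fin (N + 1) → ℂ) (hx : ∀ m, x m ≠ 0) :
    ∃ c : ℂ, ∀ m, ∑ j : Fin (N + 1), c ^ (j : ℕ) * x m j ≠ 0 := by
  classical
  let q : ℕ → Polynomial ℂ := fun m => ∑ j : Fin (N + 1), Polynomial.C (x m j) * Polynomial.X ^ (j : ℕ)
  have hq : ∀ m, q m ≠ 0 := by
    intro m h0
    apply hx m
    funext j
    have h1 := congrArg (fun p => Polynomial.coeff p j) h0
    simp only [q, Polynomial.finsetSum_coeff, Polynomial.coeff_C_mul_X_pow,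
      Polynomial.coeff_zero] at h1
    rw [Finset.sum_eq_single j] at h1
    · rw [if_pos rfl] at h1
      exact h1
    · intro b _ hb
      rw [if_neg]
      intro h2
      exact hb (Fin.ext h2.symm)
    · intro h2
      exact absurd (Finset.mem_univ _) h2
  have hcount : (⋃ m, {z : ℂ | (q m).IsRoot z}).Countable := by
    refine Set.countable_iUnion fun m => ?_
    have : {z : ℂ | (q m).IsRoot z}.Finite := Polynomial.finite_setOfPred_isRoot (hq m)
    exact this.countable
  obtain ⟨c, hc⟩ : ∃ c : ℂ, c ∉ ⋃ m, {z : ℂ | (q m).IsRoot z} := by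
    by_contra hcon
    push Not at hcon
    have h1 : (Set.univ : Set ℂ) ⊆ ⋃ m, {z : ℂ | (q m).IsRoot z} := fun z _ => hcon z
    exact not_countable_complex (hcount.mono h1)
  refine ⟨c, fun m h0 => hc (Set.mem_iUnion.2 ⟨m, ?_⟩)⟩
  change (q m).eval c = 0
  rw [← h0]
  simp only [q]
  rw [Polynomial.eval_finsetSum]
  refine Finset.sum_congr rfl fun j _ => ?_
  rw [Polynomial.eval_mul, Polynomial.eval_C, Polynomial.eval_pow, Polynomial.eval_X, mul_comm]

/-- **The sequences are eventually periodic** in the projective space. -/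
theorem proj_periodic {R : Type} [CommRing R] {φ : R →+* ℂ}
    {I I' : Ideal (MvPolynomial (Fin (N + 1)) R)} (h : RatCurvesIn φ I I')
    {x : ℕ → Fin (N + 1) → ℂ} (hne : ∀ m, x m ≠ 0) (hx : ∀ j, PRec fun m => x m j)
    (hX : ∀ m, IsPtP φ I (x m)) (hZ : ∀ m, ¬ IsPtP φ I' (x m)) :
    ∃ k m0 : ℕ, 0 < k ∧ ∀ m, m0 ≤ m → ∀ i j, x (m + k) i * x m j = x (m + k) j * x m i := by
  classical
  obtain ⟨c, hc⟩ := exists_linear x hne
  let ℓ : MvPolynomial (Fin (N + 1)) ℂ := ∑ j : Fin (N + 1), C (c ^ (j : ℕ)) * X j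
  have hℓ : ℓ.IsHomogeneous 1 := by
    refine IsHomogeneous.sum _ _ _ fun j _ => ?_
    have h2 := (isHomogeneous_C (Fin (N + 1)) (c ^ (j : ℕ))).mul (isHomogeneous_X ℂ j)
    rwa [zero_add] at h2
  have hℓe : ∀ v : Fin (N + 1) → ℂ, eval v ℓ = ∑ j : Fin (N + 1), c ^ (j : ℕ) * v j := by
    intro v
    simp only [ℓ, map_sum, map_mul, eval_C, eval_X]
  have hℓx : ∀ m, eval (x m) ℓ ≠ 0 := fun m => by
    rw [hℓe]
    exact hc m
  let s : Set (MvPolynomial (Fin (N + 1)) ℂ) :=
    {G | ∃ G0 ∈ I, (∃ d, G0.IsHomogeneous d) ∧ G = MvPolynomial.map φ G0}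
  have hlin : ∀ j, LinRec RB fun m => x m j := fun j => (hx j).linRec
  obtain ⟨t, ht⟩ := exists_rc RB_field hlin hℓ (Eventually.of_forall hℓx) (s := s)
    (by
      rintro _ ⟨G0, _, ⟨d, hd⟩, rfl⟩
      exact ⟨d, hd.map φ⟩)
    (by
      rintro _ ⟨G0, hG0, hd, rfl⟩
      refine Eventually.of_forall fun m => ?_
      rw [eval_map]
      exact hX m G0 hG0 hd)
  -- the quotients are algebraic
  have halg : ∀ j, ∃ P : Polynomial (Polynomial ℂ), P ≠ 0 ∧
      ∀ᶠ m in atTop, evs (fun m => x (m + t) j / eval (x (m + t)) ℓ) P m = 0 := by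
    intro j
    refine exists_alg fun J hJ hJp => ?_
    have hdom : IsDomain ((ℕ → ℂ) ⧸ J) := Ideal.Quotient.isDomain J
    apply rel_of_alg hJ hJp (FractionRing ((ℕ → ℂ) ⧸ J))
    by_contra hcon
    obtain ⟨m, p, h1, h2, h3⟩ := (ht J hJ hJp (FractionRing ((ℕ → ℂ) ⧸ J)) j hcon).exists
    apply hZ (m + t)
    rw [← h2]
    refine h p (fun u G hG hGf => ?_) h3 1
    have h4 := h1 _ ⟨G, hG, hGf, rfl⟩
    have h5 := congrArg (Polynomial.eval u) h4
    rw [Polynomial.eval_zero, eval_aeval, eval_map] at h5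
    exact h5
  -- they are quasi-rational
  have hrat : ∀ j, ∃ (p : Polynomial ℂ) (k : ℕ) (q : ℕ → Polynomial ℂ), p ≠ 0 ∧ 0 < k ∧
      ∀ᶠ m : ℕ in atTop, p.eval (m : ℂ) * (x (m + t) j / eval (x (m + t)) ℓ) =
        (q (m % k)).eval (m : ℂ) := by
    intro j
    obtain ⟨P, hP, hP0⟩ := halg j
    have hfg : ∀ i, FGS fun m => x (m + t) i := fun i =>
      exists_fg (LinRec.shift RB_field (hlin i) t)
    have hg : FGS fun m => eval (x (m + t)) ℓ := by
      simp only [hℓe]
      exact FGS.sum _ fun i _ => (hfg i).const_mul _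
    exact quasi_rational_quot (hfg j) hg (Eventually.of_forall fun m => hℓx (m + t)) hP hP0
  choose p k q hp hk hq using hrat
  set K := ∏ j, k j with hK
  have hKpos : 0 < K := Finset.prod_pos fun j _ => hk j
  let P : Polynomial ℂ := ∏ j, p j
  have hP : P ≠ 0 := Finset.prod_ne_zero_iff.2 fun j _ => hp j
  let ρ : ℕ → Fin (N + 1) → Polynomial ℂ := fun a j =>
    (∏ i ∈ Finset.univ.erase j, p i) * q j (a % k j)
  have hρ : ∀ᶠ m : ℕ in atTop, P.eval (m : ℂ) ≠ 0 ∧ ∀ j, P.eval (m : ℂ) * x (m + t) j =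
      eval (x (m + t)) ℓ * (ρ (m % K) j).eval (m : ℂ) := by
    refine (ev_ne Nat.cast_injective hP).and (eventually_all.2 fun j => ?_)
    filter_upwards [hq j] with m hm
    have h1 : P.eval (m : ℂ) = (∏ i ∈ Finset.univ.erase j, p i).eval (m : ℂ) *
        (p j).eval (m : ℂ) := by
      rw [← Polynomial.eval_mul, mul_comm, Finset.mul_prod_erase _ _ (Finset.mem_univ j)]
    have h2 : (ρ (m % K) j).eval (m : ℂ) = (∏ i ∈ Finset.univ.erase j, p i).eval (m : ℂ) *
        (p j).eval (m : ℂ) * (x (m + t) j / eval (x (m + t)) ℓ) := by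
      simp only [ρ]
      rw [Polynomial.eval_mul, Nat.mod_mod_of_dvd _ (Finset.dvd_prod_of_mem k (Finset.mem_univ j)),
        ← hm, mul_assoc]
    rw [h2, h1]
    have h3 := hℓx (m + t)
    field_simp
  obtain ⟨m1, hm1⟩ := eventually_atTop.1 hρ
  -- the curves are constant
  have hconst : ∀ a, a < K → ¬ NonConst (ρ a) := by
    intro a ha hnc
    have hidx : ∀ i : ℕ, m1 ≤ a + K * (m1 + i) ∧ (a + K * (m1 + i)) % K = a := by
      intro i
      refine ⟨?_, by rw [Nat.add_mul_mod_self_left, Nat.mod_eq_of_lt ha]⟩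
      have : m1 + i ≤ K * (m1 + i) := Nat.le_mul_of_pos_left _ hKpos
      omega
    -- proportional vectors
    have hval : ∀ i : ℕ, ∃ b : ℂ, b ≠ 0 ∧
        (fun j => (ρ a j).eval ((a + K * (m1 + i) : ℕ) : ℂ)) =
          fun j => b * x (a + K * (m1 + i) + t) j := by
      intro i
      obtain ⟨h1, h2⟩ := hm1 _ (hidx i).1
      have h3 := hℓx (a + K * (m1 + i) + t)
      refine ⟨P.eval ((a + K * (m1 + i) : ℕ) : ℂ) / eval (x (a + K * (m1 + i) + t)) ℓ,
        div_ne_zero h1 h3, ?_⟩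
      funext j
      have h4 := h2 j
      rw [(hidx i).2] at h4
      rw [div_mul_eq_mul_div, h4, mul_div_cancel_left₀ _ h3]
    have hcurve : ∀ u, IsPtP φ I (fun j => (ρ a j).eval u) := by
      intro u G hG hGf
      have h1 : (eval₂ (Polynomial.C.comp φ) (ρ a) G : Polynomial ℂ) = 0 := by
        apply Polynomial.eq_zero_of_infinite_isRoot
        refine Set.Infinite.mono (s := (fun i : ℕ => ((a + K * (m1 + i) : ℕ) : ℂ)) '' Set.univ)
          ?_ ?_
        · rintro _ ⟨i, -, rfl⟩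
          change Polynomial.eval ((a + K * (m1 + i) : ℕ) : ℂ)
            (eval₂ (Polynomial.C.comp φ) (ρ a) G) = 0
          obtain ⟨b, hb, hbe⟩ := hval i
          rw [eval₂_eval, hbe]
          obtain ⟨d, hd⟩ := hGf
          rw [eval₂_smul_homog φ b (x (a + K * (m1 + i) + t)) hd,
            hX _ G hG ⟨d, hd⟩, mul_zero]
        · refine Set.infinite_univ.image ?_
          intro i _ i' _ hii
          have h2 : a + K * (m1 + i) = a + K * (m1 + i') := Nat.cast_injective hii
          have h3 : K * (m1 + i) = K * (m1 + i') := by omega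
          have h4 := Nat.eq_of_mul_eq_mul_left hKpos h3
          omega
      rw [← eval₂_eval, h1, Polynomial.eval_zero]
    obtain ⟨b, hb, hbe⟩ := hval 0
    apply hZ (a + K * (m1 + 0) + t)
    intro G hG hGf
    have h1 := h (ρ a) hcurve hnc ((a + K * (m1 + 0) : ℕ) : ℂ) G hG hGf
    rw [hbe] at h1
    obtain ⟨d, hd⟩ := hGf
    rw [eval₂_smul_homog φ b (x (a + K * (m1 + 0) + t)) hd] at h1
    exact (mul_eq_zero.1 h1).resolve_left (pow_ne_zero _ hb)
  refine ⟨K, m1 + t, hKpos, fun m hm i j => ?_⟩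
  obtain ⟨m', rfl⟩ : ∃ m', m = m' + t := ⟨m - t, by omega⟩
  have hm' : m1 ≤ m' := by omega
  obtain ⟨h1, h2⟩ := hm1 m' hm'
  obtain ⟨h3, h4⟩ := hm1 (m' + K) (by omega)
  rw [Nat.add_mod_right] at h4
  have h5 := hconst _ (Nat.mod_lt m' hKpos)
  unfold NonConst at h5
  push Not at h5
  have h6 := h5 i j ((m' + K : ℕ) : ℂ) (m' : ℂ)
  have h7 : m' + t + K = m' + K + t := by omega
  rw [h7]
  have e1 := h2 i
  have e2 := h2 j
  have e3 := h4 i
  have e4 := h4 j
  have h8 : (Polynomial.eval (m' : ℂ) P * Polynomial.eval ((m' + K : ℕ) : ℂ) P) *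
      (x (m' + K + t) i * x (m' + t) j - x (m' + K + t) j * x (m' + t) i) = 0 := by
    have h9 : (Polynomial.eval (m' : ℂ) P * Polynomial.eval ((m' + K : ℕ) : ℂ) P) *
      (x (m' + K + t) i * x (m' + t) j - x (m' + K + t) j * x (m' + t) i) =
      (Polynomial.eval ((m' + K : ℕ) : ℂ) P * x (m' + K + t) i) *
        (Polynomial.eval (m' : ℂ) P * x (m' + t) j) -
      (Polynomial.eval ((m' + K : ℕ) : ℂ) P * x (m' + K + t) j) *
        (Polynomial.eval (m' : ℂ) P * x (m' + t) i) := by ring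
    rw [h9, e1, e2, e3, e4]
    linear_combination (eval (x (m' + K + t)) ℓ * eval (x (m' + t)) ℓ) * h6
  rcases mul_eq_zero.1 h8 with h9 | h9
  · exact absurd h9 (mul_ne_zero h1 h3)
  · exact sub_eq_zero.1 h9

end Pool.Agent.TH143.HE
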