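import Pool.Agent.TH143.HE.Cur

/-!
From morphisms of `G_m` to P-recursive sequences of `S`-integral points.
-/

set_option autoImplicit false

namespace Pool.Agent.TH143.HE

open MvPolynomial Filter Pool.Agent.TH143 IsDedekindDomain NumberField

variable {n : ℕ}

/-- The structure map of the coordinates: from the integers of `F₀` to the extension `F`. -/
noncomputable abbrev str (F₀ F : Type) [Field F₀] [Field F] [Algebra F₀ F] : 𝓞 F₀ →+* F :=
  (algebraMap F₀ F).comp (algebraMap (𝓞 F₀) F₀)

theorem PRec_geom {L : Type} [Field L] {ι : Type} (s : Finset ι) (c b : ι → L) :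
    PRec fun m => ∑ i ∈ s, c i * b i ^ m := by
  classical
  let A : Polynomial L := ∏ i ∈ s, (Polynomial.X - Polynomial.C (b i))
  have hA : A.Monic := Polynomial.monic_prod_X_sub_C _ _
  refine ⟨A.natDegree, fun k => Polynomial.C (A.coeff k), ⟨A.natDegree, le_refl _, ?_⟩,
    fun m => ?_⟩
  · have h1 : A.coeff A.natDegree = 1 := hA
    change Polynomial.C (A.coeff A.natDegree) ≠ 0
    rw [h1, map_one]
    exact one_ne_zero
  · simp only [Polynomial.eval_C, Finset.mul_sum]
    rw [Finset.sum_comm]
    refine Finset.sum_eq_zero fun i hi => ?_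
    have h1 : ∑ k ∈ Finset.range (A.natDegree + 1), A.coeff k * (c i * b i ^ (m + k)) =
        c i * b i ^ m * A.eval (b i) := by
      rw [Polynomial.eval_eq_sum_range, Finset.mul_sum]
      exact Finset.sum_congr rfl fun k _ => by ring
    rw [h1]
    have h2 : A.eval (b i) = 0 := by
      simp only [A]
      rw [Polynomial.eval_prod]
      apply Finset.prod_eq_zero hi
      rw [Polynomial.eval_sub, Polynomial.eval_X, Polynomial.eval_C, sub_self]
    rw [h2, mul_zero]

/-- **The sequence.** -/
theorem exists_seq {L : Type} [Field L] [NumberField L] {R : Type} [CommRing R] (φ : R →+* L)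
    {I I' : Ideal (MvPolynomial (Fin n) R)} {l : ℕ} {p : Fin n → Polynomial L}
    (h : Cur φ I I' l p) :
    ∃ (S : Set (HeightOneSpectrum (𝓞 L))) (x : ℕ → Fin n → L), S.Finite ∧
      (∀ m j, x m j ∈ S.integer L) ∧ (∀ m, IsPt φ I (x m)) ∧ (∀ m, ¬ IsPt φ I' (x m)) ∧
      (∀ j, PRec fun m => x m j) ∧ ¬ (Set.range x).Finite := by
  classical
  obtain ⟨h1, ⟨G', hG', hne⟩, j0, i0, hi0, hc0⟩ := h
  have h20 : (2 : L) ≠ 0 := two_ne_zero
  have hinj2 : Function.Injective fun m : ℕ => (2 : L) ^ m := by
    intro a b hab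
    have h2 : ((2 ^ a : ℕ) : L) = ((2 ^ b : ℕ) : L) := by
      push_cast
      exact hab
    exact Nat.pow_right_injective (le_refl 2) (Nat.cast_injective h2)
  -- a shift
  obtain ⟨s, hs⟩ : ∃ s : ℕ, ∀ m, s ≤ m → (cur φ l p G').eval ((2 : L) ^ m) ≠ 0 := by
    have h2 : {z : L | (cur φ l p G').eval z = 0}.Finite := by
      refine ((cur φ l p G').rootSet_finite L).subset fun z hz => ?_
      rw [Polynomial.mem_rootSet]
      refine ⟨hne, ?_⟩
      rw [Polynomial.aeval_def, Polynomial.eval₂_eq_eval_map, Algebra.algebraMap_self,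
        Polynomial.map_id]
      exact hz
    have h3 := (h2.preimage (hinj2.injOn (s := (fun m : ℕ => (2 : L) ^ m) ⁻¹'
      {z : L | (cur φ l p G').eval z = 0}))).compl_mem_cofinite
    rw [Nat.cofinite_eq_atTop] at h3
    exact eventually_atTop.1 h3
  let x : ℕ → Fin n → L := fun m j =>
    (p j).eval ((2 : L) ^ (m + s)) / ((2 : L) ^ (m + s)) ^ l
  let S : Set (HeightOneSpectrum (𝓞 L)) :=
    HeightOneSpectrum.Support (𝓞 L) (2 : L)⁻¹ ∪
      ⋃ c ∈ (Finset.univ.biUnion fun j => (p j).coeffs : Finset L),
        HeightOneSpectrum.Support (𝓞 L) c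
  have hSfin : S.Finite := (HeightOneSpectrum.Support.finite _ _).union
    ((Finset.finite_toSet _).biUnion fun c _ => HeightOneSpectrum.Support.finite _ _)
  have h2S : (2 : L)⁻¹ ∈ S.integer L := by
    intro v hv
    by_contra hcon
    rw [not_le] at hcon
    exact hv (Or.inl hcon)
  have hcS : ∀ j i, (p j).coeff i ∈ S.integer L := by
    intro j i
    by_cases hz : (p j).coeff i = 0
    · rw [hz]
      exact (S.integer L).zero_mem
    · intro v hv
      by_contra hcon
      rw [not_le] at hcon
      refine hv (Or.inr (Set.mem_biUnion (x := (p j).coeff i) ?_ hcon))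
      exact Finset.mem_biUnion.2 ⟨j, Finset.mem_univ _, Polynomial.coeff_mem_coeffs hz⟩
  have hform : ∀ j m, x m j = ∑ i ∈ Finset.range ((p j).natDegree + 1),
      (p j).coeff i * ((2 : L) ^ i * (2 : L)⁻¹ ^ l) ^ (m + s) := by
    intro j m
    simp only [x]
    rw [Polynomial.eval_eq_sum_range, Finset.sum_div]
    refine Finset.sum_congr rfl fun i _ => ?_
    rw [mul_div_assoc]
    congr 1
    rw [mul_pow, inv_pow, inv_pow, ← pow_mul, ← pow_mul, ← pow_mul, ← pow_mul, div_eq_mul_inv,
      mul_comm i, mul_comm l]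
  refine ⟨S, x, hSfin, fun m j => ?_, fun m => ?_, fun m => ?_, fun j => ?_, fun hfin => ?_⟩
  · rw [hform]
    have h2' : (2 : L) ∈ S.integer L := by
      have := (S.integer L).natCast_mem 2
      exact_mod_cast this
    exact (S.integer L).sum_mem fun i _ => (S.integer L).mul_mem (hcS j i)
      ((S.integer L).pow_mem ((S.integer L).mul_mem ((S.integer L).pow_mem h2' _)
        ((S.integer L).pow_mem h2S _)) _)
  · intro G hG
    exact (cur_zero_iff φ l p G).1 (h1 G hG) _ (pow_ne_zero _ h20)
  · intro hcon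
    have h3 := hs (m + s) (by omega)
    rw [cur_eval φ l p G' (pow_ne_zero _ h20)] at h3
    exact h3 (by rw [hcon G' hG', mul_zero])
  · have h3 : (fun m => x m j) = fun m => ∑ i ∈ Finset.range ((p j).natDegree + 1),
        ((p j).coeff i * ((2 : L) ^ i * (2 : L)⁻¹ ^ l) ^ s) *
          ((2 : L) ^ i * (2 : L)⁻¹ ^ l) ^ m := by
      funext m
      rw [hform]
      exact Finset.sum_congr rfl fun i _ => by ring
    rw [h3]
    exact PRec_geom _ _ _
  · -- a value taken infinitely often
    obtain ⟨y, hy⟩ : ∃ y, ¬ (x ⁻¹' {y}).Finite := by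
      by_contra hcon
      push Not at hcon
      have h3 := hfin.preimage' (f := x) fun b _ => by
        have := hcon b
        simpa using this
      rw [Set.preimage_range] at h3
      exact Set.infinite_univ h3
    have h3 : p j0 = Polynomial.C (y j0) * Polynomial.X ^ l := by
      apply Polynomial.eq_of_infinite_eval_eq
      refine Set.Infinite.mono (s := (fun m : ℕ => (2 : L) ^ (m + s)) '' (x ⁻¹' {y})) ?_ ?_
      · rintro _ ⟨m, hm, rfl⟩
        change Polynomial.eval _ _ = Polynomial.eval _ _
        have h4 : x m = y := hm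
        rw [Polynomial.eval_mul, Polynomial.eval_C, Polynomial.eval_pow, Polynomial.eval_X, ← h4]
        simp only [x]
        rw [div_mul_cancel₀ _ (pow_ne_zero _ (pow_ne_zero _ h20))]
      · refine Set.Infinite.image ?_ hy
        intro a _ b _ hab
        have := hinj2 hab
        omega
    apply hc0
    rw [h3, Polynomial.coeff_C_mul_X_pow, if_neg hi0]

end Pool.Agent.TH143.HE
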