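import Pool.Agent.TH143.DE.Rat

/-!
Affine varieties: curves with the source `G_m` through the points of a sequence of points given by
linear recurrences.
-/

set_option autoImplicit false

namespace Pool.Agent.TH143.HE

open MvPolynomial Filter Pool.Agent.TH143 Pool.Agent.TH143.DE

variable {n : ℕ}

/-- the homogenization of a polynomial -/
noncomputable def homog (G : MvPolynomial (Fin n) ℂ) : MvPolynomial (Fin (n + 1)) ℂ :=
  ∑ e ∈ Finset.range (G.totalDegree + 1),
    X 0 ^ (G.totalDegree - e) * rename Fin.succ (homogeneousComponent e G)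

theorem homog_homog (G : MvPolynomial (Fin n) ℂ) : (homog G).IsHomogeneous G.totalDegree := by
  unfold homog
  refine IsHomogeneous.sum _ _ _ fun e he => ?_
  have h1 := (isHomogeneous_X_pow (R := ℂ) (0 : Fin (n + 1)) (G.totalDegree - e)).mul
    ((homogeneousComponent_isHomogeneous e G).rename_isHomogeneous (f := Fin.succ))
  have h2 := Finset.mem_range.1 he
  have h3 : G.totalDegree - e + e = G.totalDegree := by omega
  rw [h3] at h1
  exact h1

theorem eval_homog (G : MvPolynomial (Fin n) ℂ) (v : Fin (n + 1) → ℂ) (hv : v 0 ≠ 0) :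
    eval v (homog G) = v 0 ^ G.totalDegree * eval (fun i => v (Fin.succ i) / v 0) G := by
  have h1 : ∀ e ∈ Finset.range (G.totalDegree + 1),
      eval v (X 0 ^ (G.totalDegree - e) * rename Fin.succ (homogeneousComponent e G)) =
        v 0 ^ G.totalDegree * eval (fun i => v (Fin.succ i) / v 0) (homogeneousComponent e G) := by
    intro e he
    have h2 := Finset.mem_range.1 he
    rw [map_mul, map_pow, eval_X, eval_rename]
    have h3 : (v ∘ Fin.succ : Fin n → ℂ) = fun i => v 0 * (v (Fin.succ i) / v 0) := by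
      funext i
      rw [mul_div_cancel₀ _ hv]
      rfl
    rw [h3]
    have h4 : eval (fun i => v 0 * (v (Fin.succ i) / v 0)) (homogeneousComponent e G) =
        v 0 ^ e * eval (fun i => v (Fin.succ i) / v 0) (homogeneousComponent e G) := by
      rw [eval_eq', eval_eq', Finset.mul_sum]
      refine Finset.sum_congr rfl fun α hα => ?_
      have h5 := (homogeneousComponent_isHomogeneous e G) (mem_support_iff.1 hα)
      rw [Finsupp.weight_apply, Finsupp.sum_fintype _ _ (fun _ => by simp)] at h5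
      simp only [Pi.one_apply, smul_eq_mul, mul_one] at h5
      simp only [mul_pow, Finset.prod_mul_distrib]
      rw [Finset.prod_pow_eq_pow_sum, h5]
      ring
    rw [h4, ← mul_assoc, ← pow_add]
    congr 2
    omega
  unfold homog
  rw [map_sum, Finset.sum_congr rfl h1, ← Finset.mul_sum, ← map_sum, sum_homogeneousComponent]

/-- The point `(p 0 (u) / u ^ l, ..., p (n-1) (u) / u ^ l)` for `u` nonzero: the maps of this form
are the morphisms from `G_m` to the affine space. -/
noncomputable def gm (l : ℕ) (p : Fin n → Polynomial ℂ) (u : ℂ) : Fin n → ℂ :=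
  fun j => (p j).eval u / u ^ l

/-- All nonconstant morphisms from `G_m` to the affine variety with the ideal `J` have their image
in the subvariety with the ideal `J'`. -/
def GmIn (J J' : Ideal (MvPolynomial (Fin n) ℂ)) : Prop :=
  ∀ (l : ℕ) (p : Fin n → Polynomial ℂ), (∀ u, u ≠ 0 → ∀ G ∈ J, eval (gm l p u) G = 0) →
    (∃ u, u ≠ 0 ∧ gm l p u ≠ gm l p 1) → ∀ u, u ≠ 0 → ∀ G ∈ J', eval (gm l p u) G = 0

variable {B : Subalgebra ℂ (ℕ → ℂ)}

/-- **The curves.** -/
theorem exists_gm (hB : CoefField B) {x : ℕ → Fin n → ℂ} (hx : ∀ j, LinRec B (fun m => x m j))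
    {J : Ideal (MvPolynomial (Fin n) ℂ)} (hJ : ∀ G ∈ J, ∀ᶠ m in atTop, eval (x m) G = 0) :
    ∃ s, ∀ (I : Ideal (ℕ → ℂ)) (hI : EZ ≤ I) (_ : I.IsPrime) (K : Type) [Field K]
      [Algebra ((ℕ → ℂ) ⧸ I) K] [IsFractionRing ((ℕ → ℂ) ⧸ I) K] [Algebra ℂ K]
      [IsScalarTower ℂ ((ℕ → ℂ) ⧸ I) K], ∀ j, Transcendental (cf hB hI K)
      (algebraMap ((ℕ → ℂ) ⧸ I) K (mk' I fun m => x (m + s) j)) →
      ∃ᶠ m in atTop, ∃ (l : ℕ) (p : Fin n → Polynomial ℂ),
        (∀ u, u ≠ 0 → ∀ G ∈ J, eval (gm l p u) G = 0) ∧ gm l p 1 = x (m + s) ∧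
        ∃ u, u ≠ 0 ∧ gm l p u ≠ gm l p 1 := by
  classical
  let f : Fin (n + 1) → ℕ → ℂ := Fin.cons (fun _ => 1) fun j m => x m j
  have hf : ∀ j, LinRec B (f j) := by
    intro j
    refine Fin.cases ?_ (fun i => ?_) j
    · refine ⟨1, fun k _ => if k = 0 then -1 else 1, fun k => ?_, ⟨0, zero_le_one, fun h => ?_⟩,
        Eventually.of_forall fun m => ?_⟩
      · by_cases hk : k = 0
        · simp only [if_pos hk]
          exact B.neg_mem B.one_mem
        · simp only [if_neg hk]
          exact B.one_mem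
      · obtain ⟨m, hm⟩ := h.exists
        norm_num at hm
      · simp [Finset.sum_range_succ, f]
    · exact hx i
  obtain ⟨s, N, A, U, Φ, hU, hdet, hΦ⟩ := exists_sys hB f hf
  refine ⟨s, ?_⟩
  intro I hI hIp K _ _ _ _ _ j hj
  have hdom : IsDomain ((ℕ → ℂ) ⧸ I) := Ideal.Quotient.isDomain I
  have hpt : ∀ᶠ m in atTop, ∀ i, pt U Φ m i = f i (m + s) := by
    filter_upwards [hΦ] with m hm i
    exact (hm i).symm
  have hpt0 : ∀ᶠ m in atTop, pt U Φ m 0 = 1 := by
    filter_upwards [hpt] with m hm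
    rw [hm 0]
    rfl
  obtain ⟨D, hD⟩ := der_of_transcendental hj
  have hcl : ∀ i, algebraMap ((ℕ → ℂ) ⧸ I) K (cl I fun m => eval (pt U Φ m) (X i)) =
      algebraMap ((ℕ → ℂ) ⧸ I) K (mk' I fun m => f i (m + s)) := by
    intro i
    congr 1
    change mk' I _ = _
    rw [← sub_eq_zero, ← map_sub]
    refine mk'_zero.2 (hI ?_)
    rw [mem_EZ]
    filter_upwards [hpt] with m hm
    rw [Pi.sub_apply, eval_X, hm i, sub_self]
  have hone : algebraMap ((ℕ → ℂ) ⧸ I) K (mk' I fun m => f 0 (m + s)) = 1 := by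
    have h1 : (fun m => f 0 (m + s)) = (1 : ℕ → ℂ) := rfl
    rw [h1, map_one, map_one]
  obtain ⟨W, hR, h1, ⟨h, k, hQW⟩, hN⟩ := emb hB A U hU hdet hI (K := K) D
    (fun a b => map_add D a b) (fun a b => D.leibniz a b)
    (fun b hb => D.map_algebraMap (⟨_, b, hb, rfl⟩ : cf hB hI K)) Φ (X 0) (X (Fin.succ j))
    (isHomogeneous_X _ _) (isHomogeneous_X _ _) (by
      rw [hcl, hcl, hone, mul_one]
      have h2 : D (1 : K) = 0 := D.map_one_eq_zero
      rw [h2, mul_zero, sub_zero]
      have h3 : D (algebraMap ((ℕ → ℂ) ⧸ I) K (mk' I fun m => f (Fin.succ j) (m + s))) = 1 := hD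
      rw [h3]
      exact one_ne_zero) (X 0) (isHomogeneous_X _ _) (by
      filter_upwards [hpt0] with m hm
      rw [eval_X, hm]
      exact one_ne_zero) 1 (by
      filter_upwards [hpt0, eventually_shift hpt0 1] with m h2 h3
      rw [eval_X, eval_X, h2, h3]
      change (1 : ℂ) = (1 : ℕ → ℂ) m * 1
      rw [Pi.one_apply, one_mul])
  -- the ideal is finitely generated
  obtain ⟨T, hT⟩ : J.FG := IsNoetherian.noetherian J
  have hJT : ∀ᶠ m in atTop, ∀ G ∈ T, ∀ u, u ≠ 0 → evp m u (aeval W (homog G)) = 0 := by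
    rw [Finset.eventually_all]
    intro G hG
    refine hR _ ⟨_, homog_homog G⟩ ?_
    have h2 : G ∈ J := by
      rw [← hT]
      exact Ideal.subset_span hG
    filter_upwards [hpt, hpt0, eventually_shift (hJ G h2) s] with m h3 h4 h5
    have h6 : pt U Φ m 0 ≠ 0 := by
      rw [h4]
      exact one_ne_zero
    rw [eval_homog G _ h6]
    have h7 : (fun i => pt U Φ m (Fin.succ i) / pt U Φ m 0) = x (m + s) := by
      funext i
      rw [h4, div_one, h3]
      rfl
    rw [h7, h5, mul_zero]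
  have hfreq : ∃ᶠ m in atTop, evp m 1 (Polynomial.derivative (aeval W (X (Fin.succ j) :
      MvPolynomial (Fin (n + 1)) ℂ)) * aeval W (X 0 : MvPolynomial (Fin (n + 1)) ℂ) -
        aeval W (X (Fin.succ j) : MvPolynomial (Fin (n + 1)) ℂ) *
          Polynomial.derivative (aeval W (X 0 : MvPolynomial (Fin (n + 1)) ℂ))) ≠ 0 := by
    intro hcon
    apply hN
    apply hI
    rw [mem_EZ]
    filter_upwards [hcon] with m hm
    by_contra h2
    exact hm h2
  refine (hfreq.and_eventually (hpt.and (hpt0.and (hJT.and hQW)))).mono ?_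
  rintro m ⟨hm, h3, h4, h5, h6⟩
  let ev : ℕ → (Polynomial (ℕ → ℂ)) → Polynomial ℂ := fun m p =>
    p.map (Pi.evalAlgHom ℂ (fun _ : ℕ => ℂ) m : (ℕ → ℂ) →+* ℂ)
  have hev : ∀ (p : Polynomial (ℕ → ℂ)) (u : ℂ), evp m u p = (ev m p).eval u :=
    fun p u => evp_eq m u p
  have h7 : ev m (W 0) * ev m h = Polynomial.X ^ k := by
    apply Polynomial.eq_of_infinite_eval_eq
    refine Set.Infinite.mono (s := {x : ℂ | x ≠ 0}) ?_ ?_
    · intro u hu
      change Polynomial.eval u _ = Polynomial.eval u _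
      have h8 := h6 u hu
      rw [map_mul, aeval_X, eval_X, h4, one_mul, hev, hev] at h8
      rw [Polynomial.eval_mul, h8, Polynomial.eval_pow, Polynomial.eval_X]
    · exact (Set.finite_singleton (0 : ℂ)).infinite_compl
  obtain ⟨l, hl, hl'⟩ := (dvd_prime_pow Polynomial.prime_X k).1 (Dvd.intro _ h7)
  obtain ⟨c, hc, hcW⟩ : ∃ c : ℂ, c ≠ 0 ∧ ev m (W 0) = Polynomial.C c * Polynomial.X ^ l := by
    obtain ⟨c', hc'⟩ := hl'.symm
    obtain ⟨c, hc, hcc⟩ := Polynomial.isUnit_iff.1 c'.isUnit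
    exact ⟨c, hc.ne_zero, by rw [← hc', ← hcc, mul_comm]⟩
  have hW1 : ∀ i, (ev m (W i)).eval 1 = pt U Φ m i := by
    intro i
    rw [← hev]
    exact h1 i m
  have hc1 : c = 1 := by
    have h8 := hW1 0
    rw [hcW, h4, Polynomial.eval_mul, Polynomial.eval_C, Polynomial.eval_pow, Polynomial.eval_X,
      one_pow, mul_one] at h8
    exact h8
  rw [hc1, map_one, one_mul] at hcW
  refine ⟨l, fun i => ev m (W (Fin.succ i)), ?_, ?_, ?_⟩
  · intro u hu G hG
    have h9 : ∀ G ∈ (T : Set (MvPolynomial (Fin n) ℂ)), eval (gm l (fun i => ev m (W (Fin.succ i))) u) G = 0 := by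
      intro G hG
      have h8 := h5 G hG u hu
      rw [evp_aeval] at h8
      have h10 : evp m u (W 0) = u ^ l := by
        rw [hev, hcW, Polynomial.eval_pow, Polynomial.eval_X]
      rw [eval_homog G _ (by rw [h10]; exact pow_ne_zero _ hu), h10] at h8
      have h11 := (mul_eq_zero.1 h8).resolve_left (pow_ne_zero _ (pow_ne_zero _ hu))
      rw [← h11]
      congr 2
    rw [← hT] at hG
    have h10 : Ideal.span (T : Set (MvPolynomial (Fin n) ℂ)) ≤
        RingHom.ker (eval (gm l (fun i => ev m (W (Fin.succ i))) u)) :=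
      Ideal.span_le.2 fun G hG => h9 G hG
    exact h10 hG
  · funext i
    unfold gm
    rw [one_pow, div_one, hW1, h3]
    rfl
  · by_contra hcon
    push Not at hcon
    apply hm
    have h8 : ev m (W (Fin.succ j)) = Polynomial.C ((ev m (W (Fin.succ j))).eval 1) *
        Polynomial.X ^ l := by
      apply Polynomial.eq_of_infinite_eval_eq
      refine Set.Infinite.mono (s := {x : ℂ | x ≠ 0}) ?_ ?_
      · intro u hu
        change Polynomial.eval u _ = Polynomial.eval u _
        have h9 := congrFun (hcon u hu) j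
        unfold gm at h9
        rw [one_pow, div_one, div_eq_iff (pow_ne_zero _ hu)] at h9
        rw [h9, Polynomial.eval_mul, Polynomial.eval_C, Polynomial.eval_pow, Polynomial.eval_X]
      · exact (Set.finite_singleton (0 : ℂ)).infinite_compl
    rw [aeval_X, aeval_X, hev]
    have h9 : ev m (Polynomial.derivative (W (Fin.succ j)) * W 0 -
        W (Fin.succ j) * Polynomial.derivative (W 0)) =
        Polynomial.derivative (ev m (W (Fin.succ j))) * ev m (W 0) -
          ev m (W (Fin.succ j)) * Polynomial.derivative (ev m (W 0)) := by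
      simp only [ev, Polynomial.map_sub, Polynomial.map_mul, Polynomial.derivative_map]
    rw [h9, h8, hcW, Polynomial.derivative_C_mul]
    have h10 : Polynomial.C ((ev m (W (Fin.succ j))).eval 1) *
          Polynomial.derivative (Polynomial.X ^ l : Polynomial ℂ) * Polynomial.X ^ l -
        Polynomial.C ((ev m (W (Fin.succ j))).eval 1) * Polynomial.X ^ l *
          Polynomial.derivative (Polynomial.X ^ l : Polynomial ℂ) = 0 := by ring
    rw [h10, Polynomial.eval_zero]


/-! ### algebraic coordinates -/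

/-- the coefficients: rational functions of the index -/
abbrev RB : Subalgebra ℂ (ℕ → ℂ) := ratB (fun m => (m : ℂ)) Nat.cast_injective

theorem RB_field : CoefField RB := by
  refine ratB_field Nat.cast_injective (Polynomial.X + 1) fun m => ?_
  rw [Polynomial.eval_add, Polynomial.eval_X, Polynomial.eval_one]
  push_cast
  rfl

/-- the value of a polynomial, whose coefficients are polynomials in the index, at a sequence -/
noncomputable def evs (y : ℕ → ℂ) : Polynomial (Polynomial ℂ) →+* (ℕ → ℂ) :=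
  Polynomial.eval₂RingHom (Polynomial.aeval (fun m : ℕ => (m : ℂ)) :
    Polynomial ℂ →ₐ[ℂ] (ℕ → ℂ)).toRingHom y

theorem aeval_idx (p : Polynomial ℂ) (m : ℕ) :
    (Polynomial.aeval (fun m : ℕ => (m : ℂ)) p : ℕ → ℂ) m = p.eval (m : ℂ) := by
  have := Polynomial.aeval_algHom_apply (Pi.evalAlgHom ℂ (fun _ : ℕ => ℂ) m)
    (fun m : ℕ => (m : ℂ)) p
  change Polynomial.aeval (m : ℂ) p = _ at this
  rw [Polynomial.coe_aeval_eq_eval] at this
  exact this.symm

theorem evs_C (y : ℕ → ℂ) (p : Polynomial ℂ) (m : ℕ) :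
    evs y (Polynomial.C p) m = p.eval (m : ℂ) := by
  unfold evs
  rw [Polynomial.coe_eval₂RingHom, Polynomial.eval₂_C]
  exact aeval_idx p m

theorem evs_X (y : ℕ → ℂ) : evs y Polynomial.X = y := by
  unfold evs
  rw [Polynomial.coe_eval₂RingHom, Polynomial.eval₂_X]

/-- If the coordinate is algebraic modulo every prime ideal, then it is algebraic. -/
theorem exists_alg {y : ℕ → ℂ} (h : ∀ (I : Ideal (ℕ → ℂ)) (_ : EZ ≤ I) (_ : I.IsPrime),
      ∃ P : Polynomial (Polynomial ℂ), P ≠ 0 ∧ evs y P ∈ I) :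
    ∃ P : Polynomial (Polynomial ℂ), P ≠ 0 ∧ ∀ᶠ m in atTop, evs y P m = 0 := by
  by_contra hcon
  push Not at hcon
  let T : Submonoid (ℕ → ℂ) :=
    { carrier := {f | ∃ P : Polynomial (Polynomial ℂ), P ≠ 0 ∧ f = evs y P}
      mul_mem' := by
        rintro _ _ ⟨P, hP, rfl⟩ ⟨P', hP', rfl⟩
        exact ⟨P * P', mul_ne_zero hP hP', by rw [map_mul]⟩
      one_mem' := ⟨1, one_ne_zero, by rw [map_one]⟩ }
  have hdisj : Disjoint (EZ : Set (ℕ → ℂ)) T := by
    rw [Set.disjoint_left]
    rintro f hf ⟨P, hP, rfl⟩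
    refine hcon P hP ?_
    filter_upwards [mem_EZ.1 hf] with m hm h0
    exact h0 hm
  obtain ⟨I, hIp, hI, hIT⟩ := Ideal.exists_le_prime_disjoint EZ T hdisj
  obtain ⟨P, hP, hPI⟩ := h I hI hIp
  exact Set.disjoint_left.1 hIT hPI ⟨P, hP, rfl⟩

/-- from algebraicity over the field of coefficients to a polynomial relation -/
theorem rel_of_alg {I : Ideal (ℕ → ℂ)} (hI : EZ ≤ I) (hIp : I.IsPrime) (K : Type) [Field K]
    [Algebra ((ℕ → ℂ) ⧸ I) K] [IsFractionRing ((ℕ → ℂ) ⧸ I) K] [Algebra ℂ K]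
    [IsScalarTower ℂ ((ℕ → ℂ) ⧸ I) K] {y : ℕ → ℂ}
    (h : IsAlgebraic (cf RB_field hI K) (algebraMap ((ℕ → ℂ) ⧸ I) K (mk' I y))) :
    ∃ P : Polynomial (Polynomial ℂ), P ≠ 0 ∧ evs y P ∈ I := by
  classical
  have hdom : IsDomain ((ℕ → ℂ) ⧸ I) := Ideal.Quotient.isDomain I
  set a := algebraMap ((ℕ → ℂ) ⧸ I) K with ha
  have hinj : Function.Injective a := IsFractionRing.injective _ K
  obtain ⟨P, hP0, hP⟩ := h
  -- the coefficients are rational functions
  have hc : ∀ i, ∃ (A R : Polynomial ℂ), R ≠ 0 ∧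
      ((P.coeff i : cf RB_field hI K) : K) * a (mk' I fun m => R.eval (m : ℂ)) =
        a (mk' I fun m => A.eval (m : ℂ)) := by
    intro i
    obtain ⟨b, ⟨A, R, hR, hb⟩, hbe⟩ := (P.coeff i : cf RB_field hI K).2
    refine ⟨A, R, hR, ?_⟩
    rw [hbe, ← map_mul, ← map_mul]
    congr 1
    rw [← sub_eq_zero, ← map_sub]
    refine mk'_zero.2 (hI ?_)
    rw [mem_EZ]
    filter_upwards [hb, ev_ne Nat.cast_injective hR] with m h1 h2
    rw [Pi.sub_apply, Pi.mul_apply, h1, div_mul_cancel₀ _ h2, sub_self]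
  choose A R hR hAR using hc
  -- a common denominator
  let d := P.natDegree
  let R' : ℕ → Polynomial ℂ := fun i => ∏ k ∈ (Finset.range (d + 1)).erase i, R k
  let P' : Polynomial (Polynomial ℂ) := ∑ i ∈ Finset.range (d + 1),
    Polynomial.C (A i * R' i) * Polynomial.X ^ i
  have hcoef : ∀ i ∈ Finset.range (d + 1), P'.coeff i = A i * R' i := by
    intro i hi
    simp only [P', Polynomial.finsetSum_coeff, Polynomial.coeff_C_mul_X_pow]
    rw [Finset.sum_eq_single i]
    · rw [if_pos rfl]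
    · intro k _ hk
      rw [if_neg (Ne.symm hk)]
    · intro h
      exact absurd hi h
  have hRall : (∏ k ∈ Finset.range (d + 1), R k) ≠ 0 :=
    Finset.prod_ne_zero_iff.2 fun k _ => hR k
  refine ⟨P', ?_, ?_⟩
  · intro h0
    have h1 : (P.coeff d : cf RB_field hI K) ≠ 0 := by
      change P.leadingCoeff ≠ 0
      rwa [Ne, Polynomial.leadingCoeff_eq_zero]
    have h2 := hcoef d (Finset.self_mem_range_succ d)
    rw [h0, Polynomial.coeff_zero] at h2
    have h3 : A d = 0 := by
      rcases mul_eq_zero.1 h2.symm with h4 | h4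
      · exact h4
      · exact absurd h4 (Finset.prod_ne_zero_iff.2 fun k _ => hR k)
    have h4 := hAR d
    rw [h3] at h4
    have h5 : (fun m : ℕ => (0 : Polynomial ℂ).eval (m : ℂ)) = 0 := by
      funext m
      rw [Polynomial.eval_zero]
      rfl
    rw [h5, map_zero, map_zero] at h4
    rcases mul_eq_zero.1 h4 with h6 | h6
    · exact h1 (Subtype.ext h6)
    · have h7 : mk' I (fun m => (R d).eval (m : ℂ)) = 0 := hinj (by rw [h6, map_zero])
      have h8 := mk'_zero.1 h7
      have h9 : (1 : ℕ → ℂ) ∈ I := by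
        have h10 : (fun m : ℕ => ((R d).eval (m : ℂ))⁻¹ * (R d).eval (m : ℂ)) ∈ I :=
          I.mul_mem_left (fun m : ℕ => ((R d).eval (m : ℂ))⁻¹) h8
        have h11 : (1 : ℕ → ℂ) - (fun m : ℕ => ((R d).eval (m : ℂ))⁻¹ * (R d).eval (m : ℂ)) ∈ I := by
          apply hI
          rw [mem_EZ]
          filter_upwards [ev_ne Nat.cast_injective (hR d)] with m hm
          rw [Pi.sub_apply, Pi.one_apply, inv_mul_cancel₀ hm, sub_self]
        have h12 := I.add_mem h11 h10
        rwa [sub_add_cancel] at h12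
      exact hIp.ne_top ((Ideal.eq_top_iff_one I).2 h9)
  · rw [← mk'_zero (I := I)]
    apply hinj
    rw [map_zero]
    have h1 : ∀ p : Polynomial ℂ, evs y (Polynomial.C p) = fun m : ℕ => p.eval (m : ℂ) := by
      intro p
      funext m
      exact evs_C y p m
    have h2 : a (mk' I (evs y P')) = ∑ i ∈ Finset.range (d + 1),
        a (mk' I fun m => (A i * R' i).eval (m : ℂ)) * a (mk' I y) ^ i := by
      simp only [P']
      rw [map_sum, map_sum, map_sum]
      refine Finset.sum_congr rfl fun i _ => ?_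
      rw [map_mul, map_pow, evs_X, map_mul, map_mul, map_pow, map_pow, h1]
    have h3 : ∀ i ∈ Finset.range (d + 1), a (mk' I fun m => (A i * R' i).eval (m : ℂ)) =
        ((P.coeff i : cf RB_field hI K) : K) *
          a (mk' I fun m => (∏ k ∈ Finset.range (d + 1), R k).eval (m : ℂ)) := by
      intro i hi
      have h4 : (fun m : ℕ => (A i * R' i).eval (m : ℂ)) =
          (fun m : ℕ => (A i).eval (m : ℂ)) * fun m : ℕ => (R' i).eval (m : ℂ) := by
        funext m
        rw [Pi.mul_apply, Polynomial.eval_mul]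
      have h5 : (fun m : ℕ => (∏ k ∈ Finset.range (d + 1), R k).eval (m : ℂ)) =
          (fun m : ℕ => (R i).eval (m : ℂ)) * fun m : ℕ => (R' i).eval (m : ℂ) := by
        funext m
        rw [Pi.mul_apply, ← Polynomial.eval_mul, Finset.mul_prod_erase _ _ hi]
      rw [h4, h5, map_mul, map_mul, map_mul, map_mul, ← hAR i, mul_assoc]
    rw [h2, Finset.sum_congr rfl fun i hi => by rw [h3 i hi]]
    have h6 : ∑ i ∈ Finset.range (d + 1), ((P.coeff i : cf RB_field hI K) : K) *
        a (mk' I fun m => (∏ k ∈ Finset.range (d + 1), R k).eval (m : ℂ)) * a (mk' I y) ^ i =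
        a (mk' I fun m => (∏ k ∈ Finset.range (d + 1), R k).eval (m : ℂ)) *
          Polynomial.aeval (a (mk' I y)) P := by
      rw [Polynomial.aeval_eq_sum_range, Finset.mul_sum]
      refine Finset.sum_congr rfl fun i _ => ?_
      rw [Algebra.smul_def]
      change _ = _ * (((P.coeff i : cf RB_field hI K) : K) * _)
      ring
    rw [h6, hP, mul_zero]

/-- **Algebraic coordinates.** If the nonconstant curves with the source `G_m` in the variety of `J`
are in the variety of `J'`, then P-recursive sequences of points outside of it have algebraic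
coordinates. -/
theorem alg_coord {x : ℕ → Fin n → ℂ} (hx : ∀ j, LinRec RB (fun m => x m j))
    {J J' : Ideal (MvPolynomial (Fin n) ℂ)} (hJ : ∀ G ∈ J, ∀ᶠ m in atTop, eval (x m) G = 0)
    (hJ' : ∀ᶠ m in atTop, ∃ G ∈ J', eval (x m) G ≠ 0) (hG : GmIn J J') :
    ∃ s, ∀ j, ∃ P : Polynomial (Polynomial ℂ), P ≠ 0 ∧
      ∀ᶠ m in atTop, evs (fun m => x (m + s) j) P m = 0 := by
  classical
  obtain ⟨s, hs⟩ := exists_gm RB_field hx hJ
  refine ⟨s, fun j => exists_alg fun I hI hIp => ?_⟩
  have hdom : IsDomain ((ℕ → ℂ) ⧸ I) := Ideal.Quotient.isDomain I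
  apply rel_of_alg hI hIp (FractionRing ((ℕ → ℂ) ⧸ I))
  by_contra hcon
  obtain ⟨m, ⟨l, p, h1, h2, h3⟩, G, hG', hne⟩ :=
    ((hs I hI hIp (FractionRing ((ℕ → ℂ) ⧸ I)) j hcon).and_eventually
      (eventually_shift hJ' s)).exists
  apply hne
  rw [← h2]
  exact hG l p h1 h3 1 one_ne_zero G hG'

end Pool.Agent.TH143.HE
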