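import Mathlib

/-!
The algebraic closure of a field in a finitely generated extension is finite.
-/

set_option autoImplicit false

namespace Pool.Agent.TH143.HE

open MvPolynomial

variable {F K : Type} [Field F] [Field K] [Algebra F K]

/-- linear disjointness -/
theorem indep_poly {ι κ : Type} {x : ι → K} (hx : AlgebraicIndependent F x)
    (s : Finset κ) (v : κ → algebraicClosure F K)
    (hv : LinearIndependent F (fun i : s => v i)) (G : κ → MvPolynomial ι F)
    (h : ∑ k ∈ s, aeval x (G k) * (v k : K) = 0) : ∀ k ∈ s, G k = 0 := by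
  classical
  have hx' : AlgebraicIndependent (algebraicClosure F K) x := hx.algebraicClosure
  let H : MvPolynomial ι (algebraicClosure F K) :=
    ∑ k ∈ s, C (v k) * MvPolynomial.map (algebraMap F (algebraicClosure F K)) (G k)
  have hH : aeval x H = 0 := by
    simp only [H, map_sum, map_mul, aeval_C]
    rw [← h]
    refine Finset.sum_congr rfl fun k _ => ?_
    rw [MvPolynomial.aeval_map_algebraMap, mul_comm]
    rfl
  have hH0 : H = 0 := hx' (by rw [hH, map_zero])
  intro k hk
  ext α
  rw [MvPolynomial.coeff_zero]
  have h1 := congrArg (fun P => MvPolynomial.coeff α P) hH0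
  simp only [H, MvPolynomial.coeff_sum, MvPolynomial.coeff_C_mul, MvPolynomial.coeff_map,
    MvPolynomial.coeff_zero] at h1
  have h2 : ∑ i : s, (G i).coeff α • v i = 0 := by
    rw [Finset.sum_coe_sort s (fun i => (G i).coeff α • v i), ← h1]
    refine Finset.sum_congr rfl fun i _ => ?_
    rw [Algebra.smul_def, mul_comm]
  exact linearIndependent_iff'.1 hv Finset.univ (fun i => (G i).coeff α) h2 ⟨k, hk⟩
    (Finset.mem_univ _)

/-- **Finiteness.** -/
theorem finite_algClosure [Algebra.EssFiniteType F K] :
    FiniteDimensional F (algebraicClosure F K) := by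
  classical
  obtain ⟨t, ht⟩ : ∃ t : Finset K, IsTranscendenceBasis F ((↑) : t → K) := by
    have ⟨s, hs⟩ := IntermediateField.fg_top F K
    have : Algebra.IsAlgebraic (Algebra.adjoin F (s : Set K)) K := by
      rw [← IntermediateField.isAlgebraic_adjoin_iff_top, hs, Algebra.isAlgebraic_iff_isIntegral]
      refine Algebra.isIntegral_of_surjective IntermediateField.topEquiv.surjective
    have ⟨t, hts, ht⟩ := exists_isTranscendenceBasis_subset (R := F) (s : Set K)
    lift t to Finset K using s.finite_toSet.subset hts
    exact ⟨t, ht⟩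
  have hfin : Module.Finite (IntermediateField.adjoin F (t : Set K)) K := by
    apply +allowSynthFailures Algebra.finite_of_essFiniteType_of_isAlgebraic
    · exact .of_comp F _ _
    · convert! ht.isAlgebraic_field <;> simp
  set F1 := IntermediateField.adjoin F (t : Set K) with hF1
  have hrank : Module.rank F (algebraicClosure F K) ≤ (Module.finrank F1 K : ℕ) := by
    apply rank_le
    intro s hs
    by_contra hcon
    rw [not_le] at hcon
    -- a linear relation over `F1`
    obtain ⟨g, hg, k0, hk0⟩ : ∃ g : s → F1, ∑ i, g i • ((i : algebraicClosure F K) : K) = 0 ∧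
        ∃ i, g i ≠ 0 := by
      have h1 : ¬ LinearIndependent F1 (fun i : s => ((i : algebraicClosure F K) : K)) := by
        intro h
        have h2 := h.fintype_card_le_finrank
        rw [Fintype.card_coe] at h2
        omega
      exact Fintype.not_linearIndependent_iff.1 h1
    -- polynomials
    have hfrac : ∀ i : s, ∃ r q : MvPolynomial t F, (g i : K) * aeval (fun x : t => (x : K)) q =
        aeval (fun x : t => (x : K)) r ∧ q ≠ 0 := by
      intro i
      have h1 : (g i : K) ∈ IntermediateField.adjoin F (Set.range fun x : t => (x : K)) := by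
        have h2 : (Set.range fun x : t => (x : K)) = (t : Set K) := by
          ext z
          simp
        rw [h2]
        exact (g i).2
      obtain ⟨r, q, hrq⟩ := (IntermediateField.mem_adjoin_range_iff F _ _).1 h1
      by_cases hq : aeval (fun x : t => (x : K)) q = 0
      · refine ⟨0, 1, ?_, one_ne_zero⟩
        rw [hrq, hq, div_zero, zero_mul, map_zero]
      · refine ⟨r, q, ?_, fun h0 => hq (by rw [h0, map_zero])⟩
        rw [hrq, div_mul_cancel₀ _ hq]
    choose r q hrq hq using hfrac
    have hinj : ∀ P : MvPolynomial t F, aeval (fun x : t => (x : K)) P = 0 → P = 0 :=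
      fun P hP => ht.1 (by rw [map_zero]; exact hP)
    let G : algebraicClosure F K → MvPolynomial t F := fun v =>
      if h : v ∈ s then r ⟨v, h⟩ * ∏ i ∈ Finset.univ.erase (⟨v, h⟩ : s), q i else 0
    have hG : ∀ i : s, aeval (fun x : t => (x : K)) (G i) =
        (g i : K) * aeval (fun x : t => (x : K)) (∏ i, q i) := by
      intro i
      simp only [G]
      rw [dif_pos i.2, ← Finset.mul_prod_erase _ _ (Finset.mem_univ i), map_mul, map_mul,
        ← hrq]
      ring
    have h1 : ∑ v ∈ s, aeval (fun x : t => (x : K)) (G v) * (v : K) = 0 := by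
      rw [← Finset.sum_coe_sort s (fun v => aeval (fun x : t => (x : K)) (G v) * (v : K))]
      have h2 : ∀ i : s, aeval (fun x : t => (x : K)) (G i) * ((i : algebraicClosure F K) : K) =
          aeval (fun x : t => (x : K)) (∏ i, q i) * (g i • ((i : algebraicClosure F K) : K)) := by
        intro i
        rw [hG, Algebra.smul_def]
        change _ = _ * ((g i : K) * _)
        ring
      rw [Finset.sum_congr rfl fun i _ => h2 i, ← Finset.mul_sum, hg, mul_zero]
    have h3 := indep_poly ht.1 s (fun v => v) hs G h1 k0 k0.2
    have h4 := hG k0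
    rw [h3, map_zero] at h4
    rcases mul_eq_zero.1 h4.symm with h5 | h5
    · exact hk0 (Subtype.ext h5)
    · exact Finset.prod_ne_zero_iff.2 (fun i _ => hq i) (hinj _ h5)
  exact Module.rank_lt_aleph0_iff.1 (hrank.trans_lt Cardinal.natCast_lt_aleph0)

end Pool.Agent.TH143.HE
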