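import Pool.Agent.TH143.HE.Unip
import Pool.Agent.TH143.HE.Aff

/-!
P-recursive sequences with algebraic values: they are quasi-rational.
-/

set_option autoImplicit false

namespace Pool.Agent.TH143.HE

open Filter Pool.Agent.TH143.DE

/-- sequences modulo the eventually zero sequences -/
abbrev GG : Type := (ℕ → ℂ) ⧸ EZ

/-- the class of a sequence -/
noncomputable def gg : (ℕ → ℂ) →ₐ[ℂ] GG := mk' EZ

theorem gg_eq {f g : ℕ → ℂ} : gg f = gg g ↔ ∀ᶠ m in atTop, f m = g m := by
  rw [← sub_eq_zero, ← map_sub]
  have h1 : gg (f - g) = 0 ↔ f - g ∈ EZ := mk'_zero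
  rw [h1, mem_EZ]
  simp only [Pi.sub_apply, sub_eq_zero]

theorem gg_surj : Function.Surjective gg := Ideal.Quotient.mk_surjective

instance : IsReduced GG := by
  refine ⟨fun x hx => ?_⟩
  obtain ⟨f, rfl⟩ := gg_surj x
  obtain ⟨k, hk⟩ := hx
  rw [← map_pow, ← map_zero gg, gg_eq] at hk
  rw [← map_zero gg, gg_eq]
  filter_upwards [hk] with m hm
  rw [Pi.pow_apply, Pi.zero_apply] at hm
  exact eq_zero_of_pow_eq_zero hm

/-- polynomials in the index -/
noncomputable def evG : Polynomial ℂ →ₐ[ℂ] GG :=
  gg.comp (Polynomial.aeval fun m : ℕ => (m : ℂ))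

theorem evG_apply (p : Polynomial ℂ) : evG p = gg fun m : ℕ => p.eval (m : ℂ) := by
  change gg (Polynomial.aeval (fun m : ℕ => (m : ℂ)) p) = _
  congr 1
  funext m
  exact aeval_idx p m

theorem evG_unit (p : nonZeroDivisors (Polynomial ℂ)) : IsUnit (evG p) := by
  have hp : (p : Polynomial ℂ) ≠ 0 := nonZeroDivisors.ne_zero p.2
  rw [evG_apply]
  refine IsUnit.of_mul_eq_one (gg fun m : ℕ => ((p : Polynomial ℂ).eval (m : ℂ))⁻¹) ?_
  rw [← map_mul, ← map_one gg, gg_eq]
  filter_upwards [ev_ne Nat.cast_injective hp] with m hm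
  rw [Pi.mul_apply, Pi.one_apply, mul_inv_cancel₀ hm]

/-- rational functions of the index -/
noncomputable def psi : RF →+* GG :=
  IsLocalization.lift (M := nonZeroDivisors (Polynomial ℂ)) (g := (evG : Polynomial ℂ →+* GG))
    evG_unit

theorem psi_poly (p : Polynomial ℂ) : psi (algebraMap (Polynomial ℂ) RF p) = evG p :=
  IsLocalization.lift_eq _ p

noncomputable instance algGG : Algebra RF GG := psi.toAlgebra

theorem algGG_apply (r : RF) : algebraMap RF GG r = psi r := rfl

instance : IsScalarTower ℂ RF GG := by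
  refine IsScalarTower.of_algebraMap_eq fun c => ?_
  rw [algGG_apply, IsScalarTower.algebraMap_apply ℂ (Polynomial ℂ) RF, psi_poly]
  exact (evG.commutes c).symm

/-- the shift of sequences -/
def shS : (ℕ → ℂ) →+* (ℕ → ℂ) := RingHom.pi fun m => Pi.evalRingHom _ (m + 1)

theorem shS_apply (f : ℕ → ℂ) (m : ℕ) : shS f m = f (m + 1) := rfl

/-- the shift of germs -/
noncomputable def shG : GG →+* GG :=
  Ideal.quotientMap EZ shS fun f hf => by
    rw [Ideal.mem_comap]
    exact eventually_shift hf 1

theorem shG_gg (f : ℕ → ℂ) : shG (gg f) = gg fun m => f (m + 1) := rfl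

theorem shG_inj : Function.Injective shG := by
  rw [injective_iff_map_eq_zero]
  intro x hx
  obtain ⟨f, rfl⟩ := gg_surj x
  rw [shG_gg, ← map_zero gg, gg_eq] at hx
  rw [← map_zero gg, gg_eq]
  obtain ⟨m0, hm0⟩ := eventually_atTop.1 hx
  refine eventually_atTop.2 ⟨m0 + 1, fun m hm => ?_⟩
  have := hm0 (m - 1) (by omega)
  rwa [Nat.sub_add_cancel (by omega)] at this

theorem shG_psi (r : RF) : shG (algebraMap RF GG r) = algebraMap RF GG (shF r) := by
  have h1 : shG.comp psi = psi.comp shF := by
    apply IsLocalization.ringHom_ext (nonZeroDivisors (Polynomial ℂ))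
    ext p
    · change shG (psi (algebraMap (Polynomial ℂ) RF (Polynomial.C p))) =
        psi (shF (algebraMap (Polynomial ℂ) RF (Polynomial.C p)))
      rw [shF_poly, psi_poly, psi_poly, evG_apply, evG_apply, shG_gg, sh0_apply]
      simp
    · change shG (psi (algebraMap (Polynomial ℂ) RF Polynomial.X)) =
        psi (shF (algebraMap (Polynomial ℂ) RF Polynomial.X))
      rw [shF_poly, psi_poly, psi_poly, evG_apply, evG_apply, shG_gg, sh0_apply]
      simp
  exact RingHom.congr_fun h1 r

theorem shG_pow (f : ℕ → ℂ) (i : ℕ) : (shG ^ i) (gg f) = gg fun m => f (m + i) := by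
  induction i generalizing f with
  | zero => rfl
  | succ i ih =>
    rw [pow_succ, RingHom.mul_def, RingHom.comp_apply, shG_gg, ih]
    congr 1

theorem psi_of_RB {b : ℕ → ℂ} (hb : b ∈ RB) : ∃ r : RF, psi r = gg b := by
  obtain ⟨P, R, hR, h⟩ := hb
  refine ⟨algebraMap _ RF P / algebraMap _ RF R, ?_⟩
  have hu := evG_unit ⟨R, mem_nonZeroDivisors_of_ne_zero hR⟩
  apply hu.mul_right_cancel
  change _ * evG R = _ * evG R
  have hR' : algebraMap (Polynomial ℂ) RF R ≠ 0 := by
    rwa [Ne, map_eq_zero_iff _ (RatFunc.algebraMap_injective ℂ)]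
  rw [← psi_poly R, ← map_mul, div_mul_cancel₀ _ hR', psi_poly, psi_poly, evG_apply, evG_apply,
    ← map_mul, gg_eq]
  filter_upwards [h, ev_ne Nat.cast_injective hR] with m h1 h2
  rw [Pi.mul_apply, h1, div_mul_cancel₀ _ h2]

/-- the finite difference algebra of a P-recursive algebraic sequence -/
theorem exists_S {f : ℕ → ℂ} (hf : LinRec RB f) {P : Polynomial (Polynomial ℂ)} (hP : P ≠ 0)
    (hP0 : ∀ᶠ m in atTop, evs f P m = 0) :
    ∃ S : Subalgebra RF GG, gg f ∈ S ∧ (∀ x ∈ S, shG x ∈ S) ∧ Module.Finite RF S := by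
  classical
  -- integrality
  have hint : IsIntegral RF (gg f) := by
    rw [← isAlgebraic_iff_isIntegral]
    refine ⟨P.map (algebraMap (Polynomial ℂ) RF), ?_, ?_⟩
    · rwa [Ne, Polynomial.map_eq_zero_iff (RatFunc.algebraMap_injective ℂ)]
    · rw [Polynomial.aeval_def, Polynomial.eval₂_map]
      have h1 : (algebraMap RF GG).comp (algebraMap (Polynomial ℂ) RF) =
          (gg : (ℕ → ℂ) →+* GG).comp (Polynomial.aeval (fun m : ℕ => (m : ℂ)) :
            Polynomial ℂ →ₐ[ℂ] (ℕ → ℂ)).toRingHom := by
        exact RingHom.ext fun p => psi_poly p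
      rw [h1]
      have h2 : Polynomial.eval₂ ((gg : (ℕ → ℂ) →+* GG).comp (Polynomial.aeval
          (fun m : ℕ => (m : ℂ)) : Polynomial ℂ →ₐ[ℂ] (ℕ → ℂ)).toRingHom) (gg f) P =
          gg (evs f P) := by
        unfold evs
        rw [Polynomial.coe_eval₂RingHom]
        exact (Polynomial.hom_eval₂ P _ (gg : (ℕ → ℂ) →+* GG) f).symm
      rw [h2, ← map_zero gg, gg_eq]
      exact hP0
  have hintσ : ∀ i, IsIntegral RF ((shG ^ i) (gg f)) := by
    intro i
    induction i with
    | zero => exact hint
    | succ i ih =>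
      rw [pow_succ', RingHom.mul_def, RingHom.comp_apply]
      obtain ⟨q, hq, hq0⟩ := ih
      refine ⟨q.map shF, hq.map _, ?_⟩
      have h1 := congrArg shG hq0
      rw [map_zero, Polynomial.hom_eval₂] at h1
      rw [Polynomial.eval₂_map, ← h1]
      congr 1
      ext r
      exact (shG_psi r).symm
  -- the recurrence
  obtain ⟨r, a, ha, ⟨k0, hk0, hn⟩, h⟩ := hf
  choose c hc using fun k => psi_of_RB (ha k)
  have hrel : ∑ k ∈ Finset.range (r + 1), algebraMap RF GG (c k) * (shG ^ k) (gg f) = 0 := by
    have h1 : ∀ k, algebraMap RF GG (c k) * (shG ^ k) (gg f) = gg (fun m => a k m * f (m + k)) := by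
      intro k
      rw [algGG_apply, hc, shG_pow, ← map_mul]
      rfl
    rw [Finset.sum_congr rfl fun k _ => h1 k, ← map_sum, ← map_zero gg, gg_eq]
    filter_upwards [h] with m hm
    rw [Finset.sum_apply]
    exact hm
  have hck0 : c k0 ≠ 0 := by
    intro h0
    apply hn
    have h1 := hc k0
    rw [h0, map_zero, ← map_zero gg, gg_eq] at h1
    filter_upwards [h1] with m hm
    exact hm.symm
  let T := (Finset.range (r + 1)).filter fun k => c k ≠ 0
  have hT : T.Nonempty := ⟨k0, Finset.mem_filter.2 ⟨Finset.mem_range.2 (by omega), hck0⟩⟩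
  set t := T.max' hT with ht
  have htT := Finset.mem_filter.1 (T.max'_mem hT)
  have hout : ∀ k ∈ Finset.range (r + 1), t < k → c k = 0 := by
    intro k hk hkt
    by_contra hne
    exact absurd (T.le_max' k (Finset.mem_filter.2 ⟨hk, hne⟩)) (not_le.2 hkt)
  have hct : c t ≠ 0 := htT.2
  let s : Set GG := (fun i => (shG ^ i) (gg f)) '' (Set.Iic t)
  let S := Algebra.adjoin RF s
  have hgen : ∀ i ≤ t, (shG ^ i) (gg f) ∈ S := fun i hi => Algebra.subset_adjoin ⟨i, hi, rfl⟩
  have htop : (shG ^ t) (gg f) = ∑ k ∈ Finset.range t,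
      algebraMap RF GG (-(c t)⁻¹ * c k) * (shG ^ k) (gg f) := by
    have h1 : ∑ k ∈ Finset.range (t + 1), algebraMap RF GG (c k) * (shG ^ k) (gg f) = 0 := by
      rw [← hrel]
      apply Finset.sum_subset
      · intro k hk
        have h2 := Finset.mem_range.1 htT.1
        have h3 := Finset.mem_range.1 hk
        exact Finset.mem_range.2 (by omega)
      · intro k hk hk'
        rw [hout k hk (by
          by_contra h4
          exact hk' (Finset.mem_range.2 (by omega))), map_zero, zero_mul]
    rw [Finset.sum_range_succ] at h1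
    have h2 : algebraMap RF GG (-(c t)⁻¹) * (∑ k ∈ Finset.range t,
        algebraMap RF GG (c k) * (shG ^ k) (gg f)) =
        ∑ k ∈ Finset.range t, algebraMap RF GG (-(c t)⁻¹ * c k) * (shG ^ k) (gg f) := by
      rw [Finset.mul_sum]
      exact Finset.sum_congr rfl fun k _ => by rw [map_mul, mul_assoc]
    rw [← h2]
    have h3 : algebraMap RF GG (-(c t)⁻¹) * algebraMap RF GG (c t) = -1 := by
      rw [← map_mul, neg_mul, inv_mul_cancel₀ hct, map_neg, map_one]
    linear_combination (-algebraMap RF GG (-(c t)⁻¹)) * h1 + (shG ^ t) (gg f) * h3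
  have hsS : ∀ x ∈ S, shG x ∈ S := by
    intro x hx
    induction hx using Algebra.adjoin_induction with
    | mem x hx =>
      obtain ⟨i, hi, rfl⟩ := hx
      change shG ((shG ^ i) (gg f)) ∈ S
      have h1 : shG ((shG ^ i) (gg f)) = (shG ^ (i + 1)) (gg f) := by
        rw [pow_succ', RingHom.mul_def, RingHom.comp_apply]
      rcases Nat.lt_or_ge i t with h2 | h2
      · rw [h1]
        exact hgen _ h2
      · have h3 : i = t := le_antisymm hi h2
        rw [h3, htop, map_sum]
        refine S.sum_mem fun k hk => ?_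
        rw [map_mul, shG_psi]
        have h4 : shG ((shG ^ k) (gg f)) = (shG ^ (k + 1)) (gg f) := by
          rw [pow_succ', RingHom.mul_def, RingHom.comp_apply]
        rw [h4]
        exact S.mul_mem (S.algebraMap_mem _) (hgen _ (Finset.mem_range.1 hk))
    | algebraMap r =>
      rw [shG_psi]
      exact S.algebraMap_mem _
    | add x y _ _ hx hy =>
      rw [map_add]
      exact S.add_mem hx hy
    | mul x y _ _ hx hy =>
      rw [map_mul]
      exact S.mul_mem hx hy
  refine ⟨S, hgen 0 (Nat.zero_le _), hsS, ?_⟩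
  refine Module.Finite.iff_fg.2 (fg_adjoin_of_finite ((Set.finite_Iic t).image _) ?_)
  rintro _ ⟨i, _, rfl⟩
  exact hintσ i


/-- the iterated difference -/
def dk (k : ℕ) (g : ℕ → ℂ) : ℕ → ℂ := fun m => g (m + k) - g m

theorem quasi_poly {k : ℕ} (hk : 0 < k) : ∀ (M : ℕ) (g : ℕ → ℂ),
    (∀ᶠ m in atTop, (dk k)^[M] g m = 0) →
    ∃ q : ℕ → Polynomial ℂ, ∀ᶠ m in atTop, g m = (q (m % k)).eval (m : ℂ) := by
  intro M
  induction M with
  | zero =>
    intro g hg
    exact ⟨fun _ => 0, by
      filter_upwards [hg] with m hm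
      rw [Polynomial.eval_zero]
      exact hm⟩
  | succ M ih =>
    intro g hg
    obtain ⟨q, hq⟩ := ih (dk k g) hg
    -- solve the difference equation
    have hsolve : ∀ p : Polynomial ℂ, ∃ P : Polynomial ℂ,
        P.comp (Polynomial.X + Polynomial.C (k : ℂ)) - P = p := by
      have hk' : (k : ℂ) ≠ 0 := by exact_mod_cast hk.ne'
      intro p
      induction hd : p.natDegree using Nat.strong_induction_on generalizing p with
      | _ d ihd =>
        -- the leading term
        set a := p.coeff d with ha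
        set P0 : Polynomial ℂ := Polynomial.C (a / ((d + 1) * k)) * Polynomial.X ^ (d + 1) with hP0
        set p1 := p - (P0.comp (Polynomial.X + Polynomial.C (k : ℂ)) - P0) with hp1
        have hcoef : ∀ i, d ≤ i → p1.coeff i = 0 := by
          intro i hi
          rw [hp1, hP0, Polynomial.mul_comp, Polynomial.C_comp, Polynomial.pow_comp,
            Polynomial.X_comp, Polynomial.coeff_sub, Polynomial.coeff_sub, Polynomial.coeff_C_mul,
            Polynomial.coeff_C_mul, Polynomial.coeff_X_add_C_pow, Polynomial.coeff_X_pow]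
          rcases Nat.lt_or_ge d i with h1 | h1
          · rw [Polynomial.coeff_eq_zero_of_natDegree_lt (by omega)]
            rcases Nat.lt_or_ge (d + 1) i with h2 | h2
            · rw [Nat.choose_eq_zero_of_lt h2, if_neg (by omega)]
              simp
            · have h3 : i = d + 1 := by omega
              rw [h3, if_pos rfl, Nat.sub_self, Nat.choose_self]
              simp
          · have h2 : i = d := le_antisymm h1 hi
            rw [h2, if_neg (by omega), Nat.add_sub_cancel_left, Nat.choose_succ_self_right]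
            have h3 : ((d : ℂ) + 1) ≠ 0 := by exact_mod_cast Nat.succ_ne_zero d
            push_cast
            rw [← ha]
            field_simp
            ring
        rcases Nat.eq_zero_or_pos d with hd0 | hd0
        · have h1 : p1 = 0 := by
            ext i
            rw [hcoef i (by omega), Polynomial.coeff_zero]
          refine ⟨P0, ?_⟩
          rw [hp1, sub_eq_zero] at h1
          exact h1.symm
        · have h1 : p1.natDegree < d := by
            by_contra hcon
            rw [not_lt] at hcon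
            have h2 := hcoef p1.natDegree hcon
            have h3 : p1 = 0 := Polynomial.leadingCoeff_eq_zero.1 h2
            rw [h3, Polynomial.natDegree_zero] at hcon
            omega
          obtain ⟨P1, hP1⟩ := ihd _ h1 p1 rfl
          refine ⟨P0 + P1, ?_⟩
          rw [Polynomial.add_comp]
          have h2 : p = p1 + (P0.comp (Polynomial.X + Polynomial.C (k : ℂ)) - P0) := by
            rw [hp1]
            ring
          rw [h2, ← hP1]
          ring
    choose P hP using fun i => hsolve (q i)
    obtain ⟨m0, hm0⟩ := eventually_atTop.1 hq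
    -- the base point of each class
    let b : ℕ → ℕ := fun i => k * m0 + i
    refine ⟨fun i => P i + Polynomial.C (g (b i) - (P i).eval ((b i : ℕ) : ℂ)),
      eventually_atTop.2 ⟨k * m0 + k, ?_⟩⟩
    have key : ∀ i < k, ∀ j : ℕ, g (b i + k * j) =
        (P i).eval ((b i + k * j : ℕ) : ℂ) + (g (b i) - (P i).eval ((b i : ℕ) : ℂ)) := by
      intro i hi j
      induction j with
      | zero =>
        rw [Nat.mul_zero, Nat.add_zero]
        ring
      | succ j ih =>
        have h1 : m0 ≤ b i + k * j := by
          have : m0 ≤ k * m0 := Nat.le_mul_of_pos_left _ hk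
          simp only [b]
          omega
        have h2 := hm0 _ h1
        have h3 : (b i + k * j) % k = i := by
          simp only [b]
          rw [Nat.add_right_comm, ← Nat.mul_add, Nat.mul_add_mod, Nat.mod_eq_of_lt hi]
        rw [h3, ← hP i, Polynomial.eval_sub, Polynomial.eval_comp, Polynomial.eval_add,
          Polynomial.eval_X, Polynomial.eval_C] at h2
        unfold dk at h2
        have h4 : b i + k * (j + 1) = b i + k * j + k := by ring
        rw [h4, Nat.cast_add (b i + k * j) k]
        linear_combination h2 + ih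
    intro m hm
    have hi : m % k < k := Nat.mod_lt _ hk
    have h1 : m = b (m % k) + k * (m / k - m0) := by
      have h2 := Nat.div_add_mod m k
      have h3 : m0 ≤ m / k := by
        rw [Nat.le_div_iff_mul_le hk]
        nlinarith
      obtain ⟨t, ht⟩ := Nat.exists_eq_add_of_le h3
      simp only [b]
      rw [ht, Nat.add_sub_cancel_left]
      rw [ht] at h2
      nlinarith
    have h2 := key (m % k) hi (m / k - m0)
    rw [← h1] at h2
    rw [Polynomial.eval_add, Polynomial.eval_C]
    exact h2

/-- **P-recursive algebraic sequences are quasi-rational.** -/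
theorem quasi_rational {f : ℕ → ℂ} (hf : LinRec RB f) {P : Polynomial (Polynomial ℂ)} (hP : P ≠ 0)
    (hP0 : ∀ᶠ m in atTop, evs f P m = 0) :
    ∃ (p : Polynomial ℂ) (k : ℕ) (q : ℕ → Polynomial ℂ), p ≠ 0 ∧ 0 < k ∧
      ∀ᶠ m : ℕ in atTop, p.eval (m : ℂ) * f m = (q (m % k)).eval (m : ℂ) := by
  obtain ⟨S, hfS, hS, hfin⟩ := exists_S hf hP hP0
  have hred : IsReduced S := isReduced_of_injective S.val Subtype.val_injective
  let σ : S →+* S := shG.restrict S S fun x hx => hS x hx
  have hσc : ∀ x : S, ((σ x : S) : GG) = shG x := fun x => rfl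
  have hσ : ∀ r, σ (algebraMap RF S r) = algebraMap RF S (shF r) := by
    intro r
    apply Subtype.ext
    rw [hσc]
    exact shG_psi r
  have hinj : Function.Injective σ := by
    intro x y hxy
    apply Subtype.ext
    apply shG_inj
    rw [← hσc, ← hσc, hxy]
  obtain ⟨p, k, M, hp, hk, h⟩ := unip σ hinj hσ ⟨gg f, hfS⟩
  refine ⟨p, k, ?_⟩
  -- iterated differences
  have hpow : ∀ (j : ℕ) (x : S) (g : ℕ → ℂ), (x : GG) = gg g →
      (((sL σ hσ ^ j : Module.End ℂ S) x : S) : GG) = gg fun m => g (m + j) := by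
    intro j
    induction j with
    | zero => intro x g hx; exact hx
    | succ j ih =>
      intro x g hx
      rw [pow_succ, Module.End.mul_apply]
      rw [ih (sL σ hσ x) (fun m => g (m + 1)) (by
        change ((σ x : S) : GG) = _
        rw [hσc, hx, shG_gg])]
      congr 1
  have hd : ∀ (j : ℕ) (x : S) (g : ℕ → ℂ), (x : GG) = gg g →
      ((((sL σ hσ ^ k - 1) ^ j : Module.End ℂ S) x : S) : GG) = gg ((dk k)^[j] g) := by
    intro j
    induction j with
    | zero => intro x g hx; exact hx
    | succ j ih =>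
      intro x g hx
      rw [pow_succ, Module.End.mul_apply, Function.iterate_succ_apply]
      apply ih
      rw [LinearMap.sub_apply, AddSubgroupClass.coe_sub, hpow k x g hx, Module.End.one_apply, hx,
        ← map_sub]
      rfl
  have h1 : ((algebraMap RF S (algebraMap _ RF p) * ⟨gg f, hfS⟩ : S) : GG) =
      gg (fun m : ℕ => p.eval (m : ℂ) * f m) := by
    change algebraMap RF GG (algebraMap _ RF p) * gg f = _
    rw [algGG_apply, psi_poly, evG_apply, ← map_mul]
    rfl
  have h2 := hd M _ _ h1
  rw [h] at h2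
  have h3 : gg ((dk k)^[M] fun m : ℕ => p.eval (m : ℂ) * f m) = gg 0 := by
    rw [← h2, map_zero]
    rfl
  rw [gg_eq] at h3
  obtain ⟨q, hq⟩ := quasi_poly hk M _ h3
  exact ⟨q, hp, hk, hq⟩

end Pool.Agent.TH143.HE
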