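import Pool.Agent.TH143.HE.Germ
import Pool.Agent.TH143.HE.FinAlg

/-!
Algebraic quotients of P-recursive sequences are quasi-rational.
-/

set_option autoImplicit false

namespace Pool.Agent.TH143.HE

open Filter Pool.Agent.TH143.DE

theorem shG_pow_succ (i : ℕ) (x : GG) : shG ((shG ^ i) x) = (shG ^ (i + 1)) x := by
  rw [pow_succ', RingHom.mul_def, RingHom.comp_apply]

/-- the sequence belongs to a finitely generated algebra which is stable under the shift -/
def FGS (f : ℕ → ℂ) : Prop :=
  ∃ s : Set GG, s.Finite ∧ gg f ∈ Algebra.adjoin RF s ∧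
      ∀ x ∈ Algebra.adjoin RF s, shG x ∈ Algebra.adjoin RF s

theorem adjoin_stable {s : Set GG} (h : ∀ x ∈ s, shG x ∈ Algebra.adjoin RF s) :
    ∀ x ∈ Algebra.adjoin RF s, shG x ∈ Algebra.adjoin RF s := by
  intro x hx
  induction hx using Algebra.adjoin_induction with
  | mem x hx => exact h x hx
  | algebraMap r =>
    rw [shG_psi]
    exact Subalgebra.algebraMap_mem _ _
  | add x y _ _ hx hy =>
    rw [map_add]
    exact Subalgebra.add_mem _ hx hy
  | mul x y _ _ hx hy =>
    rw [map_mul]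
    exact Subalgebra.mul_mem _ hx hy

theorem FGS.add {f g : ℕ → ℂ} (hf : FGS f) (hg : FGS g) : FGS fun m => f m + g m := by
  obtain ⟨s1, h1, h2, h3⟩ := hf
  obtain ⟨s2, h1', h2', h3'⟩ := hg
  have hle1 : Algebra.adjoin RF s1 ≤ Algebra.adjoin RF (s1 ∪ s2) :=
    Algebra.adjoin_mono Set.subset_union_left
  have hle2 : Algebra.adjoin RF s2 ≤ Algebra.adjoin RF (s1 ∪ s2) :=
    Algebra.adjoin_mono Set.subset_union_right
  refine ⟨s1 ∪ s2, h1.union h1', ?_, adjoin_stable ?_⟩
  · have h4 : gg (fun m => f m + g m) = gg f + gg g := (map_add gg f g)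
    rw [h4]
    exact Subalgebra.add_mem _ (hle1 h2) (hle2 h2')
  · rintro x (hx | hx)
    · exact hle1 (h3 x (Algebra.subset_adjoin hx))
    · exact hle2 (h3' x (Algebra.subset_adjoin hx))

theorem FGS.const_mul {f : ℕ → ℂ} (hf : FGS f) (c : ℂ) : FGS fun m => c * f m := by
  obtain ⟨s1, h1, h2, h3⟩ := hf
  refine ⟨s1, h1, ?_, h3⟩
  have h4 : gg (fun m => c * f m) = algebraMap RF GG (algebraMap ℂ RF c) * gg f := by
    rw [← IsScalarTower.algebraMap_apply ℂ RF GG, ← Algebra.smul_def, ← map_smul]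
    rfl
  rw [h4]
  exact Subalgebra.mul_mem _ (Subalgebra.algebraMap_mem _ _) h2

theorem FGS.zero : FGS fun _ => 0 := by
  refine ⟨∅, Set.finite_empty, ?_, adjoin_stable (by simp)⟩
  have h4 : gg (fun _ : ℕ => (0 : ℂ)) = 0 := map_zero gg
  rw [h4]
  exact Subalgebra.zero_mem _

theorem FGS.sum {ι : Type} (s : Finset ι) {f : ι → ℕ → ℂ} (hf : ∀ i ∈ s, FGS (f i)) :
    FGS fun m => ∑ i ∈ s, f i m := by
  classical
  induction s using Finset.induction_on with
  | empty => simpa using FGS.zero
  | insert i s hi ih =>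
    simp only [Finset.sum_insert hi]
    exact (hf i (Finset.mem_insert_self i s)).add
      (ih fun j hj => hf j (Finset.mem_insert_of_mem hj))

/-- the finitely generated difference algebra of a P-recursive sequence -/
theorem exists_fg {f : ℕ → ℂ} (hf : LinRec RB f) : FGS f := by
  classical
  obtain ⟨r, a, ha, ⟨k0, hk0, hn⟩, h⟩ := hf
  choose c hc using fun k => psi_of_RB (ha k)
  have hrel : ∑ k ∈ Finset.range (r + 1), algebraMap RF GG (c k) * (shG ^ k) (gg f) = 0 := by
    have h1 : ∀ k, algebraMap RF GG (c k) * (shG ^ k) (gg f) = gg (fun m => a k m * f (m + k)) := by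
      intro k
      rw [algGG_apply, hc, shG_pow, ← map_mul]
      rfl
    rw [Finset.sum_congr rfl fun k _ => h1 k, ← map_sum, ← map_zero gg, gg_eq]
    filter_upwards [h] with m hm
    rw [Finset.sum_apply]
    exact hm
  have hck0 : c k0 ≠ 0 := by
    intro h0
    apply hn
    have h1 := hc k0
    rw [h0, map_zero, ← map_zero gg, gg_eq] at h1
    filter_upwards [h1] with m hm
    exact hm.symm
  let T := (Finset.range (r + 1)).filter fun k => c k ≠ 0
  have hT : T.Nonempty := ⟨k0, Finset.mem_filter.2 ⟨Finset.mem_range.2 (by omega), hck0⟩⟩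
  set t := T.max' hT with ht
  have htT := Finset.mem_filter.1 (T.max'_mem hT)
  have hout : ∀ k ∈ Finset.range (r + 1), t < k → c k = 0 := by
    intro k hk hkt
    by_contra hne
    exact absurd (T.le_max' k (Finset.mem_filter.2 ⟨hk, hne⟩)) (not_le.2 hkt)
  have hct : c t ≠ 0 := htT.2
  let s : Set GG := (fun i => (shG ^ i) (gg f)) '' (Set.Iic t)
  let S := Algebra.adjoin RF s
  have hgen : ∀ i ≤ t, (shG ^ i) (gg f) ∈ S := fun i hi => Algebra.subset_adjoin ⟨i, hi, rfl⟩
  have htop : (shG ^ t) (gg f) = ∑ k ∈ Finset.range t,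
      algebraMap RF GG (-(c t)⁻¹ * c k) * (shG ^ k) (gg f) := by
    have h1 : ∑ k ∈ Finset.range (t + 1), algebraMap RF GG (c k) * (shG ^ k) (gg f) = 0 := by
      rw [← hrel]
      apply Finset.sum_subset
      · intro k hk
        have h2 := Finset.mem_range.1 htT.1
        have h3 := Finset.mem_range.1 hk
        exact Finset.mem_range.2 (by omega)
      · intro k hk hk'
        rw [hout k hk (by
          by_contra h4
          exact hk' (Finset.mem_range.2 (by omega))), map_zero, zero_mul]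
    rw [Finset.sum_range_succ] at h1
    have h2 : algebraMap RF GG (-(c t)⁻¹) * (∑ k ∈ Finset.range t,
        algebraMap RF GG (c k) * (shG ^ k) (gg f)) =
        ∑ k ∈ Finset.range t, algebraMap RF GG (-(c t)⁻¹ * c k) * (shG ^ k) (gg f) := by
      rw [Finset.mul_sum]
      exact Finset.sum_congr rfl fun k _ => by rw [map_mul, mul_assoc]
    rw [← h2]
    have h3 : algebraMap RF GG (-(c t)⁻¹) * algebraMap RF GG (c t) = -1 := by
      rw [← map_mul, neg_mul, inv_mul_cancel₀ hct, map_neg, map_one]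
    linear_combination (-algebraMap RF GG (-(c t)⁻¹)) * h1 + (shG ^ t) (gg f) * h3
  refine ⟨s, (Set.finite_Iic t).image _, hgen 0 (Nat.zero_le _), ?_⟩
  intro x hx
  induction hx using Algebra.adjoin_induction with
  | mem x hx =>
    obtain ⟨i, hi, rfl⟩ := hx
    change shG ((shG ^ i) (gg f)) ∈ S
    rcases Nat.lt_or_ge i t with h2 | h2
    · rw [shG_pow_succ]
      exact hgen _ h2
    · have h3 : i = t := le_antisymm hi h2
      rw [h3, htop, map_sum]
      refine S.sum_mem fun k hk => ?_
      rw [map_mul, shG_psi, shG_pow_succ]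
      exact S.mul_mem (S.algebraMap_mem _) (hgen _ (Finset.mem_range.1 hk))
  | algebraMap r =>
    rw [shG_psi]
    exact S.algebraMap_mem _
  | add x y _ _ hx hy =>
    rw [map_add]
    exact S.add_mem hx hy
  | mul x y _ _ hx hy =>
    rw [map_mul]
    exact S.mul_mem hx hy

/-- relations give integral elements -/
theorem int_of_rel {f : ℕ → ℂ} {P : Polynomial (Polynomial ℂ)} (hP : P ≠ 0)
    (hP0 : ∀ᶠ m in atTop, evs f P m = 0) (i : ℕ) : IsIntegral RF ((shG ^ i) (gg f)) := by
  induction i with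
  | zero =>
    change IsIntegral RF (gg f)
    rw [← isAlgebraic_iff_isIntegral]
    refine ⟨P.map (algebraMap (Polynomial ℂ) RF), ?_, ?_⟩
    · rwa [Ne, Polynomial.map_eq_zero_iff (RatFunc.algebraMap_injective ℂ)]
    · rw [Polynomial.aeval_def, Polynomial.eval₂_map]
      have h1 : (algebraMap RF GG).comp (algebraMap (Polynomial ℂ) RF) =
          (gg : (ℕ → ℂ) →+* GG).comp (Polynomial.aeval (fun m : ℕ => (m : ℂ)) :
            Polynomial ℂ →ₐ[ℂ] (ℕ → ℂ)).toRingHom := by
        exact RingHom.ext fun p => psi_poly p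
      rw [h1]
      have h2 : Polynomial.eval₂ ((gg : (ℕ → ℂ) →+* GG).comp (Polynomial.aeval
          (fun m : ℕ => (m : ℂ)) : Polynomial ℂ →ₐ[ℂ] (ℕ → ℂ)).toRingHom) (gg f) P =
          gg (evs f P) := by
        unfold evs
        rw [Polynomial.coe_eval₂RingHom]
        exact (Polynomial.hom_eval₂ P _ (gg : (ℕ → ℂ) →+* GG) f).symm
      rw [h2, ← map_zero gg, gg_eq]
      exact hP0
  | succ i ih =>
    rw [← shG_pow_succ]
    obtain ⟨q, hq, hq0⟩ := ih
    refine ⟨q.map shF, hq.map _, ?_⟩
    have h1 := congrArg shG hq0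
    rw [map_zero, Polynomial.hom_eval₂] at h1
    rw [Polynomial.eval₂_map, ← h1]
    congr 1
    ext r
    exact (shG_psi r).symm

/-- the field of a prime ideal -/
theorem exists_theta (P : Ideal GG) (hP : P.IsPrime) :
    ∃ (K : Type) (_ : Field K) (_ : Algebra RF K) (θ : GG →ₐ[RF] K), ∀ x, θ x = 0 ↔ x ∈ P := by
  let K := FractionRing (GG ⧸ P)
  let a : (GG ⧸ P) →ₐ[RF] K := IsScalarTower.toAlgHom RF (GG ⧸ P) K
  have ha : Function.Injective a := IsFractionRing.injective (GG ⧸ P) K
  refine ⟨K, inferInstance, inferInstance, a.comp (Ideal.Quotient.mkₐ RF P), fun x => ?_⟩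
  rw [AlgHom.comp_apply, map_eq_zero_iff a ha]
  exact Ideal.Quotient.eq_zero_iff_mem

/-- **The finite difference algebra of an algebraic quotient.** -/
theorem exists_S_quot {f g : ℕ → ℂ} (hf : FGS f) (hg : FGS g)
    (hg0 : ∀ᶠ m in atTop, g m ≠ 0) {P : Polynomial (Polynomial ℂ)} (hP : P ≠ 0)
    (hP0 : ∀ᶠ m in atTop, evs (fun m => f m / g m) P m = 0) :
    ∃ S : Subalgebra RF GG, gg (fun m => f m / g m) ∈ S ∧ (∀ x ∈ S, shG x ∈ S) ∧
      Module.Finite RF S := by
  classical
  set r : ℕ → ℂ := fun m => f m / g m with hr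
  have hint := int_of_rel hP hP0
  obtain ⟨s1, hs1, hf1, hst1⟩ := hf
  obtain ⟨s2, hs2, hg2, hst2⟩ := hg
  set R1 := Algebra.adjoin RF (s1 ∪ s2) with hR1
  have hle1 : Algebra.adjoin RF s1 ≤ R1 := Algebra.adjoin_mono Set.subset_union_left
  have hle2 : Algebra.adjoin RF s2 ≤ R1 := Algebra.adjoin_mono Set.subset_union_right
  have hfk : ∀ k, (shG ^ k) (gg f) ∈ R1 := by
    intro k
    apply hle1
    induction k with
    | zero => exact hf1
    | succ k ih =>
      rw [← shG_pow_succ]
      exact hst1 _ ih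
  have hgk : ∀ k, (shG ^ k) (gg g) ∈ R1 := by
    intro k
    apply hle2
    induction k with
    | zero => exact hg2
    | succ k ih =>
      rw [← shG_pow_succ]
      exact hst2 _ ih
  have hgu : ∀ k, IsUnit ((shG ^ k) (gg g)) := by
    intro k
    rw [shG_pow]
    refine IsUnit.of_mul_eq_one (gg fun m => (g (m + k))⁻¹) ?_
    rw [← map_mul, ← map_one gg, gg_eq]
    filter_upwards [eventually_shift hg0 k] with m hm
    rw [Pi.mul_apply, Pi.one_apply, mul_inv_cancel₀ hm]
  have hgr : ∀ k, (shG ^ k) (gg g) * (shG ^ k) (gg r) = (shG ^ k) (gg f) := by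
    intro k
    rw [shG_pow, shG_pow, shG_pow, ← map_mul, gg_eq]
    filter_upwards [eventually_shift hg0 k] with m hm
    rw [Pi.mul_apply]
    simp only [hr]
    rw [mul_div_cancel₀ _ hm]
  set S := Algebra.adjoin RF (Set.range fun k => (shG ^ k) (gg r)) with hS
  -- a common denominator
  have hden : ∀ x ∈ S, ∃ τ ∈ R1, IsUnit τ ∧ τ * x ∈ R1 := by
    intro x hx
    induction hx using Algebra.adjoin_induction with
    | mem x hx =>
      obtain ⟨k, rfl⟩ := hx
      exact ⟨_, hgk k, hgu k, by rw [hgr]; exact hfk k⟩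
    | algebraMap c => exact ⟨1, R1.one_mem, isUnit_one, by rw [one_mul]; exact R1.algebraMap_mem c⟩
    | add x y _ _ hx hy =>
      obtain ⟨τ, h1, h2, h3⟩ := hx
      obtain ⟨τ', h1', h2', h3'⟩ := hy
      refine ⟨τ * τ', R1.mul_mem h1 h1', h2.mul h2', ?_⟩
      have h4 : τ * τ' * (x + y) = τ' * (τ * x) + τ * (τ' * y) := by ring
      rw [h4]
      exact R1.add_mem (R1.mul_mem h1' h3) (R1.mul_mem h1 h3')
    | mul x y _ _ hx hy =>
      obtain ⟨τ, h1, h2, h3⟩ := hx
      obtain ⟨τ', h1', h2', h3'⟩ := hy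
      refine ⟨τ * τ', R1.mul_mem h1 h1', h2.mul h2', ?_⟩
      have h4 : τ * τ' * (x * y) = (τ * x) * (τ' * y) := by ring
      rw [h4]
      exact R1.mul_mem h3 h3'
  have hSint : ∀ x ∈ S, IsIntegral RF x := by
    intro x hx
    have h1 : S ≤ integralClosure RF GG := by
      rw [hS, Algebra.adjoin_le_iff]
      rintro _ ⟨k, rfl⟩
      exact hint k
    exact h1 hx
  -- minimal primes
  have hft : Algebra.FiniteType RF R1 := by
    refine ⟨(Subalgebra.fg_top R1).2 ⟨(hs1.union hs2).toFinset, ?_⟩⟩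
    rw [Set.Finite.coe_toFinset]
  have hnoeth : IsNoetherianRing R1 := Algebra.FiniteType.isNoetherianRing RF R1
  have hminfin : (minimalPrimes R1).Finite := minimalPrimes.finite_of_isNoetherianRing R1
  have _ : Fintype (minimalPrimes R1) := hminfin.fintype
  have hred : IsReduced R1 := isReduced_of_injective R1.val Subtype.val_injective
  have hprime : ∀ q : minimalPrimes R1, ∃ P : Ideal GG, P.IsPrime ∧
      P.comap (R1.val : R1 →+* GG) = q := fun q =>
    Ideal.exists_comap_eq_of_mem_minimalPrimes_of_injective Subtype.val_injective _ q.2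
  choose Pq hPq hPc using hprime
  -- the maps to finite-dimensional spaces
  have hmap : ∀ q : minimalPrimes R1, ∃ (M : Type) (_ : AddCommGroup M) (_ : Module RF M)
      (_ : Module.Finite RF M) (Φ : S →ₗ[RF] M), ∀ x, Φ x = 0 → (x : GG) ∈ Pq q := by
    intro q
    obtain ⟨K, _, _, θ, hθ⟩ := exists_theta (Pq q) (hPq q)
    let E := IntermediateField.adjoin RF (θ '' (s1 ∪ s2))
    have hR1E : ∀ x ∈ R1, θ x ∈ E := by
      intro x hx
      have h1 : R1.map θ ≤ E.toSubalgebra := by
        rw [hR1, AlgHom.map_adjoin, Algebra.adjoin_le_iff]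
        exact IntermediateField.subset_adjoin _ _
      exact h1 ⟨x, hx, rfl⟩
    have hSE : ∀ x ∈ S, θ x ∈ E := by
      intro x hx
      obtain ⟨τ, h1, h2, h3⟩ := hden x hx
      have h4 : θ τ ≠ 0 := (h2.map θ).ne_zero
      have h5 : θ x = θ (τ * x) / θ τ := by
        rw [map_mul, mul_div_cancel_left₀ _ h4]
      rw [h5]
      exact E.div_mem (hR1E _ h3) (hR1E _ h1)
    have hEfg : Algebra.EssFiniteType RF E := by
      rw [IntermediateField.essFiniteType_iff]
      refine ⟨((hs1.union hs2).image θ).toFinset, ?_⟩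
      rw [Set.Finite.coe_toFinset]
    have hfin : FiniteDimensional RF (algebraicClosure RF E) := finite_algClosure
    let L : S →ₗ[RF] E :=
      { toFun := fun x => ⟨θ x, hSE x x.2⟩
        map_add' := fun x y => Subtype.ext (map_add θ _ _)
        map_smul' := fun c x => Subtype.ext (map_smul θ _ _) }
    have hL : ∀ x, L x ∈ Subalgebra.toSubmodule (algebraicClosure RF E).toSubalgebra := by
      intro x
      change L x ∈ algebraicClosure RF E
      rw [mem_algebraicClosure_iff]
      have h1 : IsIntegral RF (θ x) := (hSint x x.2).map θ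
      have h2 : IsIntegral RF (L x) := by
        have h3 : (algebraMap E K) (L x) = θ x := rfl
        rw [← h3] at h1
        exact (isIntegral_algebraMap_iff (algebraMap E K).injective).1 h1
      exact h2.isAlgebraic
    refine ⟨algebraicClosure RF E, inferInstance, inferInstance, hfin,
      L.codRestrict (Subalgebra.toSubmodule (algebraicClosure RF E).toSubalgebra) hL,
      fun x hx => ?_⟩
    have h1 : L x = 0 := congrArg Subtype.val hx
    have h2 : θ x = 0 := congrArg Subtype.val h1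
    exact (hθ x).1 h2
  choose M iM1 iM2 iM3 Φ hΦ using hmap
  refine ⟨S, Algebra.subset_adjoin ⟨0, rfl⟩, ?_, ?_⟩
  · intro x hx
    induction hx using Algebra.adjoin_induction with
    | mem x hx =>
      obtain ⟨k, rfl⟩ := hx
      change shG ((shG ^ k) (gg r)) ∈ S
      rw [shG_pow_succ]
      exact Algebra.subset_adjoin ⟨k + 1, rfl⟩
    | algebraMap c =>
      rw [shG_psi]
      exact S.algebraMap_mem _
    | add x y _ _ hx hy =>
      rw [map_add]
      exact S.add_mem hx hy
    | mul x y _ _ hx hy =>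
      rw [map_mul]
      exact S.mul_mem hx hy
  · have hinj : Function.Injective (LinearMap.pi Φ : S →ₗ[RF] (∀ q, M q)) := by
      rw [injective_iff_map_eq_zero]
      intro x hx
      have h1 : ∀ q, (x : GG) ∈ Pq q := fun q => hΦ q x (congrFun hx q)
      obtain ⟨τ, h2, h3, h4⟩ := hden x x.2
      have h5 : (⟨τ * x, h4⟩ : R1) ∈ nilradical R1 := by
        have h6 : nilradical R1 = sInf (minimalPrimes R1) :=
          (Ideal.sInf_minimalPrimes (I := (⊥ : Ideal R1))).symm
        rw [h6, Ideal.mem_sInf]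
        intro q hq
        have h7 := hPc ⟨q, hq⟩
        change _ = q at h7
        rw [← h7, Ideal.mem_comap]
        exact (Pq ⟨q, hq⟩).mul_mem_left _ (h1 ⟨q, hq⟩)
      rw [nilradical_eq_zero] at h5
      have h6 : τ * (x : GG) = 0 := congrArg Subtype.val h5
      apply Subtype.ext
      exact (h3.mul_right_eq_zero).1 h6
    exact Module.Finite.of_injective _ hinj

/-- elements of finite difference algebras are quasi-rational -/
theorem quasi_rational_of_S {f : ℕ → ℂ} {S : Subalgebra RF GG} (hfS : gg f ∈ S)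
    (hS : ∀ x ∈ S, shG x ∈ S) (hfin : Module.Finite RF S) :
    ∃ (p : Polynomial ℂ) (k : ℕ) (q : ℕ → Polynomial ℂ), p ≠ 0 ∧ 0 < k ∧
      ∀ᶠ m : ℕ in atTop, p.eval (m : ℂ) * f m = (q (m % k)).eval (m : ℂ) := by
  have hred : IsReduced S := isReduced_of_injective S.val Subtype.val_injective
  let σ : S →+* S := shG.restrict S S fun x hx => hS x hx
  have hσc : ∀ x : S, ((σ x : S) : GG) = shG x := fun x => rfl
  have hσ : ∀ r, σ (algebraMap RF S r) = algebraMap RF S (shF r) := by
    intro r
    apply Subtype.ext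
    rw [hσc]
    exact shG_psi r
  have hinj : Function.Injective σ := by
    intro x y hxy
    apply Subtype.ext
    apply shG_inj
    rw [← hσc, ← hσc, hxy]
  obtain ⟨p, k, M, hp, hk, h⟩ := unip σ hinj hσ ⟨gg f, hfS⟩
  refine ⟨p, k, ?_⟩
  -- iterated differences
  have hpow : ∀ (j : ℕ) (x : S) (g : ℕ → ℂ), (x : GG) = gg g →
      (((sL σ hσ ^ j : Module.End ℂ S) x : S) : GG) = gg fun m => g (m + j) := by
    intro j
    induction j with
    | zero => intro x g hx; exact hx
    | succ j ih =>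
      intro x g hx
      rw [pow_succ, Module.End.mul_apply]
      rw [ih (sL σ hσ x) (fun m => g (m + 1)) (by
        change ((σ x : S) : GG) = _
        rw [hσc, hx, shG_gg])]
      congr 1
  have hd : ∀ (j : ℕ) (x : S) (g : ℕ → ℂ), (x : GG) = gg g →
      ((((sL σ hσ ^ k - 1) ^ j : Module.End ℂ S) x : S) : GG) = gg ((dk k)^[j] g) := by
    intro j
    induction j with
    | zero => intro x g hx; exact hx
    | succ j ih =>
      intro x g hx
      rw [pow_succ, Module.End.mul_apply, Function.iterate_succ_apply]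
      apply ih
      rw [LinearMap.sub_apply, AddSubgroupClass.coe_sub, hpow k x g hx, Module.End.one_apply, hx,
        ← map_sub]
      rfl
  have h1 : ((algebraMap RF S (algebraMap _ RF p) * ⟨gg f, hfS⟩ : S) : GG) =
      gg (fun m : ℕ => p.eval (m : ℂ) * f m) := by
    change algebraMap RF GG (algebraMap _ RF p) * gg f = _
    rw [algGG_apply, psi_poly, evG_apply, ← map_mul]
    rfl
  have h2 := hd M _ _ h1
  rw [h] at h2
  have h3 : gg ((dk k)^[M] fun m : ℕ => p.eval (m : ℂ) * f m) = gg 0 := by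
    rw [← h2, map_zero]
    rfl
  rw [gg_eq] at h3
  obtain ⟨q, hq⟩ := quasi_poly hk M _ h3
  exact ⟨q, hp, hk, hq⟩

/-- **Algebraic quotients of P-recursive sequences are quasi-rational.** -/
theorem quasi_rational_quot {f g : ℕ → ℂ} (hf : FGS f) (hg : FGS g)
    (hg0 : ∀ᶠ m in atTop, g m ≠ 0) {P : Polynomial (Polynomial ℂ)} (hP : P ≠ 0)
    (hP0 : ∀ᶠ m in atTop, evs (fun m => f m / g m) P m = 0) :
    ∃ (p : Polynomial ℂ) (k : ℕ) (q : ℕ → Polynomial ℂ), p ≠ 0 ∧ 0 < k ∧
      ∀ᶠ m : ℕ in atTop, p.eval (m : ℂ) * (f m / g m) = (q (m % k)).eval (m : ℂ) := by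
  obtain ⟨S, h1, h2, h3⟩ := exists_S_quot hf hg hg0 hP hP0
  exact quasi_rational_of_S h1 h2 h3

end Pool.Agent.TH143.HE
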