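import Mathlib

/-!
Finite algebras over the field of rational functions: elements which are integral over the
polynomials and have bounded order at infinity.
-/

set_option autoImplicit false

namespace Pool.Agent.TH143.HE

open Polynomial
open scoped Classical

/-- the field of rational functions -/
abbrev RF : Type := RatFunc ℂ

/-- the valuation ring at infinity -/
noncomputable abbrev OI : Subring RF := (RatFunc.inftyValuation ℂ).integer

/-- polynomials as rational functions -/
noncomputable abbrev ι0 : Polynomial ℂ →+* RF := algebraMap (Polynomial ℂ) RF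

/-- the inclusion of the valuation ring at infinity -/
noncomputable abbrev ιI : OI →+* RF := OI.subtype

variable {S : Type} [CommRing S] [Algebra RF S]

/-- integral over the image of a ring of rational functions -/
def IntE {R : Type} [CommRing R] (ι : R →+* RF) (f : S) : Prop :=
  ((algebraMap RF S).comp ι).IsIntegralElem f

theorem IntE.add {R : Type} [CommRing R] {ι : R →+* RF} {f g : S} (hf : IntE ι f)
    (hg : IntE ι g) : IntE ι (f + g) := RingHom.IsIntegralElem.add _ hf hg

theorem IntE.mul {R : Type} [CommRing R] {ι : R →+* RF} {f g : S} (hf : IntE ι f)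
    (hg : IntE ι g) : IntE ι (f * g) := RingHom.IsIntegralElem.mul _ hf hg

theorem IntE.coe {R : Type} [CommRing R] (ι : R →+* RF) (r : R) :
    IntE ι (algebraMap RF S (ι r)) :=
  RingHom.isIntegralElem_map ((algebraMap RF S).comp ι)

theorem IntE.map {R : Type} [CommRing R] {ι : R →+* RF} {f : S} (hf : IntE ι f) {S' : Type}
    [CommRing S'] [Algebra RF S'] (φ : S →ₐ[RF] S') : IntE ι (φ f) := by
  obtain ⟨p, hp, h0⟩ := hf
  refine ⟨p, hp, ?_⟩
  have h1 := congrArg φ h0
  rw [map_zero] at h1
  have h2 := Polynomial.hom_eval₂ p ((algebraMap RF S).comp ι) (φ : S →+* S') f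
  have h3 : ((φ : S →+* S').comp ((algebraMap RF S).comp ι)) = (algebraMap RF S').comp ι := by
    ext r
    exact φ.commutes _
  rw [h3] at h2
  rw [← h1]
  exact h2.symm

theorem IntE.zero {R : Type} [CommRing R] (ι : R →+* RF) : IntE ι (0 : S) := by
  have := IntE.coe (S := S) ι 0
  rwa [map_zero, map_zero] at this

theorem IntE.trace {R : Type} [CommRing R] {ι : R →+* RF} {L : Type} [Field L] [Algebra RF L]
    [FiniteDimensional RF L] {f : L} (hf : IntE ι f) : ι.IsIntegralElem (Algebra.trace RF L f) := by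
  let _ : Algebra R RF := ι.toAlgebra
  let _ : Algebra R L := ((algebraMap RF L).comp ι).toAlgebra
  have _ : IsScalarTower R RF L := IsScalarTower.of_algebraMap_eq fun r => rfl
  exact Algebra.isIntegral_trace (R := R) (L := RF) (F := L) hf

/-- integral over polynomials and of bounded order at infinity -/
def InV (D : ℕ) (f : S) : Prop := IntE ι0 f ∧ IntE ιI (algebraMap RF S (RatFunc.X ^ D)⁻¹ * f)

theorem val_poly {r : RF} {D : ℕ} (h0 : ι0.IsIntegralElem r)
    (hI : ιI.IsIntegralElem ((RatFunc.X ^ D)⁻¹ * r)) :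
    ∃ P : Polynomial ℂ, P.natDegree ≤ D ∧ r = algebraMap (Polynomial ℂ) RF P := by
  have h1 : IsIntegral (Polynomial ℂ) r := h0
  obtain ⟨P, hP⟩ := IsIntegrallyClosed.isIntegral_iff.1 h1
  refine ⟨P, ?_, hP.symm⟩
  have h2 : ((RatFunc.X ^ D)⁻¹ * r : RF) ∈ (RatFunc.inftyValuation ℂ).integer := by
    refine Valuation.Integers.mem_of_integral (v := RatFunc.inftyValuation ℂ)
      (O := (RatFunc.inftyValuation ℂ).integer) (Valuation.integer.integers _) ?_
    exact hI
  rw [Valuation.mem_integer_iff, ← hP] at h2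
  by_cases hP0 : P = 0
  · rw [hP0, Polynomial.natDegree_zero]
    exact Nat.zero_le _
  · rw [map_mul, map_inv₀, map_pow, RatFunc.inftyValuation.X, RatFunc.inftyValuation_apply,
      RatFunc.inftyValuation.polynomial _ hP0] at h2
    have h3 : (WithZero.exp (1 : ℤ) : WithZero (Multiplicative ℤ)) ^ D ≠ 0 := by simp
    rw [inv_mul_le_iff₀ (by simp), mul_one, ← WithZero.exp_nsmul,
      WithZero.exp_le_exp] at h2
    simpa using h2

/-- the order at infinity -/
theorem exists_ord {x : S} (hx : IsIntegral RF x) :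
    ∃ c : ℕ, IntE ιI (algebraMap RF S (RatFunc.X ^ c)⁻¹ * x) := by
  obtain ⟨P, hP, h0⟩ := hx
  obtain ⟨c, hc⟩ : ∃ c : ℕ, ∀ i ∈ Finset.range (P.natDegree + 1),
      RatFunc.inftyValuation ℂ (P.coeff i) ≤ WithZero.exp ((c : ℕ) : ℤ) := by
    have h1 : ∀ r : RF, ∃ c : ℕ, RatFunc.inftyValuation ℂ r ≤ WithZero.exp ((c : ℕ) : ℤ) := by
      intro r
      by_cases hr : r = 0
      · exact ⟨0, by rw [hr, map_zero]; exact zero_le⟩
      · refine ⟨r.intDegree.toNat, ?_⟩
        rw [RatFunc.inftyValuation_apply, RatFunc.inftyValuation_of_nonzero _ hr,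
          WithZero.exp_le_exp]
        exact Int.self_le_toNat _
    choose c hc using fun i => h1 (P.coeff i)
    refine ⟨∑ i ∈ Finset.range (P.natDegree + 1), c i, fun i hi => (hc i).trans ?_⟩
    rw [WithZero.exp_le_exp]
    exact_mod_cast Finset.single_le_sum (f := c) (fun _ _ => Nat.zero_le _) hi
  refine ⟨c, ?_⟩
  set s := ((RatFunc.X : RF) ^ c)⁻¹ with hs
  have hvs : RatFunc.inftyValuation ℂ s = WithZero.exp (-(c : ℤ)) := by
    rw [hs, map_inv₀, map_pow, RatFunc.inftyValuation.X, ← WithZero.exp_nsmul,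
      ← WithZero.exp_neg]
    simp
  have hmem : ((P.scaleRoots s).coeffs : Set RF) ⊆ OI := by
    intro r hr
    obtain ⟨i, hi, rfl⟩ := Polynomial.mem_coeffs_iff.1 hr
    have hid : i ≤ P.natDegree := by
      have h2 := Polynomial.le_natDegree_of_mem_supp i hi
      rwa [Polynomial.natDegree_scaleRoots] at h2
    rw [Polynomial.coeff_scaleRoots]
    change RatFunc.inftyValuation ℂ _ ≤ 1
    rw [map_mul, map_pow, hvs]
    by_cases hid' : i = P.natDegree
    · rw [hid', Nat.sub_self, pow_zero, mul_one]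
      have h3 : P.coeff P.natDegree = 1 := hP
      rw [h3, map_one]
    · have h2 : i < P.natDegree := lt_of_le_of_ne hid hid'
      have h3 := hc i (Finset.mem_range.2 (by omega))
      rw [← WithZero.exp_nsmul]
      calc _ ≤ WithZero.exp ((c : ℕ) : ℤ) * WithZero.exp ((P.natDegree - i) • (-(c : ℤ))) :=
            mul_le_mul_left h3 _
        _ ≤ 1 := by
            rw [← WithZero.exp_add, ← WithZero.exp_zero, WithZero.exp_le_exp]
            have h4 : 1 ≤ P.natDegree - i := by omega
            have h5 : (c : ℤ) ≤ (P.natDegree - i : ℕ) • (c : ℤ) := by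
              rw [nsmul_eq_mul]
              have h6 : (1 : ℤ) ≤ ((P.natDegree - i : ℕ) : ℤ) := by exact_mod_cast h4
              nlinarith [Int.natCast_nonneg c]
            rw [smul_neg]
            linarith
  refine ⟨(P.scaleRoots s).toSubring OI hmem, ?_, ?_⟩
  · rw [Polynomial.monic_toSubring]
    exact (Polynomial.monic_scaleRoots_iff s).2 hP
  · have h2 : Polynomial.eval₂ ((algebraMap RF S).comp ιI) (algebraMap RF S s * x)
        ((P.scaleRoots s).toSubring OI hmem) =
        Polynomial.eval₂ (algebraMap RF S) (algebraMap RF S s * x)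
          (((P.scaleRoots s).toSubring OI hmem).map ιI) := by
      rw [Polynomial.eval₂_map]
    rw [h2, Polynomial.map_toSubring]
    exact Polynomial.scaleRoots_eval₂_eq_zero (algebraMap RF S) h0

/-- **Fields.** -/
theorem exists_T_field (L : Type) [Field L] [Algebra RF L] [FiniteDimensional RF L] :
    ∃ (d c : ℕ) (T : L →ₗ[RF] (Fin d → RF)), Function.Injective T ∧
      ∀ (D : ℕ) (f : L), InV D f → ∀ i, ∃ P : Polynomial ℂ, P.natDegree ≤ D + c ∧
        T f i = algebraMap (Polynomial ℂ) RF P := by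
  classical
  let _ : Algebra (Polynomial ℂ) L := ((algebraMap RF L).comp ι0).toAlgebra
  have _ : IsScalarTower (Polynomial ℂ) RF L := IsScalarTower.of_algebraMap_eq fun r => rfl
  obtain ⟨s, b, hb⟩ := FiniteDimensional.exists_is_basis_integral (Polynomial ℂ) RF L
  -- the order at infinity
  have hord : ∀ x : L, ∃ c : ℕ, IntE ιI (algebraMap RF L (RatFunc.X ^ c)⁻¹ * x) := fun x =>
    exists_ord (Algebra.IsIntegral.isIntegral x)
  choose c hc using hord
  let e := Fintype.equivFin s
  let cc := ∑ i : s, c (b i)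
  refine ⟨Fintype.card s, cc, LinearMap.pi fun i =>
    (Algebra.trace RF L).comp (LinearMap.mulRight RF (b (e.symm i))), ?_, ?_⟩
  · rw [injective_iff_map_eq_zero]
    intro f hf
    have hnd := traceForm_nondegenerate RF L
    refine hnd.1 f fun y => ?_
    have h1 : (LinearMap.toSpanSingleton RF L f) = LinearMap.toSpanSingleton RF L f := rfl
    have h2 : (Algebra.traceForm RF L f) = 0 := by
      refine b.ext fun i => ?_
      have h3 := congrFun hf (e i)
      rw [LinearMap.pi_apply, LinearMap.comp_apply, e.symm_apply_apply] at h3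
      exact h3
    rw [h2, LinearMap.zero_apply]
  · intro D f hf i
    have h1 : IntE ι0 (f * b (e.symm i)) := hf.1.mul (hb _)
    have hle : c (b (e.symm i)) ≤ cc :=
      Finset.single_le_sum (f := fun i : s => c (b i)) (fun _ _ => Nat.zero_le _)
        (Finset.mem_univ _)
    have h2 : IntE ιI (algebraMap RF L (RatFunc.X ^ (D + cc))⁻¹ * (f * b (e.symm i))) := by
      have hk : ((RatFunc.X : RF) ^ (cc - c (b (e.symm i))))⁻¹ ∈ OI := by
        change RatFunc.inftyValuation ℂ _ ≤ 1
        rw [map_inv₀, map_pow, RatFunc.inftyValuation.X, ← WithZero.exp_nsmul,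
          ← WithZero.exp_neg, ← WithZero.exp_zero, WithZero.exp_le_exp]
        simp
      have h3 := (hf.2.mul (hc (b (e.symm i)))).mul (IntE.coe (S := L) ιI ⟨_, hk⟩)
      have h4 : algebraMap RF L (RatFunc.X ^ D)⁻¹ * f *
          (algebraMap RF L (RatFunc.X ^ c (b (e.symm i)))⁻¹ * b (e.symm i)) *
          algebraMap RF L (ιI ⟨_, hk⟩) =
          algebraMap RF L (RatFunc.X ^ (D + cc))⁻¹ * (f * b (e.symm i)) := by
        have h5 : ((RatFunc.X : RF) ^ (D + cc))⁻¹ = (RatFunc.X ^ D)⁻¹ *
            (RatFunc.X ^ c (b (e.symm i)))⁻¹ * (RatFunc.X ^ (cc - c (b (e.symm i))))⁻¹ := by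
          rw [← mul_inv, ← mul_inv, ← pow_add, ← pow_add]
          congr 2
          omega
        rw [h5, map_mul, map_mul]
        change _ * algebraMap RF L (RatFunc.X ^ (cc - c (b (e.symm i))))⁻¹ = _
        ring
      rw [h4] at h3
      exact h3
    refine val_poly h1.trace ?_
    have h3 := h2.trace
    rw [← Algebra.smul_def, map_smul, smul_eq_mul] at h3
    exact h3


/-- **Reduced finite algebras.** -/
theorem exists_T (S : Type) [CommRing S] [IsReduced S] [Algebra RF S] [Module.Finite RF S] :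
    ∃ (ι : Type) (_ : Fintype ι) (c : ℕ) (T : S →ₗ[RF] (ι → RF)), Function.Injective T ∧
      ∀ (D : ℕ) (f : S), InV D f → ∀ i, ∃ P : Polynomial ℂ, P.natDegree ≤ D + c ∧
        T f i = algebraMap (Polynomial ℂ) RF P := by
  classical
  have hart : IsArtinianRing S := isArtinian_of_tower RF inferInstance
  let _ : Fintype (MaximalSpectrum S) := Fintype.ofFinite _
  have h1 : ∀ m : MaximalSpectrum S, ∃ (d c : ℕ) (T : S →ₗ[RF] (Fin d → RF)),
      (∀ f, T f = 0 → f ∈ m.asIdeal) ∧
      ∀ (D : ℕ) (f : S), InV D f → ∀ i, ∃ P : Polynomial ℂ, P.natDegree ≤ D + c ∧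
        T f i = algebraMap (Polynomial ℂ) RF P := by
    intro m
    have hm := m.isMaximal
    let _ : Field (S ⧸ m.asIdeal) := Ideal.Quotient.field m.asIdeal
    have _ : FiniteDimensional RF (S ⧸ m.asIdeal) :=
      Module.Finite.of_surjective (Ideal.Quotient.mkₐ RF m.asIdeal).toLinearMap
        Ideal.Quotient.mk_surjective
    obtain ⟨d, c, T, hT, hTV⟩ := exists_T_field (S ⧸ m.asIdeal)
    refine ⟨d, c, T.comp (Ideal.Quotient.mkₐ RF m.asIdeal).toLinearMap, ?_, ?_⟩
    · intro f hf
      rw [← Ideal.Quotient.eq_zero_iff_mem]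
      apply hT
      rw [map_zero]
      exact hf
    · intro D f hf i
      refine hTV D (Ideal.Quotient.mkₐ RF m.asIdeal f) ⟨hf.1.map _, ?_⟩ i
      have h2 := hf.2.map (Ideal.Quotient.mkₐ RF m.asIdeal)
      rw [map_mul, AlgHom.commutes] at h2
      exact h2
  choose d c T hT hTV using h1
  refine ⟨Σ m, Fin (d m), inferInstance, ∑ m, c m, LinearMap.pi fun x =>
    (LinearMap.proj x.2).comp (T x.1), ?_, ?_⟩
  · rw [injective_iff_map_eq_zero]
    intro f hf
    have h2 : f ∈ nilradical S := by
      rw [nilradical_eq_sInf, Ideal.mem_sInf]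
      intro P hP
      have hPp : P.IsPrime := hP
      have hPm : P.IsMaximal := IsArtinianRing.isMaximal_of_isPrime P
      refine hT ⟨P, hPm⟩ f ?_
      funext i
      exact congrFun hf ⟨⟨P, hPm⟩, i⟩
    rw [nilradical_eq_zero] at h2
    exact h2
  · rintro D f hf ⟨m, i⟩
    obtain ⟨P, hP, hPe⟩ := hTV m D f hf i
    refine ⟨P, hP.trans ?_, hPe⟩
    have := Finset.single_le_sum (f := c) (fun _ _ => Nat.zero_le _) (Finset.mem_univ m)
    omega

/-! ### the shift -/

/-- the shift of a polynomial -/
noncomputable def sh0 : Polynomial ℂ →+* Polynomial ℂ := Polynomial.compRingHom (X + 1)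

theorem sh0_apply (p : Polynomial ℂ) : sh0 p = p.comp (X + 1) := rfl

theorem sh0_taylor (p : Polynomial ℂ) : sh0 p = Polynomial.taylor 1 p := by
  rw [sh0_apply, Polynomial.taylor_apply, map_one]

theorem sh0_ne {p : Polynomial ℂ} (hp : p ≠ 0) : sh0 p ≠ 0 := by
  rw [sh0_taylor]
  intro h
  exact hp (Polynomial.taylor_injective 1 (by rw [h, map_zero]))

/-- the shift of rational functions -/
noncomputable def shF : RF →+* RF :=
  RatFunc.mapRingHom sh0 (fun p hp => by
    rw [Submonoid.mem_comap]
    exact mem_nonZeroDivisors_of_ne_zero (sh0_ne (nonZeroDivisors.ne_zero hp)))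

theorem shF_poly (p : Polynomial ℂ) : shF (algebraMap (Polynomial ℂ) RF p) =
    algebraMap (Polynomial ℂ) RF (sh0 p) := by
  unfold shF
  rw [RatFunc.coe_mapRingHom_eq_coe_map]
  have := RatFunc.map_apply_div (φ := sh0) (hφ := fun p hp => by
    rw [Submonoid.mem_comap]
    exact mem_nonZeroDivisors_of_ne_zero (sh0_ne (nonZeroDivisors.ne_zero hp))) p 1
  simpa using this

theorem shF_val (r : RF) : RatFunc.inftyValuation ℂ (shF r) = RatFunc.inftyValuation ℂ r := by
  have h1 : ∀ p : Polynomial ℂ, RatFunc.inftyValuation ℂ (algebraMap (Polynomial ℂ) RF (sh0 p)) =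
      RatFunc.inftyValuation ℂ (algebraMap (Polynomial ℂ) RF p) := by
    intro p
    by_cases hp : p = 0
    · rw [hp, map_zero]
    · rw [RatFunc.inftyValuation_apply, RatFunc.inftyValuation_apply,
        RatFunc.inftyValuation.polynomial _ hp, RatFunc.inftyValuation.polynomial _ (sh0_ne hp),
        sh0_taylor, Polynomial.natDegree_taylor]
  rw [← RatFunc.num_div_denom r, map_div₀, map_div₀, map_div₀, shF_poly, shF_poly, h1, h1]

end Pool.Agent.TH143.HE
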