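import Pool.Agent.TH143.HE.Rank

/-!
Finite difference algebras over the field of rational functions: a power of the shift is
quasi-unipotent.
-/

set_option autoImplicit false

namespace Pool.Agent.TH143.HE

open Polynomial
open scoped Classical

theorem shF_eigen {r : RF} (hr : r ≠ 0) {μ : ℂ} (h : shF r = algebraMap ℂ RF μ * r) : μ = 1 := by
  have hq0 : r.denom ≠ 0 := r.denom_ne_zero
  have hp0 : r.num ≠ 0 := RatFunc.num_ne_zero hr
  have hinj := RatFunc.algebraMap_injective ℂ
  have hq : algebraMap (Polynomial ℂ) RF r.denom ≠ 0 := by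
    rwa [Ne, map_eq_zero_iff _ hinj]
  have hsq : algebraMap (Polynomial ℂ) RF (sh0 r.denom) ≠ 0 := by
    rw [Ne, map_eq_zero_iff _ hinj]
    exact sh0_ne hq0
  have h1 : shF r = algebraMap (Polynomial ℂ) RF (sh0 r.num) /
      algebraMap (Polynomial ℂ) RF (sh0 r.denom) := by
    conv_lhs => rw [← RatFunc.num_div_denom r]
    rw [map_div₀, shF_poly, shF_poly]
  have h2 : r = algebraMap (Polynomial ℂ) RF r.num / algebraMap (Polynomial ℂ) RF r.denom :=
    (RatFunc.num_div_denom r).symm
  have h3 : sh0 r.num * r.denom = C μ * r.num * sh0 r.denom := by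
    apply hinj
    rw [map_mul, map_mul, map_mul]
    have h4 : algebraMap (Polynomial ℂ) RF (C μ) = algebraMap ℂ RF μ := by
      rw [IsScalarTower.algebraMap_apply ℂ (Polynomial ℂ) RF]
      rfl
    rw [h4]
    rw [h1] at h
    rw [div_eq_iff hsq] at h
    rw [h]
    nth_rewrite 1 [h2]
    field_simp
  have h4 := congrArg Polynomial.leadingCoeff h3
  rw [Polynomial.leadingCoeff_mul, Polynomial.leadingCoeff_mul, Polynomial.leadingCoeff_mul,
    Polynomial.leadingCoeff_C, sh0_taylor, sh0_taylor, Polynomial.leadingCoeff_taylor,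
    Polynomial.leadingCoeff_taylor] at h4
  have h5 : r.num.leadingCoeff * r.denom.leadingCoeff ≠ 0 :=
    mul_ne_zero (Polynomial.leadingCoeff_ne_zero.2 hp0) (Polynomial.leadingCoeff_ne_zero.2 hq0)
  have h6 : (μ - 1) * (r.num.leadingCoeff * r.denom.leadingCoeff) = 0 := by
    linear_combination -h4
  rcases mul_eq_zero.1 h6 with h7 | h7
  · linear_combination h7
  · exact absurd h7 h5

theorem shF_const (c : ℂ) : shF (algebraMap ℂ RF c) = algebraMap ℂ RF c := by
  have h4 : algebraMap (Polynomial ℂ) RF (C c) = algebraMap ℂ RF c := by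
    rw [IsScalarTower.algebraMap_apply ℂ (Polynomial ℂ) RF]
    rfl
  rw [← h4, shF_poly, sh0_apply, C_comp]

variable {S : Type} [CommRing S] [IsReduced S] [Algebra RF S] [Module.Finite RF S]
  [Algebra ℂ S] [IsScalarTower ℂ RF S]

/-- **Eigenvalues are roots of unity.** -/
theorem eigen_root (σ : S →+* S) (hinj : Function.Injective σ)
    (hσ : ∀ r, σ (algebraMap RF S r) = algebraMap RF S (shF r)) {f : S} (hf : f ≠ 0) {l : ℂ}
    (h : σ f = l • f) : ∃ k, 0 < k ∧ l ^ k = 1 := by
  have hl : l ≠ 0 := by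
    intro h0
    rw [h0, zero_smul] at h
    exact hf (hinj (by rw [h, map_zero]))
  have hint : IsIntegral RF f := Algebra.IsIntegral.isIntegral f
  set P := minpoly RF f with hP
  have hmon : P.Monic := minpoly.monic hint
  let s : RF := algebraMap ℂ RF l⁻¹
  have hs : algebraMap RF S s * σ f = f := by
    rw [h, ← IsScalarTower.algebraMap_apply ℂ RF S, ← Algebra.smul_def, smul_smul,
      inv_mul_cancel₀ hl, one_smul]
  have h1 : Polynomial.eval₂ (algebraMap RF S) (σ f) (P.map shF) = 0 := by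
    have h2 := congrArg σ (minpoly.aeval RF f)
    rw [map_zero, Polynomial.aeval_def, Polynomial.hom_eval₂] at h2
    rw [Polynomial.eval₂_map, ← h2]
    congr 1
    ext r
    exact (hσ r).symm
  have h2 : Polynomial.eval₂ (algebraMap RF S) f ((P.map shF).scaleRoots s) = 0 := by
    have h3 := Polynomial.scaleRoots_eval₂_eq_zero (algebraMap RF S) (s := s) h1
    rwa [hs] at h3
  have h3 : ((P.map shF).scaleRoots s) = P := by
    have h4 : (P.map shF).Monic := hmon.map shF
    refine minpoly.unique RF f ((Polynomial.monic_scaleRoots_iff s).2 h4) h2 fun q hq hq0 => ?_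
    have h5 := minpoly.min RF f hq hq0
    refine le_trans (le_of_eq ?_) h5
    rw [Polynomial.degree_scaleRoots, Polynomial.degree_map_eq_of_injective shF.injective]
  by_contra hcon
  push Not at hcon
  have hdeg : (P.map shF).natDegree = P.natDegree :=
    Polynomial.natDegree_map_eq_of_injective shF.injective _
  have h4 : ∀ i < P.natDegree, P.coeff i = 0 := by
    intro i hi
    by_contra hi0
    have h5 := congrArg (fun q => Polynomial.coeff q i) h3
    simp only [Polynomial.coeff_scaleRoots, Polynomial.coeff_map, hdeg] at h5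
    have h6 : shF (P.coeff i) = algebraMap ℂ RF (l ^ (P.natDegree - i)) * P.coeff i := by
      have h7 : s ^ (P.natDegree - i) * algebraMap ℂ RF (l ^ (P.natDegree - i)) = 1 := by
        simp only [s]
        rw [← map_pow, ← map_mul, ← mul_pow, inv_mul_cancel₀ hl, one_pow, map_one]
      calc shF (P.coeff i) = shF (P.coeff i) * (s ^ (P.natDegree - i) *
            algebraMap ℂ RF (l ^ (P.natDegree - i))) := by rw [h7, mul_one]
        _ = _ := by rw [← mul_assoc, h5, mul_comm]
    exact hcon (P.natDegree - i) (by omega) (shF_eigen hi0 h6)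
  have h5 : P = Polynomial.X ^ P.natDegree := by
    ext i
    rw [Polynomial.coeff_X_pow]
    rcases lt_trichotomy i P.natDegree with hi | hi | hi
    · rw [h4 i hi, if_neg (by omega)]
    · rw [if_pos hi, hi]
      exact hmon
    · rw [Polynomial.coeff_eq_zero_of_natDegree_lt hi, if_neg (by omega)]
  have h6 := minpoly.aeval RF f
  rw [← hP, h5, map_pow, aeval_X] at h6
  exact hf (IsReduced.eq_zero f ⟨_, h6⟩)

omit [IsReduced S] [Module.Finite RF S] [Algebra ℂ S] [IsScalarTower ℂ RF S] in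
theorem IntE.sigma {R : Type} [CommRing R] {ι : R →+* RF} (τ : R →+* R)
    (hτ : ∀ r, ι (τ r) = shF (ι r)) (σ : S →+* S)
    (hσ : ∀ r, σ (algebraMap RF S r) = algebraMap RF S (shF r)) {f : S} (hf : IntE ι f) :
    IntE ι (σ f) := by
  obtain ⟨p, hp, h0⟩ := hf
  refine ⟨p.map τ, hp.map τ, ?_⟩
  have h1 := congrArg σ h0
  rw [map_zero, Polynomial.hom_eval₂] at h1
  rw [Polynomial.eval₂_map, ← h1]
  congr 1
  ext r
  change algebraMap RF S (ι (τ r)) = σ (algebraMap RF S (ι r))
  rw [hτ, hσ]

/-- the shift on the valuation ring -/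
noncomputable def shI : OI →+* OI :=
  (shF.comp OI.subtype).codRestrict OI fun r => by
    change RatFunc.inftyValuation ℂ (shF r) ≤ 1
    rw [shF_val]
    exact r.2

omit [IsReduced S] [Module.Finite RF S] [Algebra ℂ S] [IsScalarTower ℂ RF S] in
theorem InV.sigma (σ : S →+* S) (hσ : ∀ r, σ (algebraMap RF S r) = algebraMap RF S (shF r))
    {D : ℕ} {f : S} (hf : InV D f) : InV D (σ f) := by
  refine ⟨hf.1.sigma sh0 (fun r => (shF_poly r).symm) σ hσ, ?_⟩
  have h1 := hf.2.sigma shI (fun r => rfl) σ hσ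
  rw [map_mul, hσ, map_inv₀, map_pow] at h1
  have hX : (RatFunc.X : RF) ≠ 0 := RatFunc.X_ne_zero
  have hsX : shF (RatFunc.X : RF) ≠ 0 := by
    rw [Ne, map_eq_zero_iff _ shF.injective]
    exact hX
  have hmem : shF (RatFunc.X : RF) ^ D * (RatFunc.X ^ D)⁻¹ ∈ OI := by
    change RatFunc.inftyValuation ℂ _ ≤ 1
    rw [map_mul, map_inv₀, map_pow, map_pow, shF_val, mul_inv_cancel₀]
    simp
  have h2 := h1.mul (IntE.coe (S := S) ιI ⟨_, hmem⟩)
  have h3 : algebraMap RF S (shF (RatFunc.X : RF) ^ D)⁻¹ * σ f *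
      algebraMap RF S (ιI ⟨_, hmem⟩) = algebraMap RF S (RatFunc.X ^ D)⁻¹ * σ f := by
    change _ * algebraMap RF S (shF (RatFunc.X : RF) ^ D * (RatFunc.X ^ D)⁻¹) = _
    rw [mul_right_comm, ← map_mul, inv_mul_cancel_left₀ (pow_ne_zero _ hsX)]
  rwa [h3] at h2


/-- the elements which are integral over the polynomials, of bounded order at infinity -/
noncomputable def VD (S : Type) [CommRing S] [Algebra RF S] [Algebra ℂ S] [IsScalarTower ℂ RF S]
    (D : ℕ) : Submodule ℂ S where
  carrier := {f | InV D f}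
  add_mem' := by
    intro f g hf hg
    refine ⟨hf.1.add hg.1, ?_⟩
    rw [mul_add]
    exact hf.2.add hg.2
  zero_mem' := ⟨IntE.zero _, by rw [mul_zero]; exact IntE.zero _⟩
  smul_mem' := by
    intro c f hf
    have h1 : c • f = algebraMap RF S (ι0 (C c)) * f := by
      rw [Algebra.smul_def, IsScalarTower.algebraMap_apply ℂ RF S,
        IsScalarTower.algebraMap_apply ℂ (Polynomial ℂ) RF]
      rfl
    have hmem : (algebraMap (Polynomial ℂ) RF (C c)) ∈ OI := by
      change RatFunc.inftyValuation ℂ _ ≤ 1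
      by_cases hc : c = 0
      · rw [hc, C_0, map_zero, map_zero]
        exact zero_le
      · rw [RatFunc.inftyValuation_apply, RatFunc.inftyValuation.polynomial _ (by
          rwa [Ne, C_eq_zero]), natDegree_C]
        simp
    refine ⟨?_, ?_⟩
    · rw [h1]
      exact (IntE.coe _ _).mul hf.1
    · rw [h1, mul_left_comm]
      exact (IntE.coe (S := S) ιI ⟨_, hmem⟩).mul hf.2

omit [IsReduced S] [Module.Finite RF S] in
theorem mem_VD {D : ℕ} {f : S} : f ∈ VD S D ↔ InV D f := Iff.rfl

instance finite_VD (D : ℕ) : Module.Finite ℂ (VD S D) := by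
  classical
  obtain ⟨ι, hι, c, T, hT, hTV⟩ := exists_T S
  let aL : Polynomial ℂ →ₗ[ℂ] RF := (IsScalarTower.toAlgHom ℂ (Polynomial ℂ) RF).toLinearMap
  let PN : Submodule ℂ RF := (Polynomial.degreeLE ℂ (D + c : ℕ)).map aL
  have hPN : PN.FG := by
    apply Submodule.FG.map
    rw [Polynomial.degreeLE_eq_span_X_pow]
    exact Submodule.fg_span (Finset.finite_toSet _)
  have hW : (Submodule.pi (Set.univ : Set ι) fun _ : ι => PN).FG := Submodule.fg_pi fun _ => hPN
  have hfin : Module.Finite ℂ (Submodule.pi (Set.univ : Set ι) fun _ : ι => PN) :=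
    Module.Finite.iff_fg.2 hW
  let T' : S →ₗ[ℂ] (ι → RF) := T.restrictScalars ℂ
  have hmap : ∀ f ∈ VD S D, T' f ∈ (Submodule.pi (Set.univ : Set ι) fun _ : ι => PN) := by
    intro f hf i _
    obtain ⟨P, hP, hPe⟩ := hTV D f hf i
    refine ⟨P, ?_, hPe.symm⟩
    rw [SetLike.mem_coe, Polynomial.mem_degreeLE]
    exact (Polynomial.natDegree_le_iff_degree_le).1 hP
  exact Module.Finite.of_injective (T'.restrict hmap) (by
    intro a b hab
    apply Subtype.ext
    apply hT
    exact congrArg Subtype.val hab)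

/-- the shift as a linear map -/
noncomputable def sL (σ : S →+* S) (hσ : ∀ r, σ (algebraMap RF S r) = algebraMap RF S (shF r)) :
    S →ₗ[ℂ] S where
  toFun := σ
  map_add' := map_add σ
  map_smul' := by
    intro c f
    rw [Algebra.smul_def, IsScalarTower.algebraMap_apply ℂ RF S, map_mul, hσ, shF_const,
      ← IsScalarTower.algebraMap_apply ℂ RF S, RingHom.id_apply, Algebra.smul_def]

omit [IsReduced S] [Module.Finite RF S] [Algebra RF S] [IsScalarTower ℂ RF S] in
theorem pow_coe {V : Submodule ℂ S} {φ : Module.End ℂ V} {ψ : Module.End ℂ S}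
    (h : ∀ v, (φ v : S) = ψ v) (k : ℕ) (v : V) : ((φ ^ k) v : S) = (ψ ^ k) v := by
  induction k generalizing v with
  | zero => rfl
  | succ k ih =>
    rw [pow_succ, pow_succ, Module.End.mul_apply, Module.End.mul_apply, ih, h]

/-- **Quasi-unipotence.** -/
theorem unip (σ : S →+* S) (hinj : Function.Injective σ)
    (hσ : ∀ r, σ (algebraMap RF S r) = algebraMap RF S (shF r)) (f : S) :
    ∃ (p : Polynomial ℂ) (k M : ℕ), p ≠ 0 ∧ 0 < k ∧
      ((sL σ hσ ^ k - 1) ^ M : Module.End ℂ S) (algebraMap RF S (algebraMap _ RF p) * f) = 0 := by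
  classical
  -- a multiple of `f` is in `VD`
  obtain ⟨p, D, hp, hV⟩ : ∃ (p : Polynomial ℂ) (D : ℕ), p ≠ 0 ∧
      InV D (algebraMap RF S (algebraMap _ RF p) * f) := by
    let _ : Algebra (Polynomial ℂ) S := ((algebraMap RF S).comp ι0).toAlgebra
    have _ : IsScalarTower (Polynomial ℂ) RF S := IsScalarTower.of_algebraMap_eq fun r => rfl
    have halg : IsAlgebraic (Polynomial ℂ) f := by
      have h1 : IsAlgebraic RF f := (Algebra.IsIntegral.isIntegral (R := RF) f).isAlgebraic
      exact (IsFractionRing.isAlgebraic_iff (Polynomial ℂ) RF S).2 h1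
    obtain ⟨y, hy, hz⟩ := halg.exists_integral_multiple
    have hz' : IntE ι0 (algebraMap RF S (algebraMap _ RF y) * f) := by
      rw [Algebra.smul_def] at hz
      exact hz
    obtain ⟨D, hD⟩ := exists_ord (Algebra.IsIntegral.isIntegral (R := RF)
      (algebraMap RF S (algebraMap _ RF y) * f))
    exact ⟨y, D, hy, hz', hD⟩
  let φ : Module.End ℂ (VD S D) := (sL σ hσ).restrict fun v hv => InV.sigma σ hσ hv
  have hφ : ∀ v, (φ v : S) = sL σ hσ v := fun v => rfl
  -- the eigenvalues
  have hroot : ∀ l ∈ (minpoly ℂ φ).roots, ∃ k, 0 < k ∧ l ^ k = 1 := by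
    intro l hl
    have h1 : (minpoly ℂ φ).IsRoot l := Polynomial.isRoot_of_mem_roots hl
    rw [← Module.End.hasEigenvalue_iff_isRoot] at h1
    obtain ⟨v, hv⟩ := h1.exists_hasEigenvector
    have hv1 := hv.apply_eq_smul
    have hv0 : (v : S) ≠ 0 := fun h => hv.2 (Subtype.ext h)
    refine eigen_root σ hinj hσ hv0 ?_
    have h2 := congrArg Subtype.val hv1
    exact h2
  choose! k hk0 hk using hroot
  let kk := ∏ l ∈ (minpoly ℂ φ).roots.toFinset, k l
  have hkk : ∀ l ∈ (minpoly ℂ φ).roots, l ^ kk = 1 := by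
    intro l hl
    obtain ⟨c, hc⟩ := Finset.dvd_prod_of_mem k (Multiset.mem_toFinset.2 hl)
    simp only [kk]
    rw [hc, pow_mul, hk l hl, one_pow]
  refine ⟨p, kk, Multiset.card (minpoly ℂ φ).roots, hp,
    Finset.prod_pos fun l hl => hk0 l (Multiset.mem_toFinset.1 hl), ?_⟩
  have hdvd : minpoly ℂ φ ∣ (X ^ kk - 1) ^ Multiset.card (minpoly ℂ φ).roots := by
    have h1 : minpoly ℂ φ = ((minpoly ℂ φ).roots.map fun a => X - C a).prod := by
      have h2 := (IsAlgClosed.splits (minpoly ℂ φ)).eq_prod_roots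
      rw [(minpoly.monic (Algebra.IsIntegral.isIntegral (R := ℂ) φ)).leadingCoeff, C_1,
        one_mul] at h2
      exact h2
    have h3 : ((X : Polynomial ℂ) ^ kk - 1) ^ Multiset.card (minpoly ℂ φ).roots =
        ((minpoly ℂ φ).roots.map fun _ => (X : Polynomial ℂ) ^ kk - 1).prod := by
      rw [Multiset.map_const', Multiset.prod_replicate]
    rw [h3]
    nth_rewrite 1 [h1]
    refine Multiset.prod_dvd_prod_of_dvd _ _ fun a ha => ?_
    rw [Polynomial.dvd_iff_isRoot, Polynomial.IsRoot, eval_sub, eval_pow, eval_X, eval_one,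
      hkk a ha, sub_self]
  have h0 : (φ ^ kk - 1) ^ Multiset.card (minpoly ℂ φ).roots = 0 := by
    obtain ⟨q, hq⟩ := hdvd
    have h1 := congrArg (aeval φ) hq
    have h2 : aeval φ (minpoly ℂ φ) = 0 := minpoly.aeval ℂ φ
    rw [map_mul, h2, zero_mul, map_pow, map_sub, map_pow, aeval_X, map_one] at h1
    exact h1
  have h1 : ∀ v : VD S D, ((φ ^ kk - 1) v : S) = ((sL σ hσ ^ kk - 1 : Module.End ℂ S)) v := by
    intro v
    rw [LinearMap.sub_apply, LinearMap.sub_apply, AddSubgroupClass.coe_sub, pow_coe hφ]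
    rfl
  have h2 := pow_coe h1 (Multiset.card (minpoly ℂ φ).roots) ⟨_, hV⟩
  rw [h0] at h2
  exact h2.symm

end Pool.Agent.TH143.HE
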